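import Pool.Agent.H87.NR.Def
import Pool.Agent.H60.NH.NHold
import Pool.Agent.H60.NH.NCont

/-!
# [H87 NR AMPL] The amplitude of a node

Proof. `AA f j x ≤ 8^(n-1) ε` is `AA_nonneg` (NCont). Hölder on `ball x (8 / p2 j)` with the exponents
`n` and `n / (n-1)`: `∫ f ≤ (volume)^((n-1)/n) * (∫ f^n)^(1/n)`, `volume = vb n * (8 / p2 j)^n`
(`vol_ball` in NInt), so `AA f j x = p2 j^(n-1) ∫ f ≤ (vb n)^((n-1)/n) 8^(n-1) (∫_{ball x (8/p2 j)} f^n)^(1/n)`,
and `ball x (8 / p2 j) ⊆ ball y (16 / p2 k)`. (Compare `AA_hold` in NHold, the same estimate with the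
exponent `n - 1/2`.) `Cs = max of the two constants`.
-/

set_option autoImplicit false

namespace H87NR

open H60NH H60NT MeasureTheory Metric Set Filter Topology
open scoped ENNReal NNReal ContDiff

theorem amp_ex (n : ℕ) (hn : 3 ≤ n) : ∃ Cs : ℝ, 1 ≤ Cs ∧
    ∀ (f : E n → ℝ) (ε : ℝ), Mor f ε → ∀ (y : E n) (k j : ℕ), k ≤ j → ∀ x ∈ ball y (8 / p2 k),
      AA f j x ≤ Cs * min ε ((∫ w in ball y (16 / p2 k), f w ^ n) ^ (1 / (n : ℝ))) := by
  have hn0 : (0 : ℝ) < n := by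
    have : 0 < n := by omega
    exact_mod_cast this
  have hn1 : (1 : ℝ) < n := by
    have : 1 < n := by omega
    exact_mod_cast this
  refine ⟨max (8 ^ (n - 1)) ((vb n * 8 ^ n) ^ (1 - 1 / (n : ℝ))),
    (one_le_pow₀ (by norm_num)).trans (le_max_left _ _), ?_⟩
  intro f ε hf y k j hkj x hx
  have hp : 0 < p2 j := by unfold p2; positivity
  have hpk : 0 < p2 k := by unfold p2; positivity
  have hkj' : p2 k ≤ p2 j := pow_le_pow_right₀ (by norm_num) hkj
  have hvb := vb_pos n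
  have hr : 0 < 8 / p2 j := by positivity
  have hvol : volume (ball x (8 / p2 j)) = ENNReal.ofReal (vb n * (8 / p2 j) ^ n) := vol_ball x _ hr
  have hfin : volume (ball x (8 / p2 j)) ≠ ⊤ := by rw [hvol]; exact ENNReal.ofReal_ne_top
  haveI : IsFiniteMeasure (volume.restrict (ball x (8 / p2 j))) :=
    ⟨by rw [Measure.restrict_apply_univ]; exact lt_top_iff_ne_top.2 hfin⟩
  obtain ⟨I, hI⟩ : ∃ I : ℝ, I = ∫ w in ball x (8 / p2 j), f w := ⟨_, rfl⟩
  obtain ⟨J, hJ⟩ : ∃ J : ℝ, J = ∫ w in ball x (8 / p2 j), f w ^ n := ⟨_, rfl⟩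
  obtain ⟨Jy, hJy⟩ : ∃ Jy : ℝ, Jy = ∫ w in ball y (16 / p2 k), f w ^ n := ⟨_, rfl⟩
  rw [← hJy]
  have hJ0 : 0 ≤ J := by
    rw [hJ]
    exact integral_nonneg fun w => pow_nonneg (hf.nonneg w) _
  have hV0 : 0 ≤ vb n * (8 / p2 j) ^ n := by positivity
  have hhol : I ≤ J ^ (1 / (n : ℝ)) * (vb n * (8 / p2 j) ^ n) ^ (1 - 1 / (n : ℝ)) := by
    have h1 := hold_w (ν := volume.restrict (ball x (8 / p2 j))) (a := fun w => f w ^ n)
      (b := fun _ => (1 : ℝ)) hf.intn.integrableOn (integrable_const _)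
      (fun w => pow_nonneg (hf.nonneg w) _) (fun _ => zero_le_one) (t := 1 - 1 / (n : ℝ))
      (by rw [sub_pos, div_lt_one hn0]; exact hn1) (by
        have : 0 < 1 / (n : ℝ) := by positivity
        linarith)
    have h2 : ∀ w, (f w ^ n) ^ (1 - (1 - 1 / (n : ℝ))) * (1 : ℝ) ^ (1 - 1 / (n : ℝ)) = f w := by
      intro w
      rw [Real.one_rpow, mul_one, sub_sub_cancel, ← Real.rpow_natCast, ← Real.rpow_mul (hf.nonneg w),
        mul_one_div_cancel hn0.ne', Real.rpow_one]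
    simp_rw [h2] at h1
    rw [sub_sub_cancel, setIntegral_const, smul_eq_mul, mul_one] at h1
    rw [Measure.real, hvol, ENNReal.toReal_ofReal hV0, ← hI, ← hJ] at h1
    exact h1
  have hAA : AA f j x = p2 j ^ (n - 1) * I := by
    rw [hI]
    rfl
  have hkey : p2 j ^ (n - 1) * (vb n * (8 / p2 j) ^ n) ^ (1 - 1 / (n : ℝ)) =
      (vb n * 8 ^ n) ^ (1 - 1 / (n : ℝ)) := by
    have e1 : vb n * (8 / p2 j) ^ n = (vb n * 8 ^ n) * (p2 j ^ n)⁻¹ := by
      rw [div_pow]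
      field_simp
    rw [e1, Real.mul_rpow (by positivity) (by positivity), Real.inv_rpow (by positivity)]
    have e2 : (p2 j ^ n) ^ (1 - 1 / (n : ℝ)) = p2 j ^ (n - 1) := by
      rw [← Real.rpow_natCast (p2 j) n, ← Real.rpow_mul hp.le, ← Real.rpow_natCast (p2 j) (n - 1)]
      congr 1
      rw [Nat.cast_sub (by omega), mul_sub, mul_one, mul_one_div_cancel hn0.ne']
      push_cast
      ring
    rw [e2]
    have : p2 j ^ (n - 1) ≠ 0 := (pow_pos hp _).ne'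
    field_simp
  have hJJ : J ≤ Jy := by
    rw [hJ, hJy]
    refine setIntegral_mono_set hf.intn.integrableOn
      (Filter.Eventually.of_forall fun w => pow_nonneg (hf.nonneg w) _)
      (Filter.Eventually.of_forall ?_)
    intro w hw
    have h1 : dist w x < 8 / p2 j := mem_ball.mp hw
    have h2 : dist x y < 8 / p2 k := mem_ball.mp hx
    have h3 : 8 / p2 j ≤ 8 / p2 k := div_le_div_of_nonneg_left (by norm_num) hpk hkj'
    have h4 := dist_triangle w x y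
    refine mem_ball.mpr ?_
    have h5 : 16 / p2 k = 8 / p2 k + 8 / p2 k := by ring
    rw [h5]
    linarith
  have hA1 : AA f j x ≤ 8 ^ (n - 1) * ε := (AA_nonneg hf j x).2.2.2
  have hA2 : AA f j x ≤ (vb n * 8 ^ n) ^ (1 - 1 / (n : ℝ)) * Jy ^ (1 / (n : ℝ)) := by
    rw [hAA]
    calc p2 j ^ (n - 1) * I
        ≤ p2 j ^ (n - 1) * (J ^ (1 / (n : ℝ)) * (vb n * (8 / p2 j) ^ n) ^ (1 - 1 / (n : ℝ))) :=
          mul_le_mul_of_nonneg_left hhol (by positivity)
      _ = (p2 j ^ (n - 1) * (vb n * (8 / p2 j) ^ n) ^ (1 - 1 / (n : ℝ))) * J ^ (1 / (n : ℝ)) := by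
          ring
      _ = (vb n * 8 ^ n) ^ (1 - 1 / (n : ℝ)) * J ^ (1 / (n : ℝ)) := by rw [hkey]
      _ ≤ (vb n * 8 ^ n) ^ (1 - 1 / (n : ℝ)) * Jy ^ (1 / (n : ℝ)) :=
          mul_le_mul_of_nonneg_left (Real.rpow_le_rpow hJ0 hJJ (by positivity))
            (Real.rpow_nonneg (by positivity) _)
  rcases le_total ε (Jy ^ (1 / (n : ℝ))) with h | h
  · rw [min_eq_left h]
    exact hA1.trans (mul_le_mul_of_nonneg_right (le_max_left _ _) hf.eps)
  · rw [min_eq_right h]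
    exact hA2.trans (mul_le_mul_of_nonneg_right (le_max_right _ _)
      (Real.rpow_nonneg (hJ0.trans hJJ) _))

end H87NR
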