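import Pool.Agent.H87.NR.Def

/-!
# [H87 NR ARI] Arithmetic of the recursion

`κ = 1 / (4 n)`, `θ = (1/2)^κ < 1` (real powers).
* `sqrt_am`: `min a b ≤ √(a b)` for `a, b ≥ 0`, so with `a = ε`, `b = Ds^(1/n)`:
  `√(am) = √Cs * √(min a b) ≤ √Cs * (a b)^(1/4) = √Cs ε^(1/4) Ds^(1/(4n))`.
* `am_pow`: `am^(n + n γ) = am^n am^(n γ) ≤ (Cs ε)^n (Cs Ds^(1/n))^(n γ) = Cs^(n + nγ) ε^n Ds^γ`.
* `ari_exp`: `A = C √Cs / (1 - θ)`. `C √am + A ε^(1/4) Dc^κ ≤ C √Cs ε^(1/4) Ds^κ + A ε^(1/4) θ Ds^κ = A ε^(1/4) Ds^κ`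
  for `Dc ≤ Ds / 2`.
* `ari_loss`: `∑ (Dc)^(γ+1) ≤ (Ds/2)^γ ∑ Dc ≤ C1 2^(-γ) Ds^(γ+1) ≤ Ds^(γ+1) / 4` if `4 C1 ≤ 2^γ`.
The indices are those of a finite set; `x ^ (1/4 : ℝ)`, `x ^ (1/(4n) : ℝ)` are real powers.
-/

set_option autoImplicit false

namespace H87NR

open H60NH H60NT MeasureTheory Metric Set Filter Topology
open scoped ENNReal NNReal ContDiff

/-- `A ε^(1/4) d^(1/(4n))`. -/
noncomputable def Ex (n : ℕ) (A ε d : ℝ) : ℝ :=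
  A * ε ^ (1 / 4 : ℝ) * d ^ (1 / (4 * n) : ℝ)

private theorem Ds_nonneg {n m : ℕ} {P : Par n m} (D : Dyn P) (nd : Node n) : 0 ≤ D.Ds nd :=
  integral_nonneg fun x => pow_nonneg (D.hf.nonneg x) n

private theorem min_sqrt (a b : ℝ) (ha : 0 ≤ a) (hb : 0 ≤ b) :
    Real.sqrt (min a b) ≤ a ^ (1 / 4 : ℝ) * b ^ (1 / 4 : ℝ) := by
  have h1 : min a b ≤ Real.sqrt (a * b) := by
    refine Real.le_sqrt_of_sq_le ?_
    rw [pow_two]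
    exact mul_le_mul (min_le_left _ _) (min_le_right _ _) (le_min ha hb) ha
  refine (Real.sqrt_le_sqrt h1).trans_eq ?_
  rw [Real.sqrt_eq_rpow, Real.sqrt_eq_rpow, ← Real.rpow_mul (mul_nonneg ha hb),
    Real.mul_rpow ha hb]
  norm_num

theorem sqrt_am {n m : ℕ} {P : Par n m} (D : Dyn P) (Cs : ℝ) (hCs : 1 ≤ Cs) (nd : Node n) :
    Real.sqrt (am D Cs nd) ≤
      Real.sqrt Cs * D.ε ^ (1 / 4 : ℝ) * (D.Ds nd) ^ (1 / (4 * n) : ℝ) := by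
  have hn := P.hn
  have hn0 : (n : ℝ) ≠ 0 := by
    have : n ≠ 0 := by omega
    exact_mod_cast this
  have hDs := Ds_nonneg D nd
  unfold am
  rw [Real.sqrt_mul (zero_le_one.trans hCs), mul_assoc]
  refine mul_le_mul_of_nonneg_left ?_ (Real.sqrt_nonneg _)
  refine (min_sqrt _ _ D.ε_pos.le (Real.rpow_nonneg hDs _)).trans_eq ?_
  rw [← Real.rpow_mul hDs]
  congr 2
  field_simp

theorem am_pow {n m : ℕ} {P : Par n m} (D : Dyn P) (Cs : ℝ) (hCs : 1 ≤ Cs) (nd : Node n) (γ : ℕ) :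
    am D Cs nd ^ (n + n * γ) ≤ Cs ^ (n + n * γ) * D.ε ^ n * (D.Ds nd) ^ γ := by
  have hn := P.hn
  have hn0 : (n : ℝ) ≠ 0 := by
    have : n ≠ 0 := by omega
    exact_mod_cast this
  have hDs := Ds_nonneg D nd
  have hε := D.ε_pos.le
  have hr : 0 ≤ (D.Ds nd) ^ (1 / (n : ℝ)) := Real.rpow_nonneg hDs _
  have hm : 0 ≤ min D.ε ((D.Ds nd) ^ (1 / (n : ℝ))) := le_min hε hr
  unfold am
  rw [mul_pow, mul_assoc]
  refine mul_le_mul_of_nonneg_left ?_ (pow_nonneg (zero_le_one.trans hCs) _)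
  rw [pow_add]
  refine mul_le_mul (pow_le_pow_left₀ hm (min_le_left _ _) n) ?_ (pow_nonneg hm _)
    (pow_nonneg hε n)
  calc min D.ε ((D.Ds nd) ^ (1 / (n : ℝ))) ^ (n * γ)
      ≤ ((D.Ds nd) ^ (1 / (n : ℝ))) ^ (n * γ) := pow_le_pow_left₀ hm (min_le_right _ _) _
    _ = (D.Ds nd) ^ γ := by
        rw [pow_mul, ← Real.rpow_natCast ((D.Ds nd) ^ (1 / (n : ℝ))) n, ← Real.rpow_mul hDs]
        congr 1
        rw [one_div, inv_mul_cancel₀ hn0, Real.rpow_one]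

theorem ari_exp {n m : ℕ} (P : Par n m) (Cs C : ℝ) (hCs : 1 ≤ Cs) (hC : 1 ≤ C) :
    ∃ A : ℝ, 1 ≤ A ∧ ∀ (D : Dyn P) (nd : Node n) (d : ℝ), 0 ≤ d → d ≤ D.Ds nd / 2 →
      C * Real.sqrt (am D Cs nd) + Ex n A D.ε d ≤ Ex n A D.ε (D.Ds nd) := by
  have hn := P.hn
  have hn0 : (0 : ℝ) < n := by
    have : 0 < n := by omega
    exact_mod_cast this
  obtain ⟨κ, hκ⟩ : ∃ κ : ℝ, κ = 1 / (4 * n) := ⟨_, rfl⟩
  have hκ0 : 0 < κ := by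
    rw [hκ]
    positivity
  obtain ⟨θ, hθ⟩ : ∃ θ : ℝ, θ = (1 / 2 : ℝ) ^ κ := ⟨_, rfl⟩
  have hθ0 : 0 < θ := by
    rw [hθ]
    positivity
  have hθ1 : θ < 1 := by
    rw [hθ]
    exact Real.rpow_lt_one (by norm_num) (by norm_num) hκ0
  have h1θ : 0 < 1 - θ := by linarith
  have hs1 : 1 ≤ Real.sqrt Cs := by
    rw [Real.one_le_sqrt]
    exact hCs
  obtain ⟨A, hA⟩ : ∃ A : ℝ, A = C * Real.sqrt Cs / (1 - θ) := ⟨_, rfl⟩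
  have hCs1 : 1 ≤ C * Real.sqrt Cs := one_le_mul_of_one_le_of_one_le hC hs1
  have hA1 : 1 ≤ A := by
    rw [hA, le_div_iff₀ h1θ]
    linarith
  have hA' : C * Real.sqrt Cs = A * (1 - θ) := by
    rw [hA]
    field_simp
  refine ⟨A, hA1, ?_⟩
  intro D nd d hd0 hd
  have hDs := Ds_nonneg D nd
  have h1 := sqrt_am D Cs hCs nd
  have hε4 : 0 ≤ D.ε ^ (1 / 4 : ℝ) := Real.rpow_nonneg D.ε_pos.le _
  have hDκ : 0 ≤ (D.Ds nd) ^ κ := Real.rpow_nonneg hDs _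
  have h2 : d ^ κ ≤ θ * (D.Ds nd) ^ κ := by
    calc d ^ κ ≤ (D.Ds nd / 2) ^ κ := Real.rpow_le_rpow hd0 hd hκ0.le
      _ = (1 / 2 * D.Ds nd) ^ κ := by
          congr 1
          ring
      _ = θ * (D.Ds nd) ^ κ := by
          rw [hθ, Real.mul_rpow (by norm_num) hDs]
  unfold Ex
  rw [← hκ] at h1 ⊢
  have h3 : C * Real.sqrt (am D Cs nd) ≤
      A * (1 - θ) * (D.ε ^ (1 / 4 : ℝ) * (D.Ds nd) ^ κ) := by
    rw [← hA']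
    calc C * Real.sqrt (am D Cs nd)
        ≤ C * (Real.sqrt Cs * D.ε ^ (1 / 4 : ℝ) * (D.Ds nd) ^ κ) :=
          mul_le_mul_of_nonneg_left h1 (by linarith)
      _ = C * Real.sqrt Cs * (D.ε ^ (1 / 4 : ℝ) * (D.Ds nd) ^ κ) := by ring
  have h4 : A * D.ε ^ (1 / 4 : ℝ) * d ^ κ ≤ A * D.ε ^ (1 / 4 : ℝ) * (θ * (D.Ds nd) ^ κ) :=
    mul_le_mul_of_nonneg_left h2 (by positivity)
  calc C * Real.sqrt (am D Cs nd) + A * D.ε ^ (1 / 4 : ℝ) * d ^ κ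
      ≤ A * (1 - θ) * (D.ε ^ (1 / 4 : ℝ) * (D.Ds nd) ^ κ) +
        A * D.ε ^ (1 / 4 : ℝ) * (θ * (D.Ds nd) ^ κ) := add_le_add h3 h4
    _ = A * D.ε ^ (1 / 4 : ℝ) * (D.Ds nd) ^ κ := by ring

theorem ari_loss (n γ : ℕ) (hγ : 4 * C1 n ≤ 2 ^ γ) {ι : Type*} (s : Finset ι) (d : ι → ℝ)
    (Ds : ℝ) (h0 : ∀ i ∈ s, 0 ≤ d i) (h1 : ∀ i ∈ s, d i ≤ Ds / 2) (h2 : ∑ i ∈ s, d i ≤ C1 n * Ds) :
    ∑ i ∈ s, d i ^ (γ + 1) ≤ Ds ^ (γ + 1) / 4 := by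
  by_cases hs : s.Nonempty
  · obtain ⟨i₀, hi₀⟩ := hs
    have hDs : 0 ≤ Ds := by
      have h3 := h0 i₀ hi₀
      have h4 := h1 i₀ hi₀
      linarith
    have h3 : ∀ i ∈ s, d i ^ (γ + 1) ≤ (Ds / 2) ^ γ * d i := by
      intro i hi
      rw [pow_succ]
      exact mul_le_mul_of_nonneg_right (pow_le_pow_left₀ (h0 i hi) (h1 i hi) γ) (h0 i hi)
    have h4 : 0 ≤ (Ds / 2) ^ γ := by positivity
    have h5 : C1 n / 2 ^ γ ≤ 1 / 4 := by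
      rw [div_le_iff₀ (by positivity)]
      linarith
    calc ∑ i ∈ s, d i ^ (γ + 1) ≤ ∑ i ∈ s, (Ds / 2) ^ γ * d i := Finset.sum_le_sum h3
      _ = (Ds / 2) ^ γ * ∑ i ∈ s, d i := by rw [Finset.mul_sum]
      _ ≤ (Ds / 2) ^ γ * (C1 n * Ds) := mul_le_mul_of_nonneg_left h2 h4
      _ = C1 n / 2 ^ γ * Ds ^ (γ + 1) := by
          rw [div_pow, pow_succ]
          ring
      _ ≤ 1 / 4 * Ds ^ (γ + 1) := mul_le_mul_of_nonneg_right h5 (by positivity)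
      _ = Ds ^ (γ + 1) / 4 := by ring
  · rw [Finset.not_nonempty_iff_eq_empty] at hs
    subst hs
    simp only [Finset.sum_empty] at h2 ⊢
    have hC1 : 0 < C1 n := by
      unfold C1
      positivity
    have hDs : 0 ≤ Ds := by
      by_contra hc
      have := mul_neg_of_pos_of_neg hC1 (not_le.1 hc)
      linarith
    positivity

end H87NR
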