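import Pool.Agent.H87.NR.DRIFT

/-!
# [H87 NR CLOSE] Distances inside the blocks, in terms of `√e`

`e ≤ √e` (`0 < e ≤ 1`), `e * T ≤ √e`, `e * W ≤ 2 √e` (from `W √e ≤ 2`).
* `close_child`: by `drift` `‖base(ch) - π(ub i x₀)‖ ≤ Cd e (|i - j| + T + 4) ≤ Cd (4 √e + 4 √e + √e + 4 √e)`;
  with `‖Pa - π(ub i x₀)‖ ≤ Cb √e` and `P.hG.dd_lip` (both points in `N`: `base_near` via `ch_ok`).
* `close_base`: the same with `Pa = base nd`, `i = nd.k`, `base_path`.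
* `close_pts`: `path` with `|i - i'| ≤ W`: `Cd e (W + 2) ≤ 4 Cd √e`.
* `close_base_pt`: `base_path` and `path`: `3 Cd e + Cd e (W + 2) ≤ 7 Cd √e`.
* `empty_pt`: `inner_near` with `i = s ≤ b`: `‖x - x₀‖ < 2 / p2 b ≤ 2 / p2 s` (`tp_facts`, `nd.k < b`), so
  `dd q Pt ≤ dd q base + CG (Cb √e + 5 Cd e + Cd NN f s nd.k x)`
  `≤ (dd q base + C₅ NN f s nd.k x) + CG (5 Cd + Cb) √e ≤ t₀ + r₁ / 2 ≤ r₁`.
-/

set_option autoImplicit false

namespace H87NR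

open H60NH H60NT MeasureTheory Metric Set Filter Topology
open scoped ENNReal NNReal ContDiff

private theorem cl_sq {e : ℝ} (he0 : 0 < e) (he1 : e ≤ 1) : e ≤ Real.sqrt e := by
  refine Real.le_sqrt_of_sq_le ?_
  nlinarith

private theorem cl_W {e : ℝ} (he0 : 0 < e) (W : ℕ) (hWe : W * Real.sqrt e ≤ 2) :
    e * W ≤ 2 * Real.sqrt e := by
  have h1 : Real.sqrt e * Real.sqrt e = e := Real.mul_self_sqrt he0.le
  have h2 := mul_le_mul_of_nonneg_right hWe (Real.sqrt_nonneg e)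
  calc e * W = W * Real.sqrt e * Real.sqrt e := by rw [mul_assoc, h1, mul_comm]
    _ ≤ 2 * Real.sqrt e := h2

private theorem cl_lip {n m : ℕ} {P : Par n m} (q a b : E m) (hq : q ∈ P.N) (ha : a ∈ P.N)
    (hb : b ∈ P.N) (c : ℝ) (h : ‖a - b‖ ≤ c) : P.dd q a ≤ P.dd q b + P.CG * c := by
  have h1 := (abs_le.1 (P.hG.dd_lip q hq a ha b hb)).2
  have h2 := mul_le_mul_of_nonneg_left h (zero_le_one.trans P.hG.one_le)
  linarith

private theorem cl_p2 (k : ℕ) : 0 < p2 k := by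
  unfold p2
  positivity

private theorem cl_baseN {n m : ℕ} {P : Par n m} {D : Dyn P} {Cd : ℝ} (hd : Dist D Cd)
    (nd : Node n) (hnd : nd.OK (L0 P)) : D.base nd ∈ P.N := by
  refine (base_near hd nd hnd nd.y (mem_ball_self ?_)).1
  have := cl_p2 nd.k
  positivity

theorem close_child {n m : ℕ} {P : Par n m} {D : Dyn P} {Cd : ℝ} (hd : Dist D Cd) (nd : Node n)
    (hnd : nd.OK (L0 P)) (e : ℝ) (he0 : 0 < e) (he1 : e ≤ 1) (ha : Amp D nd e) (x₀ : E n)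
    (hx₀ : ‖x₀ - nd.y‖ ≤ 2 / p2 nd.k) (T W Ke j i : ℕ) (z : Fin n → ℤ) (hT : 20 ≤ T)
    (hTe : e * T ≤ Real.sqrt e) (hWe : W * Real.sqrt e ≤ 2)
    (hj : nd.k ≤ j) (hi : nd.k ≤ i) (hne : ∃ x, (ch P nd x₀ T Ke j z).η x ≠ 0)
    (hij : i ≤ j + (2 * W + 4)) (hji : j ≤ i + (2 * W + 4)) (Cb : ℝ) (Pa : E m) (hPa : Pa ∈ P.N)
    (hPi : ‖Pa - P.π (D.ub i x₀)‖ ≤ Cb * Real.sqrt e) (q : E m) (hq : q ∈ P.N) :
    P.dd q (D.base (ch P nd x₀ T Ke j z)) ≤ P.dd q Pa + P.CG * (13 * Cd + Cb) * Real.sqrt e := by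
  have hCd : 0 < Cd := zero_lt_one.trans_le hd.one_le
  have hs := cl_sq he0 he1
  have hW := cl_W he0 W hWe
  have h1 := drift hd nd hnd e ha x₀ hx₀ T Ke j i z hT hj hi hne
  have h2 : ((i - j : ℕ) : ℝ) + ((j - i : ℕ) : ℝ) ≤ 2 * W + 4 := by
    have h3 : (i - j) + (j - i) ≤ 2 * W + 4 := by omega
    exact_mod_cast h3
  have h4 : Cd * e * (((i - j : ℕ) : ℝ) + ((j - i : ℕ) : ℝ) + T + 4) ≤ 13 * Cd * Real.sqrt e := by
    calc Cd * e * (((i - j : ℕ) : ℝ) + ((j - i : ℕ) : ℝ) + T + 4)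
        ≤ Cd * e * (2 * W + 4 + T + 4) := by
          refine mul_le_mul_of_nonneg_left (by linarith) (by positivity)
      _ = Cd * (2 * (e * W) + e * T + 8 * e) := by ring
      _ ≤ Cd * (2 * (2 * Real.sqrt e) + Real.sqrt e + 8 * Real.sqrt e) := by
          refine mul_le_mul_of_nonneg_left (by linarith) hCd.le
      _ = 13 * Cd * Real.sqrt e := by ring
  have h5 : ‖D.base (ch P nd x₀ T Ke j z) - Pa‖ ≤ (13 * Cd + Cb) * Real.sqrt e := by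
    have h6 : D.base (ch P nd x₀ T Ke j z) - Pa =
        (D.base (ch P nd x₀ T Ke j z) - P.π (D.ub i x₀)) - (Pa - P.π (D.ub i x₀)) := by abel
    rw [h6]
    refine (norm_sub_le _ _).trans ?_
    linarith
  have h7 := cl_lip q _ _ hq (cl_baseN hd _ (ch_ok P nd hnd x₀ T Ke j z hT hj hne)) hPa _ h5
  rw [← mul_assoc] at h7
  exact h7

theorem close_base {n m : ℕ} {P : Par n m} {D : Dyn P} {Cd : ℝ} (hd : Dist D Cd) (nd : Node n)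
    (hnd : nd.OK (L0 P)) (e : ℝ) (he0 : 0 < e) (he1 : e ≤ 1) (ha : Amp D nd e) (x₀ : E n)
    (hx₀ : ‖x₀ - nd.y‖ ≤ 2 / p2 nd.k) (T W Ke j : ℕ) (z : Fin n → ℤ) (hT : 20 ≤ T)
    (hTe : e * T ≤ Real.sqrt e) (hWe : W * Real.sqrt e ≤ 2)
    (hj : nd.k ≤ j) (hne : ∃ x, (ch P nd x₀ T Ke j z).η x ≠ 0)
    (hji : j ≤ nd.k + (2 * W + 4)) (q : E m) (hq : q ∈ P.N) :
    P.dd q (D.base (ch P nd x₀ T Ke j z)) ≤
      P.dd q (D.base nd) + P.CG * (16 * Cd) * Real.sqrt e := by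
  have hCd : 0 < Cd := zero_lt_one.trans_le hd.one_le
  have hs := cl_sq he0 he1
  have h1 : ‖D.base nd - P.π (D.ub nd.k x₀)‖ ≤ 3 * Cd * Real.sqrt e :=
    (base_path hd nd hnd e ha x₀ hx₀).trans (mul_le_mul_of_nonneg_left hs (by positivity))
  have h2 := close_child hd nd hnd e he0 he1 ha x₀ hx₀ T W Ke j nd.k z hT hTe hWe hj le_rfl hne
    (by omega) hji (3 * Cd) (D.base nd) (cl_baseN hd nd hnd) h1 q hq
  refine h2.trans_eq ?_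
  ring

theorem close_pts {n m : ℕ} {P : Par n m} {D : Dyn P} {Cd : ℝ} (hd : Dist D Cd) (nd : Node n)
    (hnd : nd.OK (L0 P)) (e : ℝ) (he0 : 0 < e) (he1 : e ≤ 1) (ha : Amp D nd e) (x₀ : E n)
    (hx₀ : ‖x₀ - nd.y‖ ≤ 2 / p2 nd.k) (W i i' : ℕ) (hWe : W * Real.sqrt e ≤ 2)
    (hi : nd.k ≤ i) (hii : i ≤ i') (hi' : i' ≤ i + W) (Cb : ℝ) (Pa Pb : E m) (hPa : Pa ∈ P.N)
    (hPb : Pb ∈ P.N) (hPi : ‖Pa - P.π (D.ub i x₀)‖ ≤ Cb * Real.sqrt e)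
    (hPi' : ‖Pb - P.π (D.ub i' x₀)‖ ≤ Cb * Real.sqrt e) (q : E m) (hq : q ∈ P.N) :
    P.dd q Pb ≤ P.dd q Pa + P.CG * (4 * Cd + 2 * Cb) * Real.sqrt e := by
  have hCd : 0 < Cd := zero_lt_one.trans_le hd.one_le
  have hs := cl_sq he0 he1
  have hW := cl_W he0 W hWe
  have h1 := path hd nd hnd e ha x₀ hx₀ i' i (by omega) hi
  have h2 : ((i' - i : ℕ) : ℝ) + ((i - i' : ℕ) : ℝ) ≤ W := by
    have h3 : (i' - i) + (i - i') ≤ W := by omega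
    exact_mod_cast h3
  have h4 : Cd * e * (((i' - i : ℕ) : ℝ) + ((i - i' : ℕ) : ℝ) + 2) ≤ 4 * Cd * Real.sqrt e := by
    calc Cd * e * (((i' - i : ℕ) : ℝ) + ((i - i' : ℕ) : ℝ) + 2)
        ≤ Cd * e * (W + 2) := by
          refine mul_le_mul_of_nonneg_left (by linarith) (by positivity)
      _ = Cd * (e * W + 2 * e) := by ring
      _ ≤ Cd * (2 * Real.sqrt e + 2 * Real.sqrt e) := by
          refine mul_le_mul_of_nonneg_left (by linarith) hCd.le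
      _ = 4 * Cd * Real.sqrt e := by ring
  have h5 : ‖Pb - Pa‖ ≤ (4 * Cd + 2 * Cb) * Real.sqrt e := by
    have h6 : Pb - Pa = (Pb - P.π (D.ub i' x₀)) + (P.π (D.ub i' x₀) - P.π (D.ub i x₀)) +
        (P.π (D.ub i x₀) - Pa) := by abel
    rw [norm_sub_rev] at hPi
    rw [h6]
    refine norm_add₃_le.trans ?_
    linarith
  have h7 := cl_lip q _ _ hq hPb hPa _ h5
  rw [← mul_assoc] at h7
  exact h7

theorem close_base_pt {n m : ℕ} {P : Par n m} {D : Dyn P} {Cd : ℝ} (hd : Dist D Cd) (nd : Node n)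
    (hnd : nd.OK (L0 P)) (e : ℝ) (he0 : 0 < e) (he1 : e ≤ 1) (ha : Amp D nd e) (x₀ : E n)
    (hx₀ : ‖x₀ - nd.y‖ ≤ 2 / p2 nd.k) (W i : ℕ) (hWe : W * Real.sqrt e ≤ 2)
    (hi : nd.k ≤ i) (hi' : i ≤ nd.k + W) (Cb : ℝ) (Pb : E m)
    (hPb : Pb ∈ P.N) (hPi : ‖Pb - P.π (D.ub i x₀)‖ ≤ Cb * Real.sqrt e) (q : E m) (hq : q ∈ P.N) :
    P.dd q Pb ≤ P.dd q (D.base nd) + P.CG * (7 * Cd + Cb) * Real.sqrt e := by
  have hCd : 0 < Cd := zero_lt_one.trans_le hd.one_le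
  have hs := cl_sq he0 he1
  have hW := cl_W he0 W hWe
  have h1 := path hd nd hnd e ha x₀ hx₀ i nd.k hi le_rfl
  have h2 : ((i - nd.k : ℕ) : ℝ) + ((nd.k - i : ℕ) : ℝ) ≤ W := by
    have h3 : (i - nd.k) + (nd.k - i) ≤ W := by omega
    exact_mod_cast h3
  have h4 : Cd * e * (((i - nd.k : ℕ) : ℝ) + ((nd.k - i : ℕ) : ℝ) + 2) ≤ 4 * Cd * Real.sqrt e := by
    calc Cd * e * (((i - nd.k : ℕ) : ℝ) + ((nd.k - i : ℕ) : ℝ) + 2)
        ≤ Cd * e * (W + 2) := by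
          refine mul_le_mul_of_nonneg_left (by linarith) (by positivity)
      _ = Cd * (e * W + 2 * e) := by ring
      _ ≤ Cd * (2 * Real.sqrt e + 2 * Real.sqrt e) := by
          refine mul_le_mul_of_nonneg_left (by linarith) hCd.le
      _ = 4 * Cd * Real.sqrt e := by ring
  have h8 : ‖D.base nd - P.π (D.ub nd.k x₀)‖ ≤ 3 * Cd * Real.sqrt e :=
    (base_path hd nd hnd e ha x₀ hx₀).trans (mul_le_mul_of_nonneg_left hs (by positivity))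
  have h5 : ‖Pb - D.base nd‖ ≤ (7 * Cd + Cb) * Real.sqrt e := by
    have h6 : Pb - D.base nd = (Pb - P.π (D.ub i x₀)) + (P.π (D.ub i x₀) - P.π (D.ub nd.k x₀)) +
        (P.π (D.ub nd.k x₀) - D.base nd) := by abel
    rw [norm_sub_rev] at h8
    rw [h6]
    refine norm_add₃_le.trans ?_
    linarith
  have h7 := cl_lip q _ _ hq hPb (cl_baseN hd nd hnd) _ h5
  rw [← mul_assoc] at h7
  exact h7

theorem empty_pt {n m : ℕ} {P : Par n m} {D : Dyn P} {Cd C₅ t₀ : ℝ} (hd : Dist D Cd) (nd : Node n)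
    (hnd : nd.OK (L0 P)) (e : ℝ) (he0 : 0 < e) (he1 : e ≤ 1) (ha : Amp D nd e) (x₀ : E n)
    (hx₀ : ‖x₀ - nd.y‖ ≤ 2 / p2 nd.k) (Ke b s : ℕ) (hs : nd.k ≤ s) (hsb : s ≤ b) (hb : nd.k < b)
    (h5 : P.CG * Cd ≤ C₅) (ht : t₀ ≤ P.r₁ / 2) (Cb : ℝ)
    (hsm : P.CG * (5 * Cd + Cb) * Real.sqrt e ≤ P.r₁ / 2) (Pt : E m) (hPt : Pt ∈ P.N)
    (hPs : ‖Pt - P.π (D.ub s x₀)‖ ≤ Cb * Real.sqrt e) (q : E m) (hq : q ∈ P.N) (x : E n)
    (hx : nd.η x * tp P x₀ nd.k Ke b x ≠ 0)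
    (h : ∀ K : ℕ, P.dd q (D.base nd) + C₅ * NN D.f K nd.k x ≤ t₀) : P.dd q Pt ≤ P.r₁ := by
  have hCd : 0 < Cd := zero_lt_one.trans_le hd.one_le
  have hCG : 0 < P.CG := zero_lt_one.trans_le P.hG.one_le
  have hle := cl_sq he0 he1
  have hη : nd.η x ≠ 0 := left_ne_zero_of_mul hx
  have htp : tp P x₀ nd.k Ke b x ≠ 0 := right_ne_zero_of_mul hx
  have hxb : ‖x - x₀‖ < 2 / p2 b := (tp_facts P x₀ nd.k Ke b).2.2.2.2.2.1 x hb htp
  have hxs : ‖x - x₀‖ ≤ 2 / p2 s := by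
    refine hxb.le.trans ?_
    have h1 : p2 s ≤ p2 b := by
      unfold p2
      exact pow_le_pow_right₀ (by norm_num) hsb
    have h2 := cl_p2 s
    gcongr
  have h1 := inner_near hd nd hnd e ha x₀ hx₀ s hs x hη hxs
  have h2 : ‖Pt - D.base nd‖ ≤ (5 * Cd + Cb) * Real.sqrt e + Cd * NN D.f s nd.k x := by
    have h3 : Pt - D.base nd = (Pt - P.π (D.ub s x₀)) + (P.π (D.ub s x₀) - D.base nd) := by abel
    rw [h3]
    refine (norm_add_le _ _).trans ?_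
    have h4 : 5 * Cd * e ≤ 5 * Cd * Real.sqrt e := mul_le_mul_of_nonneg_left hle (by positivity)
    linarith
  have h5 := cl_lip q _ _ hq hPt (cl_baseN hd nd hnd) _ h2
  have h6 := h s
  have hN0 : 0 ≤ NN D.f s nd.k x := NN_nonneg D.hf _ _ x
  have h7 : P.CG * Cd * NN D.f s nd.k x ≤ C₅ * NN D.f s nd.k x :=
    mul_le_mul_of_nonneg_right ‹P.CG * Cd ≤ C₅› hN0
  have h8 : P.CG * ((5 * Cd + Cb) * Real.sqrt e + Cd * NN D.f s nd.k x) =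
      P.CG * (5 * Cd + Cb) * Real.sqrt e + P.CG * Cd * NN D.f s nd.k x := by ring
  linarith

end H87NR
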