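import Pool.Agent.H87.NR.STEP
import Pool.Agent.H87.NR.CLOSE

/-!
# [H87 NR CHAIN] The chain of blocks (7b)

Notation: `s i = nd.k + i * W`; the ring `mm i` of the block `i` satisfies `s i ≤ mm i < s i + W = s (i+1)`,
so `mm i < mm (i+1)`, and `nd.k < mm i < Ke` (`1 ≤ W`).

Claim (downward induction on `i`, `1 ≤ i ≤ I`):
`Tail (mm i) (Pt i) r₁ ((∑_{mm i ≤ j ≤ Ke} ∑_z U j z) + ∑_{i < i' ≤ I} pay i')`.
Start `i = I`: `tail_last`, `hdist` by `close_child` (`i := s I`, `Pa = Pt I`; for `mm I ≤ j ≤ Ke`: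
`s I ≤ j < s I + 2 W + 4`); `P.CG (13 Cd + Cb) √e ≤ ρ'`.
Step from `i + 1` to `i`: `tail_step` with `a = mm i`, `b = mm (i+1)`, `Pa = Pt i`, `Pb = Pt (i+1)`, `ra = r₁`,
`pay = pay (i+1)` (`tp P x₀ nd.k Ke b = P.chi x₀ b` since `nd.k < b ≤ Ke`); `hdist`: `close_child`
(`s i ≤ j < s i + 2 W`), `hclose`: `close_pts` (`s (i+1) = s i + W`; the sum is at most `ρ' ≤ ρ₀ ≤ 2 ρ₀`),
`hempty`: `empty_pt` with `s = s (i+1) ≤ mm (i+1)`. The sums add up: `Finset.sum_Ico_consecutive`.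
Last step (if `I ≥ 1`): from `i = 1` to the start: `tail_step` with `a = nd.k`, `b = mm 1`, `Pa = base nd`,
`ra = r₁ + ρ`: `hdist`: `close_base` (`j < mm 1 < nd.k + 2 W`): `dd q (base ch) ≤ r₁ + ρ + 16 CG Cd √e`;
`hclose`: `close_base_pt`: `≤ r₁ + ρ + CG (7 Cd + Cb) √e ≤ r₁ + ρ' ≤ r₁ + ρ₀`.
If `I = 0`: `tail_last` with `a = nd.k`, `close_base` (`j ≤ Ke < nd.k + 2 W + 4`).
Finally `Bd_of_tail`.
(`P.CG ≥ 1`, `Cd ≥ 1`, `Cb ≥ 0`, so all constants are at most `P.CG * (16 * Cd + 2 * Cb)`.)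
-/

set_option autoImplicit false

namespace H87NR

open H60NH H60NT MeasureTheory Metric Set Filter Topology
open scoped ENNReal NNReal ContDiff

theorem chain {n m : ℕ} {P : Par n m} {D : Dyn P} {Cd C₅ t₀ : ℝ} (hd : Dist D Cd)
    (h5 : P.CG * (Cd * (3 * 2 ^ n + 4)) ≤ C₅) (ht : t₀ ≤ P.r₁ / 2) (nd : Node n)
    (hnd : nd.OK (L0 P)) (e : ℝ) (he0 : 0 < e) (he1 : e ≤ 1) (ha : Amp D nd e) (x₀ : E n)
    (hx₀ : ‖x₀ - nd.y‖ ≤ 2 / p2 nd.k) (T W Ke I : ℕ) (hT : 20 ≤ T)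
    (hTe : e * T ≤ Real.sqrt e) (hWe : W * Real.sqrt e ≤ 2) (hW : 1 ≤ W) (hKe : nd.k ≤ Ke)
    (hI : ∀ i, 1 ≤ i → i ≤ I → nd.k + i * W + W + 4 ≤ Ke)
    (hI' : Ke < nd.k + (I + 2) * W + 4) (Cb : ℝ) (hCb : 0 ≤ Cb) (ρ ρ' : ℝ) (hρ : 0 ≤ ρ)
    (hρ' : ρ + P.CG * (16 * Cd + 2 * Cb) * Real.sqrt e ≤ ρ') (hρ₀ : ρ' ≤ P.ρ₀)
    (hsm : P.CG * (5 * Cd + Cb) * Real.sqrt e ≤ P.r₁ / 2)
    (mm : ℕ → ℕ) (Pt : ℕ → E m) (pay : ℕ → ℝ)
    (hmm : ∀ i, 1 ≤ i → i ≤ I → nd.k + i * W ≤ mm i ∧ mm i < nd.k + i * W + W)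
    (hPt : ∀ i, 1 ≤ i → i ≤ I → Pt i ∈ P.N ∧
      ‖Pt i - P.π (D.ub (nd.k + i * W) x₀)‖ ≤ Cb * Real.sqrt e)
    (hpay : ∀ i, 1 ≤ i → i ≤ I → 0 ≤ pay i ∧
      ∀ q ∈ P.N, P.r₁ < P.dd q (Pt i) → P.dd q (Pt i) ≤ P.r₁ + 2 * P.ρ₀ →
        ∃ q' ∈ P.N, P.dd q' (Pt i) = P.r₁ ∧
          D.Phi (fun x => nd.η x * P.chi x₀ (mm i) x) q' -
            D.Phi (fun x => nd.η x * P.chi x₀ (mm i) x) q ≤ pay i)
    (U : ℕ → (Fin n → ℤ) → ℝ) (hU0 : ∀ j z, 0 ≤ U j z)
    (hBd : ∀ j ∈ Finset.Ico nd.k (Ke + 1), ∀ z ∈ box n (j + T + n),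
      (∃ x, (ch P nd x₀ T Ke j z).η x ≠ 0) → D.Bd C₅ t₀ (ch P nd x₀ T Ke j z) ρ' (U j z)) :
    D.Bd C₅ t₀ nd ρ ((∑ j ∈ Finset.Ico nd.k (Ke + 1), ∑ z ∈ box n (j + T + n), U j z) +
      ∑ i ∈ Finset.Icc 1 I, pay i) := by
  classical
  have hCG1 : 1 ≤ P.CG := P.hG.one_le
  have hCG0 : 0 ≤ P.CG := by linarith
  have hCd1 : 1 ≤ Cd := hd.one_le
  have hsq : 0 ≤ Real.sqrt e := Real.sqrt_nonneg e
  have hρ₀0 : 0 < P.ρ₀ := P.hG.rho_pos
  have hmono : ∀ a : ℝ, a ≤ 16 * Cd + 2 * Cb →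
      P.CG * a * Real.sqrt e ≤ P.CG * (16 * Cd + 2 * Cb) * Real.sqrt e := fun a ha' =>
    mul_le_mul_of_nonneg_right (mul_le_mul_of_nonneg_left ha' hCG0) hsq
  have h5' : P.CG * Cd ≤ C₅ := by
    refine le_trans (mul_le_mul_of_nonneg_left ?_ hCG0) h5
    have h2 : (1 : ℝ) ≤ 3 * 2 ^ n + 4 := by
      have : (0 : ℝ) ≤ 2 ^ n := by positivity
      linarith
    calc Cd = Cd * 1 := (mul_one _).symm
      _ ≤ Cd * (3 * 2 ^ n + 4) := mul_le_mul_of_nonneg_left h2 (by linarith)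
  obtain ⟨F, hF⟩ : ∃ F : ℕ → ℝ, F = fun j => ∑ z ∈ box n (j + T + n), U j z := ⟨_, rfl⟩
  have hFj : ∀ a b, (∑ j ∈ Finset.Ico a b, ∑ z ∈ box n (j + T + n), U j z) =
      ∑ j ∈ Finset.Ico a b, F j := by
    intro a b
    rw [hF]
  have hmul : ∀ i : ℕ, nd.k + (i + 1) * W = nd.k + i * W + W := fun i => by ring
  have hmk : ∀ i, 1 ≤ i → i ≤ I → nd.k < mm i ∧ mm i + 4 < Ke := by
    intro i h1 h2
    have h3 := hmm i h1 h2
    have h4 := hI i h1 h2
    have h6 : 1 * 1 ≤ i * W := Nat.mul_le_mul h1 hW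
    omega
  have hdistI : ∀ i, 1 ≤ i → i ≤ I → ∀ q ∈ P.N, P.dd q (Pt i) ≤ P.r₁ → ∀ j, mm i ≤ j →
      j ≤ nd.k + i * W + (2 * W + 4) → ∀ z ∈ box n (j + T + n),
      (∃ x, (ch P nd x₀ T Ke j z).η x ≠ 0) →
        P.dd q (D.base (ch P nd x₀ T Ke j z)) ≤ P.r₁ + ρ' := by
    intro i h1 h2 q hq hqd j hj1 hj2 z _ hne
    have h3 := hmm i h1 h2
    have h4 := close_child hd nd hnd e he0 he1 ha x₀ hx₀ T W Ke j (nd.k + i * W) z hT hTe hWe
      (by omega) (by omega) hne (by omega) hj2 Cb (Pt i) (hPt i h1 h2).1 (hPt i h1 h2).2 q hq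
    have h6 := hmono (13 * Cd + Cb) (by linarith)
    linarith
  -- downward induction
  have main : ∀ t, t < I → Tail D C₅ t₀ nd x₀ Ke (mm (I - t)) (Pt (I - t)) P.r₁
      ((∑ j ∈ Finset.Ico (mm (I - t)) (Ke + 1), ∑ z ∈ box n (j + T + n), U j z) +
        ∑ i ∈ Finset.Ioc (I - t) I, pay i) := by
    intro t
    induction t with
    | zero =>
      intro hI0
      rw [Nat.sub_zero]
      have h1 := hmk I (by omega) le_rfl
      have h2 := tail_last hd h5 nd hnd x₀ hx₀ T Ke (mm I) hT h1.1.le hKe (by omega) (Pt I) P.r₁ ρ' U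
        hU0 (by
          intro q hq hqd j hj z hz hne
          rw [Finset.mem_Ico] at hj
          refine hdistI I (by omega) le_rfl q hq hqd j hj.1 ?_ z hz hne
          have h3 : nd.k + (I + 2) * W + 4 = nd.k + I * W + (2 * W + 4) := by ring
          omega)
        (by
          intro j hj z hz hne
          rw [Finset.mem_Ico] at hj
          exact hBd j (Finset.mem_Ico.2 ⟨by omega, hj.2⟩) z hz hne)
      rw [Finset.Ioc_self, Finset.sum_empty, add_zero]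
      exact h2
    | succ t ih =>
      intro htI
      have ih' := ih (by omega)
      obtain ⟨i, hi⟩ : ∃ i, i = I - (t + 1) := ⟨_, rfl⟩
      have hi1 : I - t = i + 1 := by omega
      rw [hi1] at ih'
      rw [← hi]
      have hi2 : 1 ≤ i := by omega
      have hi3 : i + 1 ≤ I := by omega
      have e1 := hmm i hi2 (by omega)
      have e2 := hmm (i + 1) (by omega) hi3
      have e3 := hmk i hi2 (by omega)
      have e4 := hmk (i + 1) (by omega) hi3
      rw [hmul] at e2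
      have htp : (fun x => nd.η x * tp P x₀ nd.k Ke (mm (i + 1)) x) =
          (fun x => nd.η x * P.chi x₀ (mm (i + 1)) x) := by
        funext x
        unfold tp
        rw [if_neg (by omega), if_pos (by omega)]
      have h2 := tail_step hd h5 nd hnd x₀ hx₀ T Ke (mm i) (mm (i + 1)) hT e3.1.le (by omega)
        (Pt i) (Pt (i + 1)) P.r₁ ρ' _ (pay (i + 1)) U hU0
        (by
          intro q hq hqd j hj z hz hne
          rw [Finset.mem_Ico] at hj
          exact hdistI i hi2 (by omega) q hq hqd j hj.1 (by omega) z hz hne)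
        (by
          intro j hj z hz hne
          rw [Finset.mem_Ico] at hj
          exact hBd j (Finset.mem_Ico.2 ⟨by omega, by omega⟩) z hz hne)
        ih'
        (by
          intro q hq hqd
          have h3 := close_pts hd nd hnd e he0 he1 ha x₀ hx₀ W (nd.k + i * W) (nd.k + (i + 1) * W)
            hWe (by omega) (by rw [hmul]; omega) (by rw [hmul]) Cb (Pt i) (Pt (i + 1))
            (hPt i hi2 (by omega)).1 (hPt (i + 1) (by omega) hi3).1 (hPt i hi2 (by omega)).2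
            (hPt (i + 1) (by omega) hi3).2 q hq
          have h6 := hmono (4 * Cd + 2 * Cb) (by linarith)
          linarith)
        (by
          rw [htp]
          exact (hpay (i + 1) (by omega) hi3).2)
        (hpay (i + 1) (by omega) hi3).1
        (by
          intro q hq x hx h
          exact empty_pt hd nd hnd e he0 he1 ha x₀ hx₀ Ke (mm (i + 1)) (nd.k + (i + 1) * W)
            (by omega) (by rw [hmul]; omega) e4.1 h5' ht Cb hsm (Pt (i + 1))
            (hPt (i + 1) (by omega) hi3).1 (hPt (i + 1) (by omega) hi3).2 q hq x hx h)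
      have h3 : (∑ j ∈ Finset.Ico (mm i) (mm (i + 1)), ∑ z ∈ box n (j + T + n), U j z) +
          ((∑ j ∈ Finset.Ico (mm (i + 1)) (Ke + 1), ∑ z ∈ box n (j + T + n), U j z) +
            ∑ i' ∈ Finset.Ioc (i + 1) I, pay i') + pay (i + 1) =
          (∑ j ∈ Finset.Ico (mm i) (Ke + 1), ∑ z ∈ box n (j + T + n), U j z) +
            ∑ i' ∈ Finset.Ioc i I, pay i' := by
        rw [hFj, hFj, hFj, ← Finset.sum_Ico_consecutive F (show mm i ≤ mm (i + 1) by omega)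
          (show mm (i + 1) ≤ Ke + 1 by omega)]
        have h4 : Finset.Ioc i I = insert (i + 1) (Finset.Ioc (i + 1) I) := by
          ext y
          simp only [Finset.mem_Ioc, Finset.mem_insert]
          omega
        rw [h4, Finset.sum_insert (by simp)]
        ring
      rw [h3] at h2
      exact h2
  apply Bd_of_tail
  have hdist0 : ∀ q ∈ P.N, P.dd q (D.base nd) ≤ P.r₁ + ρ → ∀ j, nd.k ≤ j →
      j ≤ nd.k + (2 * W + 4) → ∀ z ∈ box n (j + T + n),
      (∃ x, (ch P nd x₀ T Ke j z).η x ≠ 0) →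
        P.dd q (D.base (ch P nd x₀ T Ke j z)) ≤ P.r₁ + ρ' := by
    intro q hq hqd j hj1 hj2 z _ hne
    have h4 := close_base hd nd hnd e he0 he1 ha x₀ hx₀ T W Ke j z hT hTe hWe hj1 hne hj2 q hq
    have h6 := hmono (16 * Cd) (by linarith)
    linarith
  rcases Nat.eq_zero_or_pos I with hI0 | hI0
  · subst hI0
    have h2 := tail_last hd h5 nd hnd x₀ hx₀ T Ke nd.k hT le_rfl hKe (by omega) (D.base nd)
      (P.r₁ + ρ) ρ' U hU0 (by
        intro q hq hqd j hj z hz hne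
        rw [Finset.mem_Ico] at hj
        refine hdist0 q hq hqd j hj.1 ?_ z hz hne
        have h3 : nd.k + (0 + 2) * W + 4 = nd.k + (2 * W + 4) := by ring
        omega) hBd
    rw [Finset.Icc_eq_empty (by omega), Finset.sum_empty, add_zero]
    exact h2
  · have ih' := main (I - 1) (by omega)
    have hi1 : I - (I - 1) = 1 := by omega
    rw [hi1] at ih'
    have e2 := hmm 1 le_rfl hI0
    have e4 := hmk 1 le_rfl hI0
    rw [one_mul] at e2
    have htp : (fun x => nd.η x * tp P x₀ nd.k Ke (mm 1) x) =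
        (fun x => nd.η x * P.chi x₀ (mm 1) x) := by
      funext x
      unfold tp
      rw [if_neg (by omega), if_pos (by omega)]
    have hPt1 := hPt 1 le_rfl hI0
    rw [one_mul] at hPt1
    have h2 := tail_step hd h5 nd hnd x₀ hx₀ T Ke nd.k (mm 1) hT le_rfl (by omega)
      (D.base nd) (Pt 1) (P.r₁ + ρ) ρ' _ (pay 1) U hU0
      (by
        intro q hq hqd j hj z hz hne
        rw [Finset.mem_Ico] at hj
        exact hdist0 q hq hqd j hj.1 (by omega) z hz hne)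
      (by
        intro j hj z hz hne
        rw [Finset.mem_Ico] at hj
        exact hBd j (Finset.mem_Ico.2 ⟨by omega, by omega⟩) z hz hne)
      ih'
      (by
        intro q hq hqd
        have h3 := close_base_pt hd nd hnd e he0 he1 ha x₀ hx₀ W (nd.k + W) hWe (by omega) le_rfl
          Cb (Pt 1) hPt1.1 hPt1.2 q hq
        have h6 := hmono (7 * Cd + Cb) (by linarith)
        linarith)
      (by
        rw [htp]
        exact (hpay 1 le_rfl hI0).2)
      (hpay 1 le_rfl hI0).1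
      (by
        intro q hq x hx h
        exact empty_pt hd nd hnd e he0 he1 ha x₀ hx₀ Ke (mm 1) (nd.k + W)
          (by omega) (by omega) e4.1 h5' ht Cb hsm (Pt 1) hPt1.1 hPt1.2 q hq x hx h)
    have h3 : (∑ j ∈ Finset.Ico nd.k (mm 1), ∑ z ∈ box n (j + T + n), U j z) +
        ((∑ j ∈ Finset.Ico (mm 1) (Ke + 1), ∑ z ∈ box n (j + T + n), U j z) +
          ∑ i' ∈ Finset.Ioc 1 I, pay i') + pay 1 =
        (∑ j ∈ Finset.Ico nd.k (Ke + 1), ∑ z ∈ box n (j + T + n), U j z) +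
          ∑ i' ∈ Finset.Icc 1 I, pay i' := by
      rw [hFj, hFj, hFj, ← Finset.sum_Ico_consecutive F (show nd.k ≤ mm 1 by omega)
        (show mm 1 ≤ Ke + 1 by omega)]
      have h4 : Finset.Icc 1 I = insert 1 (Finset.Ioc 1 I) := by
        ext y
        simp only [Finset.mem_Ioc, Finset.mem_Icc, Finset.mem_insert]
        omega
      rw [h4, Finset.sum_insert (by simp)]
      ring
    rw [h3] at h2
    exact h2

end H87NR
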