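import Pool.Agent.H87.NR.Def
import Pool.Agent.H60.NT.ChiF

/-!
# [H87 NR CHI] The cutoffs `χ_j`

`P.chi x₀ j x = κf (p2 j * ‖x - x₀‖)`, `κf` smooth, nonincreasing, `1` on `(-∞, 1]`, `0` on `[2, ∞)`
(structure `CutK`: `P.hκ`).

Everything follows from `H60NT.chi_facts` (NT/ChiF, may be sorried). Direct proof. Smooth: near a point `x ≠ x₀` the norm is smooth (`contDiffAt_norm`/`ContDiffAt.norm`), near
`x = x₀` the function is constant `1`. `0 ≤ κf ≤ 1` since `κf` is antitone, `1` to the left of `1` and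
`0` to the right of `2` (compare with `max t 2`, `min t 1`). `χ_{j+1} ≤ χ_j`: antitone and
`p2 (j+1) ≥ p2 j`. Derivative: `χ_j` is Lipschitz with constant `Lκ * p2 j` (`|deriv κf| ≤ Lκ`, mean
value theorem, `|‖x‖ - ‖y‖| ≤ ‖x - y‖`), and the operator norm of the derivative is at most the
Lipschitz constant (`norm_fderiv_le_of_lipschitz`). Where `‖x - x₀‖ < 1 / p2 j` the function is
locally constant; where `2 / p2 j ≤ ‖x - x₀‖` it has a global minimum `0` (`IsLocalMin.fderiv_eq_zero`).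
`tp` is `1`, `χ_j` or `0`; `k ≤ Ke` is not needed.
-/

set_option autoImplicit false

namespace H87NR

open H60NH H60NT MeasureTheory Metric Set Filter Topology
open scoped ENNReal NNReal ContDiff

private theorem chi_p2 (k : ℕ) : 0 < p2 k := by
  unfold p2
  positivity

theorem chi_f {n m : ℕ} (P : Par n m) (x₀ : E n) (j : ℕ) :
    ContDiff ℝ ∞ (P.chi x₀ j) ∧ (∀ x, 0 ≤ P.chi x₀ j x) ∧ (∀ x, P.chi x₀ j x ≤ 1) ∧
    (∀ x, ‖x - x₀‖ ≤ 1 / p2 j → P.chi x₀ j x = 1) ∧
    (∀ x, 2 / p2 j ≤ ‖x - x₀‖ → P.chi x₀ j x = 0) ∧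
    (∀ x, P.chi x₀ (j + 1) x ≤ P.chi x₀ j x) ∧
    (∀ x h, |fderiv ℝ (P.chi x₀ j) x h| ≤ P.Lκ * p2 j * ‖h‖) ∧
    (∀ x, ‖x - x₀‖ < 1 / p2 j → fderiv ℝ (P.chi x₀ j) x = 0) ∧
    (∀ x, 2 / p2 j ≤ ‖x - x₀‖ → fderiv ℝ (P.chi x₀ j) x = 0) := by
  obtain ⟨h1, h2, h3, h4, h5, h6, h7, -⟩ := H60NT.chi_facts P x₀ j
  refine ⟨h1, fun x => (h2 x).1, fun x => (h2 x).2, h3, h4, h5, h6, ?_, ?_⟩
  · intro x hx
    refine h7 x ?_
    rintro ⟨ha, -⟩
    exact absurd hx (not_lt.2 ha)
  · intro x hx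
    have hmin : IsLocalMin (P.chi x₀ j) x := by
      refine Filter.Eventually.of_forall fun y => ?_
      rw [h4 x hx]
      exact (h2 y).1
    exact hmin.fderiv_eq_zero

theorem tp_facts {n m : ℕ} (P : Par n m) (x₀ : E n) (k Ke j : ℕ) :
    ContDiff ℝ ∞ (tp P x₀ k Ke j) ∧ (∀ x, 0 ≤ tp P x₀ k Ke j x) ∧ (∀ x, tp P x₀ k Ke j x ≤ 1) ∧
    (∀ x, tp P x₀ k Ke (j + 1) x ≤ tp P x₀ k Ke j x) ∧
    (∀ x h, |fderiv ℝ (tp P x₀ k Ke j) x h| ≤ P.Lκ * p2 j * ‖h‖) ∧
    (∀ x, k < j → tp P x₀ k Ke j x ≠ 0 → ‖x - x₀‖ < 2 / p2 j) ∧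
    (∀ x, j ≤ Ke → ‖x - x₀‖ ≤ 1 / p2 j → tp P x₀ k Ke j x = 1) := by
  obtain ⟨h1, h2, h3, h4, h5, h6, h7, -, -⟩ := chi_f P x₀ j
  have hL : 0 ≤ P.Lκ := zero_le_one.trans P.hκ.one_le
  have hb : ∀ h : E n, 0 ≤ P.Lκ * p2 j * ‖h‖ := fun h =>
    mul_nonneg (mul_nonneg hL (chi_p2 j).le) (norm_nonneg _)
  by_cases hjk : j ≤ k
  · have e : tp P x₀ k Ke j = fun _ => (1 : ℝ) := by
      funext x
      simp only [tp, if_pos hjk]
    refine ⟨?_, ?_, ?_, ?_, ?_, ?_, ?_⟩
    · rw [e]
      exact contDiff_const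
    · intro x
      rw [e]
      exact zero_le_one
    · intro x
      rw [e]
    · intro x
      rw [e]
      simp only [tp]
      split_ifs
      · exact le_rfl
      · exact (chi_f P x₀ (j + 1)).2.2.1 x
      · exact zero_le_one
    · intro x h
      rw [e]
      simp only [fderiv_fun_const, Pi.zero_apply, ContinuousLinearMap.zero_apply, abs_zero]
      exact hb h
    · intro x hk
      exact absurd hk (not_lt.2 hjk)
    · intro x _ _
      rw [e]
  · by_cases hjK : j ≤ Ke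
    · have e : tp P x₀ k Ke j = P.chi x₀ j := by
        funext x
        simp only [tp, if_neg hjk, if_pos hjK]
      refine ⟨?_, ?_, ?_, ?_, ?_, ?_, ?_⟩
      · rw [e]
        exact h1
      · intro x
        rw [e]
        exact h2 x
      · intro x
        rw [e]
        exact h3 x
      · intro x
        rw [e]
        have hj1 : ¬ (j + 1 ≤ k) := by omega
        simp only [tp, if_neg hj1]
        split_ifs
        · exact h6 x
        · exact h2 x
      · intro x h
        rw [e]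
        exact h7 x h
      · intro x _ hx
        rw [e] at hx
        by_contra hc
        exact hx (h5 x (not_lt.1 hc))
      · intro x _ hx
        rw [e]
        exact h4 x hx
    · have e : tp P x₀ k Ke j = fun _ => (0 : ℝ) := by
        funext x
        simp only [tp, if_neg hjk, if_neg hjK]
      refine ⟨?_, ?_, ?_, ?_, ?_, ?_, ?_⟩
      · rw [e]
        exact contDiff_const
      · intro x
        rw [e]
      · intro x
        rw [e]
        exact zero_le_one
      · intro x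
        rw [e]
        have hj1 : ¬ (j + 1 ≤ k) := by omega
        have hj2 : ¬ (j + 1 ≤ Ke) := by omega
        simp only [tp, if_neg hj1, if_neg hj2, le_refl]
      · intro x h
        rw [e]
        simp only [fderiv_fun_const, Pi.zero_apply, ContinuousLinearMap.zero_apply, abs_zero]
        exact hb h
      · intro x _ hx
        rw [e] at hx
        exact absurd rfl hx
      · intro x hj _
        exact absurd hj hjK

end H87NR
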