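import Pool.Agent.H87.NR.Def
import Pool.Agent.H60.NT.Lat

/-!
# [H87 NR PSI] The lattice partition of unity

`P.psi s z x = ∏ i, βf (p2 s * x i - z i)`, `βf` smooth with values in `[0, 1]`, `0` for `|t| ≥ 2`,
`|deriv βf| ≤ Lβ`, `∑_z βf (t - z) = 1` (structure `Hat`: `P.hβ`), `3 ≤ n` (`P.hn`).

Everything follows from `H60NT.psi_facts`, `H60NT.psi_sum` (NT/Lat, may be sorried). Direct proof. Smooth: finite product of smooth functions. Derivative: product rule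
(`HasFDerivAt.finset_prod` or `fderiv_finset_prod`), each of the `n` terms is at most
`Lβ * p2 s * |h i| ≤ Lβ * p2 s * ‖h‖`. Support: if `psi (s + n) z x ≠ 0` then for all `i`
`|p2 (s+n) * x i - z i| < 2`, so `|x i - z i / p2 (s+n)| < 2 / p2 (s+n)` and
`‖x - zc‖ ≤ 2 √n / p2 (s + n) < 1 / p2 s` because `2 √n < 2^n` for `n ≥ 3`. Sum: by
`Finset.prod_univ_sum` (with `Fintype.piFinset`) the sum over the box is
`∏ i, ∑ z ∈ Icc (-(4 * 2^s + 2)) (4 * 2^s + 2), βf (p2 s * x i - z) = 1` by `P.hβ.sum`, as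
`|p2 s * x i| ≤ 4 * 2^s`.
-/

set_option autoImplicit false

namespace H87NR

open H60NH H60NT MeasureTheory Metric Set Filter Topology
open scoped ENNReal NNReal ContDiff

theorem psi_f {n m : ℕ} (P : Par n m) (s : ℕ) (z : Fin n → ℤ) :
    ContDiff ℝ ∞ (P.psi s z) ∧ (∀ x, 0 ≤ P.psi s z x) ∧ (∀ x, P.psi s z x ≤ 1) ∧
    (∀ x h, |fderiv ℝ (P.psi s z) x h| ≤ n * P.Lβ * p2 s * ‖h‖) := by
  obtain ⟨h1, h2, -, -, h5⟩ := H60NT.psi_facts P s z
  exact ⟨h1, fun x => (h2 x).1, fun x => (h2 x).2, h5⟩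

theorem psi_supp {n m : ℕ} (P : Par n m) (s : ℕ) (z : Fin n → ℤ) (x : E n)
    (h : P.psi (s + n) z x ≠ 0) : x ∈ ball (zc (s + n) z) (1 / p2 s) := by
  have h3 := (H60NT.psi_facts P (s + n) z).2.2.1 x h
  rw [mem_ball, dist_eq_norm]
  refine h3.trans_eq ?_
  unfold p2
  rw [pow_add]
  field_simp

theorem psi_one {n m : ℕ} (P : Par n m) (s : ℕ) (x : E n) (hx : ‖x‖ < 4) :
    ∑ z ∈ box n s, P.psi s z x = 1 :=
  (H60NT.psi_sum P s x (by simpa using hx)).1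

end H87NR
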