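import Pool.Agent.H87.NR.CHI
import Pool.Agent.H87.NR.PSI

/-!
# [H87 NR CHOK] The children are nodes

Proof. Weight `η = nd.η * R * ψ`, `R = tp j - tp (j+1) ∈ [0, 1]` (`tp_facts`), `ψ = P.psi (j+T+n) z ∈
[0, 1]` (`psi_f`), so smooth, `0 ≤ η ≤ 1`; `η x ≠ 0` implies `nd.η x ≠ 0` (so `x ∈ ball 0 1`,
`supp1`) and `ψ x ≠ 0` (`psi_supp` with `s = j + T`; note `j + T + n = (j + T) + n`). Derivative:
`|Dη(x) h| ≤ (L0 * p2 nd.k + (Lκ * p2 j + Lκ * p2 (j+1)) + n * Lβ * p2 (j+T+n)) ‖h‖` (product rule,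
all factors at most one), `p2 nd.k ≤ p2 j`, `p2 (j+1) = 2 p2 j`, `p2 (j+T+n) = 2^n p2 (j+T)`,
`p2 (j+T) ≥ 2^20 p2 j`; so it is at most `p2 (j+T) ‖h‖ (L0/4 + Lκ/4 + n Lβ 2^n) ≤ L0 * p2 (j+T) ‖h‖`.
Centre: the weight is nonzero at some `x`, `‖x‖ < 1`, `‖x - zc‖ < 1 / p2 (j+T) ≤ 1`.
The second statement: `nd.k < j < Ke` gives `tp j = chi j`, `tp (j+1) = chi (j+1)`.
The third: `root` with `P.chi 0 1`, `Lκ * p2 1 = 2 Lκ ≤ L0`.
-/

set_option autoImplicit false

namespace H87NR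

open H60NH H60NT MeasureTheory Metric Set Filter Topology
open scoped ENNReal NNReal ContDiff

private theorem chok_p2 (k : ℕ) : 0 < p2 k := by
  unfold p2
  positivity

private theorem chok_mono {i j : ℕ} (h : i ≤ j) : p2 i ≤ p2 j := by
  unfold p2
  exact pow_le_pow_right₀ (by norm_num) h

theorem L0_ge {n m : ℕ} (P : Par n m) : 1 ≤ L0 P := by
  unfold L0
  have h1 := P.hκ.one_le
  have h2 := P.hβ.one_le
  have h3 : 0 ≤ (n : ℝ) * P.Lβ * 2 ^ n := by positivity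
  linarith

theorem ch_ok {n m : ℕ} (P : Par n m) (nd : Node n) (hnd : nd.OK (L0 P)) (x₀ : E n) (T Ke j : ℕ)
    (z : Fin n → ℤ) (hT : 20 ≤ T) (hj : nd.k ≤ j) (hne : ∃ x, (ch P nd x₀ T Ke j z).η x ≠ 0) :
    (ch P nd x₀ T Ke j z).OK (L0 P) := by
  obtain ⟨t1, t2, t3, t4, t5, -, -⟩ := tp_facts P x₀ nd.k Ke j
  obtain ⟨u1, u2, u3, u4, u5, -, -⟩ := tp_facts P x₀ nd.k Ke (j + 1)
  obtain ⟨s1, s2, s3, s4⟩ := psi_f P (j + T + n) z
  have hη : ∀ x, (ch P nd x₀ T Ke j z).η x = nd.η x * (tp P x₀ nd.k Ke j x -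
      tp P x₀ nd.k Ke (j + 1) x) * P.psi (j + T + n) z x := fun x => rfl
  have hfun : (ch P nd x₀ T Ke j z).η = fun x => nd.η x * (tp P x₀ nd.k Ke j x -
      tp P x₀ nd.k Ke (j + 1) x) * P.psi (j + T + n) z x := rfl
  have hsupp : ∀ x, (ch P nd x₀ T Ke j z).η x ≠ 0 →
      x ∈ ball (zc (j + T + n) z) (1 / p2 (j + T)) := by
    intro x hx
    apply psi_supp P (j + T) z x
    intro h
    apply hx
    rw [hη, h, mul_zero]
  have hsupp1 : ∀ x, (ch P nd x₀ T Ke j z).η x ≠ 0 → x ∈ ball (0 : E n) 1 := by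
    intro x hx
    apply hnd.supp1
    intro h
    apply hx
    rw [hη, h, zero_mul, zero_mul]
  have hR0 : ∀ x, 0 ≤ tp P x₀ nd.k Ke j x - tp P x₀ nd.k Ke (j + 1) x := by
    intro x
    have := t4 x
    linarith
  have hR1 : ∀ x, tp P x₀ nd.k Ke j x - tp P x₀ nd.k Ke (j + 1) x ≤ 1 := by
    intro x
    have := t3 x
    have := u2 x
    linarith
  refine ⟨?_, ?_, ?_, hsupp, hsupp1, ?_, ?_⟩
  · rw [hfun]
    exact (hnd.smooth.mul (t1.sub u1)).mul s1
  · intro x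
    rw [hη]
    exact mul_nonneg (mul_nonneg (hnd.nonneg x) (hR0 x)) (s2 x)
  · intro x
    rw [hη]
    exact mul_le_one₀ (mul_le_one₀ (hnd.le_one x) (hR0 x) (hR1 x)) (s2 x) (s3 x)
  · intro x h
    have da : HasFDerivAt nd.η (fderiv ℝ nd.η x) x :=
      ((hnd.smooth.differentiable (by norm_num)).differentiableAt).hasFDerivAt
    have db : HasFDerivAt (fun x => tp P x₀ nd.k Ke j x - tp P x₀ nd.k Ke (j + 1) x)
        (fderiv ℝ (tp P x₀ nd.k Ke j) x - fderiv ℝ (tp P x₀ nd.k Ke (j + 1)) x) x :=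
      (((t1.differentiable (by norm_num)).differentiableAt).hasFDerivAt).sub
        (((u1.differentiable (by norm_num)).differentiableAt).hasFDerivAt)
    have dc : HasFDerivAt (P.psi (j + T + n) z) (fderiv ℝ (P.psi (j + T + n) z) x) x :=
      ((s1.differentiable (by norm_num)).differentiableAt).hasFDerivAt
    have hd := ((da.mul db).mul dc).fderiv
    have hd' : fderiv ℝ (ch P nd x₀ T Ke j z).η x = _ := hd
    rw [hd']
    simp only [add_apply, smul_apply, sub_apply, smul_eq_mul, Pi.mul_apply]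
    set a := nd.η x
    set b := tp P x₀ nd.k Ke j x - tp P x₀ nd.k Ke (j + 1) x
    set c := P.psi (j + T + n) z x
    have ha0 : 0 ≤ a := hnd.nonneg x
    have ha1 : a ≤ 1 := hnd.le_one x
    have hb0 : 0 ≤ b := hR0 x
    have hb1 : b ≤ 1 := hR1 x
    have hc0 : 0 ≤ c := s2 x
    have hc1 : c ≤ 1 := s3 x
    have q1 := hnd.der x h
    have q2 := t5 x h
    have q3 := u5 x h
    have q4 := s4 x h
    set A := fderiv ℝ nd.η x h
    set B₁ := fderiv ℝ (tp P x₀ nd.k Ke j) x h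
    set B₂ := fderiv ℝ (tp P x₀ nd.k Ke (j + 1)) x h
    set Cc := fderiv ℝ (P.psi (j + T + n) z) x h
    have hab : |a * b * Cc| ≤ |Cc| := by
      rw [abs_mul, abs_of_nonneg (mul_nonneg ha0 hb0)]
      have := mul_le_one₀ ha1 hb0 hb1
      nlinarith [abs_nonneg Cc]
    have hca : |c * (a * (B₁ - B₂) + b * A)| ≤ (|B₁| + |B₂|) + |A| := by
      rw [abs_mul, abs_of_nonneg hc0]
      have h1 : |a * (B₁ - B₂) + b * A| ≤ (|B₁| + |B₂|) + |A| := by
        refine (abs_add_le _ _).trans (add_le_add ?_ ?_)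
        · rw [abs_mul, abs_of_nonneg ha0]
          have := abs_sub B₁ B₂
          nlinarith [abs_nonneg (B₁ - B₂)]
        · rw [abs_mul, abs_of_nonneg hb0]
          nlinarith [abs_nonneg A]
      calc c * |a * (B₁ - B₂) + b * A| ≤ 1 * |a * (B₁ - B₂) + b * A| :=
            mul_le_mul_of_nonneg_right hc1 (abs_nonneg _)
        _ ≤ _ := by rw [one_mul]; exact h1
    refine (abs_add_le _ _).trans ((add_le_add hab hca).trans ?_)
    have hk : (ch P nd x₀ T Ke j z).k = j + T := rfl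
    rw [hk]
    have hL := L0_ge P
    have hLκ := P.hκ.one_le
    have hLβ := P.hβ.one_le
    have p1 := chok_p2 j
    have p3 : p2 nd.k ≤ p2 j := chok_mono hj
    have p4 : p2 (j + 1) = 2 * p2 j := by unfold p2; ring
    have p5 : p2 (j + T + n) = 2 ^ n * p2 (j + T) := by unfold p2; ring
    have p6 : 16 * p2 j ≤ p2 (j + T) := by
      have e : 16 * p2 j = p2 (j + 4) := by unfold p2; ring
      rw [e]
      exact chok_mono (by omega)
    rw [p4] at q3
    rw [p5] at q4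
    have hh := norm_nonneg h
    have hN : 0 ≤ (n : ℝ) * P.Lβ * 2 ^ n := by positivity
    have hLdef : L0 P = 2 * (P.Lκ + n * P.Lβ * 2 ^ n) := rfl
    have r1 : L0 P * p2 nd.k * ‖h‖ ≤ L0 P * (p2 (j + T) / 16) * ‖h‖ := by
      apply mul_le_mul_of_nonneg_right _ hh
      apply mul_le_mul_of_nonneg_left _ (by linarith)
      linarith
    have r2 : P.Lκ * p2 j * ‖h‖ ≤ P.Lκ * (p2 (j + T) / 16) * ‖h‖ := by
      apply mul_le_mul_of_nonneg_right _ hh
      apply mul_le_mul_of_nonneg_left _ (by linarith)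
      linarith
    have r3 : 0 ≤ p2 (j + T) * ‖h‖ := mul_nonneg (chok_p2 _).le hh
    rw [hLdef] at r1 q1 ⊢
    have r4 : 0 ≤ P.Lκ * (p2 (j + T) * ‖h‖) := mul_nonneg (by linarith) r3
    have r5 : 0 ≤ (n : ℝ) * P.Lβ * 2 ^ n * (p2 (j + T) * ‖h‖) := mul_nonneg hN r3
    nlinarith
  · obtain ⟨x, hx⟩ := hne
    have h1 := hsupp x hx
    have h2 := hsupp1 x hx
    rw [mem_ball, dist_eq_norm] at h1
    rw [mem_ball_zero_iff] at h2
    have h3 : 1 / p2 (j + T) ≤ 1 := by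
      rw [div_le_one (chok_p2 _)]
      unfold p2
      exact one_le_pow₀ (by norm_num)
    have h4 : (ch P nd x₀ T Ke j z).y = zc (j + T + n) z := rfl
    rw [h4]
    have h5 : ‖zc (j + T + n) z‖ ≤ ‖x - zc (j + T + n) z‖ + ‖x‖ := by
      have := norm_sub_norm_le (zc (j + T + n) z) x
      rw [norm_sub_rev] at this
      linarith
    linarith

theorem ch_eq_chd {n m : ℕ} (P : Par n m) (nd : Node n) (x₀ : E n) (T Ke j : ℕ)
    (z : Fin n → ℤ) (hj : nd.k < j) (hjK : j < Ke) :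
    ch P nd x₀ T Ke j z = P.chd nd x₀ T j z := by
  unfold ch Par.chd
  congr 1
  funext x
  unfold Par.Th tp
  rw [if_neg (by omega), if_pos (by omega), if_neg (by omega), if_pos (by omega)]

theorem root_ok {n m : ℕ} (P : Par n m) : (root P).OK (L0 P) := by
  obtain ⟨h1, h2, h3, h4, h5, h6, h7, h8, h9⟩ := chi_f P 0 1
  have e1 : p2 1 = 2 := by unfold p2; norm_num
  have e0 : p2 0 = 1 := by unfold p2; norm_num
  have hs : ∀ x, (root P).η x ≠ 0 → x ∈ ball (0 : E n) 1 := by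
    intro x hx
    rw [mem_ball_zero_iff]
    by_contra hc
    push Not at hc
    apply hx
    apply h5 x
    rw [e1, sub_zero]
    linarith
  refine ⟨h1, h2, h3, ?_, hs, ?_, ?_⟩
  · intro x hx
    have hk : (root P).k = 0 := rfl
    have hy : (root P).y = 0 := rfl
    rw [hk, hy, e0, div_one]
    exact hs x hx
  · intro x h
    have hk : (root P).k = 0 := rfl
    rw [hk, e0]
    refine (h7 x h).trans ?_
    rw [e1]
    apply mul_le_mul_of_nonneg_right _ (norm_nonneg _)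
    unfold L0
    have h2 := P.hβ.one_le
    have h3 : 0 ≤ (n : ℝ) * P.Lβ * 2 ^ n := by positivity
    linarith
  · have hy : (root P).y = 0 := rfl
    rw [hy, norm_zero]
    norm_num

end H87NR
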