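import Pool.Agent.H87.NR.Def
import Pool.Agent.H60.NH.MSol
import Pool.Agent.H60.NH.MBd
import Pool.Agent.H60.NH.MDist
import Pool.Agent.H60.NH.MConv
import Pool.Agent.H60.NH.NCont
import Pool.Agent.H60.NH.MSmooth

/-!
# [H87 NR DISA] Distances between the mollified maps

Proof. `D.ub k x = ubar P.φ D.u k x`. `sol_int` (MSol) gives `Integrable D.u`, `Integrable (gn ∘ G)`.
`lim` is `ubar_ae` (MConv). `stp`: `ubar_diff_bd` (MBd): `≤ n M p2 k^(n-1) ∫_{ball x (1/p2 k)} f ≤
n M AA f k x` (here `‖x‖ + 1 / p2 k ≤ 9 < 64`). `tub`: `ubar_dist` (MDist, `x ∈ ball 0 32`),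
`aa ≤ AA` (`AA_nonneg`, NCont). `mov`: `ubar` is smooth (`ubar_smooth`, MSmooth); on the segment from `x` to
`z` (`‖z - x‖ ≤ 6 / p2 k`) `ubar_der_bd` gives
`‖fderiv (ubar φ u k) w (ev i)‖ ≤ M p2 k^n ∫_{ball w (1 / p2 k)} f ≤ M p2 k * AA f k x`
since `ball w (1 / p2 k) ⊆ ball x (8 / p2 k)`; the derivative in the direction `h` is at most
`√n or n` times this times `‖h‖` (`h = ∑ h i • ev i`), mean value inequality
(`Convex.norm_image_sub_le_of_norm_fderiv_le`): `≤ n M p2 k AA * 6 / p2 k = 6 n M AA`.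
`amb`: `AA f k x ≤ 8^(n-1) ε` (`AA_nonneg`), `P.δ > 0` (`P.hT.pos`): `ε₂ = δ / (2 Cd 8^(n-1))`.
`Cd = 6 n M + 3 n M + 1` or so.
-/

set_option autoImplicit false

namespace H87NR

open H60NH H60NT MeasureTheory Metric Set Filter Topology
open scoped ENNReal NNReal ContDiff

private theorem da_p2 (k : ℕ) : 0 < p2 k := by
  unfold p2
  positivity

private theorem da_one (k : ℕ) : 1 / p2 k ≤ 1 := by
  rw [div_le_one (da_p2 k)]
  unfold p2
  exact one_le_pow₀ (by norm_num)

private theorem da_op {n m : ℕ} (L : E n →L[ℝ] E m) (B : ℝ) (hB : 0 ≤ B)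
    (h : ∀ i, ‖L (ev i)‖ ≤ B) : ‖L‖ ≤ n * B := by
  refine ContinuousLinearMap.opNorm_le_bound _ (by positivity) fun v => ?_
  have h1 : v = ∑ i, v i • (ev i : E n) := by
    ext j
    simp [ev, Finset.sum_apply, Pi.single_apply]
  have h2 : L v = ∑ i, v i • L (ev i) := by
    conv_lhs => rw [h1]
    rw [map_sum]
    simp
  rw [h2]
  refine (norm_sum_le _ _).trans ?_
  calc ∑ i, ‖v i • L (ev i)‖ ≤ ∑ _i : Fin n, B * ‖v‖ := by
        refine Finset.sum_le_sum fun i _ => ?_
        rw [norm_smul, mul_comm]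
        exact mul_le_mul (h i) (PiLp.norm_apply_le v i) (norm_nonneg _) hB
    _ = n * B * ‖v‖ := by
        rw [Finset.sum_const, Finset.card_univ, Fintype.card_fin, nsmul_eq_mul]
        ring

theorem dist_ex {n m : ℕ} (P : Par n m) : ∃ ε₂ Cd : ℝ, 0 < ε₂ ∧ 1 ≤ Cd ∧
    ∀ D : Dyn P, D.ε ≤ ε₂ → Dist D Cd := by
  have hn := P.hn
  have hn1 : 1 ≤ n := by omega
  have hδ : 0 < P.δ := P.hT.pos
  have hM1 : 1 ≤ P.M := P.hφ.one_le
  have hM0 : 0 ≤ P.M := by linarith
  have hnr : (1 : ℝ) ≤ n := by exact_mod_cast hn1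
  obtain ⟨Cd, hCd⟩ : ∃ Cd : ℝ, Cd = 6 * n * P.M := ⟨_, rfl⟩
  have hCd1 : 1 ≤ Cd := by
    rw [hCd]
    have : 1 ≤ (n : ℝ) * P.M := one_le_mul_of_one_le_of_one_le hnr hM1
    linarith
  have hCd0 : 0 < Cd := by linarith
  refine ⟨P.δ / (2 * Cd * 8 ^ (n - 1)), Cd, by positivity, hCd1, ?_⟩
  intro D hD
  have hS := D.hS
  obtain ⟨hu, -, -, -, hf, -⟩ := sol_int hn1 hS
  have hAA := fun k x => AA_nonneg D.hf k x
  refine ⟨hCd1, ?_, ?_, ?_, ?_, ?_⟩
  · intro k x
    have h1 : AA D.f k x ≤ 8 ^ (n - 1) * D.ε := (hAA k x).2.2.2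
    calc Cd * AA D.f k x ≤ Cd * (8 ^ (n - 1) * (P.δ / (2 * Cd * 8 ^ (n - 1)))) := by
          refine mul_le_mul_of_nonneg_left (h1.trans ?_) hCd0.le
          exact mul_le_mul_of_nonneg_left hD (by positivity)
      _ = P.δ / 2 := by field_simp
      _ < P.δ := half_lt_self hδ
  · intro k x z hx hz
    have hp := da_p2 k
    have h1k := da_one k
    have hsm : ContDiff ℝ ∞ (ubar P.φ D.u k) := ubar_smooth P.hφ D.u hu k
    have hbd : ∀ w ∈ closedBall x (6 / p2 k), ‖fderiv ℝ (ubar P.φ D.u k) w‖ ≤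
        n * (P.M * p2 k * AA D.f k x) := by
      intro w hw
      rw [mem_closedBall, dist_eq_norm] at hw
      have hw' : ‖w‖ ≤ 14 := by
        have h2 : w = (w - x) + x := by abel
        rw [h2]
        refine (norm_add_le _ _).trans ?_
        have h3 : 6 / p2 k ≤ 6 := by
          have : 6 / p2 k = 6 * (1 / p2 k) := by ring
          rw [this]
          linarith
        linarith
      refine da_op _ _ (by have := (hAA k x).1; positivity) fun i => ?_
      refine (ubar_der_bd P.hφ hS.wg hu hS.out_u hS.out_G hf k w (by linarith) i).trans ?_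
      have h4 : ∫ y in ball w (1 / p2 k), gn (D.G y) ≤ ∫ y in ball x (8 / p2 k), gn (D.G y) := by
        refine setIntegral_mono_set hf.integrableOn (ae_of_all _ D.hf.nonneg) ?_
        refine Eventually.of_forall (ball_subset_ball' ?_)
        rw [dist_eq_norm]
        have h5 : 1 / p2 k + 6 / p2 k ≤ 8 / p2 k := by
          rw [← add_div]
          gcongr
          norm_num
        linarith
      calc P.M * (p2 k ^ n * ∫ y in ball w (1 / p2 k), gn (D.G y))
          ≤ P.M * (p2 k ^ n * ∫ y in ball x (8 / p2 k), gn (D.G y)) := by gcongr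
        _ = P.M * p2 k * AA D.f k x := by
            unfold AA Dyn.f
            obtain ⟨d, rfl⟩ : ∃ d, n = d + 1 := ⟨n - 1, by omega⟩
            rw [Nat.add_sub_cancel, pow_succ]
            ring
    have h6 := (convex_closedBall x (6 / p2 k)).norm_image_sub_le_of_norm_fderiv_le
      (𝕜 := ℝ) (f := ubar P.φ D.u k) (fun w _ => (hsm.differentiable (by simp)) w)
      hbd (mem_closedBall_self (by positivity)) (y := z)
      (by rw [mem_closedBall, dist_eq_norm]; exact hz)
    refine h6.trans ?_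
    calc (n : ℝ) * (P.M * p2 k * AA D.f k x) * ‖z - x‖
        ≤ n * (P.M * p2 k * AA D.f k x) * (6 / p2 k) := by
          refine mul_le_mul_of_nonneg_left hz ?_
          have := (hAA k x).1
          positivity
      _ = Cd * AA D.f k x := by
          rw [hCd]
          field_simp
  · intro k x hx
    have hp := da_p2 k
    have h1k := da_one k
    have h1 := ubar_diff_bd hn1 P.hφ hS.wg hu hS.out_u hS.out_G hf k x (by linarith)
    refine h1.trans ?_
    have h4 : ∫ y in ball x (1 / p2 k), gn (D.G y) ≤ ∫ y in ball x (8 / p2 k), gn (D.G y) := by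
      refine setIntegral_mono_set hf.integrableOn (ae_of_all _ D.hf.nonneg) ?_
      refine Eventually.of_forall (ball_subset_ball ?_)
      gcongr
      norm_num
    have h0 := (hAA k x).1
    calc (n : ℝ) * P.M * (p2 k ^ (n - 1) * ∫ y in ball x (1 / p2 k), gn (D.G y))
        ≤ n * P.M * (p2 k ^ (n - 1) * ∫ y in ball x (8 / p2 k), gn (D.G y)) := by gcongr
      _ = n * P.M * AA D.f k x := rfl
      _ ≤ Cd * AA D.f k x := by
          refine mul_le_mul_of_nonneg_right ?_ h0
          rw [hCd]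
          have : 0 ≤ (n : ℝ) * P.M := by positivity
          linarith
  · intro k x hx
    have h1 := ubar_dist hn1 P.hφ hS hu hf k x (by
      rw [mem_ball, dist_zero_right]
      linarith)
    refine h1.trans ?_
    have h0 := (hAA k x).2.1
    have h2 : aa (fun y => gn (D.G y)) k x ≤ AA D.f k x := (hAA k x).2.2.1
    have h3 : 0 ≤ aa (fun y => gn (D.G y)) k x := h0
    calc 3 * n * P.M * aa (fun y => gn (D.G y)) k x ≤ 3 * n * P.M * AA D.f k x :=
          mul_le_mul_of_nonneg_left h2 (by positivity)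
      _ ≤ Cd * AA D.f k x := by
          refine mul_le_mul_of_nonneg_right ?_ (h3.trans h2)
          rw [hCd]
          have : 0 ≤ (n : ℝ) * P.M := by positivity
          linarith
  · exact ubar_ae P.hφ D.u hu

end H87NR
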