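import Pool.Agent.H87.NR.Def
import Pool.Agent.H60.NH.NCont

/-!
# [H87 NR DISB] Consequences of the distance estimates

Everything follows from `hd : Dist D Cd` (and `AA_nonneg`, `NN_mono` from NCont).
* `ub_NN`: telescope `hd.stp` (induction on `K`; `NN f K k x = ∑_{k ≤ j < K} AA f j x`).
* `u_ub`: at the points where `hd.lim` holds let `K → ∞` in `ub_NN`.
* `proj_near`: `infDist (D.ub k x) N ≤ Cd AA < δ < 4 δ`, so `P.hT.mem` and `P.hT.dist_eq` apply.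
* `base_near`: `nd.OK L` gives `‖nd.y‖ ≤ 2`. `‖ub k nd.y - ub k x‖ ≤ Cd AA f k x` (`hd.mov`,
  `‖nd.y - x‖ < 1 / p2 k`), `infDist (ub k nd.y) N ≤ infDist (ub k x) N + ‖ub k nd.y - ub k x‖ ≤ 2 Cd AA f k x`,
  and `‖base - ub k nd.y‖ = infDist (ub k nd.y) N` (`dist_eq`).
* `AA_succ`: `ball x (8 / p2 (k+1)) ⊆ ball x (8 / p2 k)`, `p2 (k+1)^(n-1) = 2^(n-1) p2 k^(n-1)`.
* `base_base`: `‖base c - ub c.k x‖ ≤ 3 Cd AA f c.k x ≤ 3 Cd 2^n AA f (c.k - 1) x ≤ 3 Cd 2^n NN f c.k nd.k x`,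
  `‖ub c.k x - ub nd.k x‖ ≤ Cd NN f c.k nd.k x` (`ub_NN`),
  `‖ub nd.k x - base nd‖ ≤ 3 Cd AA f nd.k x ≤ 3 Cd NN f c.k nd.k x`.
* `u_base`: `‖u x - base nd‖ ≤ Cd c + 3 Cd AA f nd.k x`, `AA f nd.k x = NN f (nd.k+1) nd.k x ≤ c`.
-/

set_option autoImplicit false

namespace H87NR

open H60NH H60NT MeasureTheory Metric Set Filter Topology
open scoped ENNReal NNReal ContDiff

private theorem db_p2 (k : ℕ) : 0 < p2 k := by
  unfold p2
  positivity

private theorem db_one (k : ℕ) : 1 / p2 k ≤ 1 := by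
  rw [div_le_one (db_p2 k)]
  unfold p2
  exact one_le_pow₀ (by norm_num)

theorem ub_NN {n m : ℕ} {P : Par n m} {D : Dyn P} {Cd : ℝ} (hd : Dist D Cd) (K k : ℕ)
    (hk : k ≤ K) (x : E n) (hx : ‖x‖ ≤ 8) :
    ‖D.ub K x - D.ub k x‖ ≤ Cd * NN D.f K k x := by
  induction K, hk using Nat.le_induction with
  | base => simp [NN]
  | succ K hk ih =>
    have h1 : NN D.f (K + 1) k x = NN D.f K k x + AA D.f K x := by
      unfold NN
      rw [Finset.sum_Ico_succ_top hk]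
    have h2 := hd.stp K x hx
    have h3 : D.ub (K + 1) x - D.ub k x = (D.ub (K + 1) x - D.ub K x) + (D.ub K x - D.ub k x) := by
      abel
    rw [h3, h1]
    refine (norm_add_le _ _).trans ?_
    linarith

theorem u_ub {n m : ℕ} {P : Par n m} {D : Dyn P} {Cd : ℝ} (hd : Dist D Cd) :
    ∀ᵐ x : E n, ‖x‖ ≤ 8 → ∀ (k : ℕ) (c : ℝ), (∀ K, NN D.f K k x ≤ c) →
      ‖D.u x - D.ub k x‖ ≤ Cd * c := by
  filter_upwards [hd.lim] with x hlim hx k c hc
  have h1 : Tendsto (fun K => ‖D.ub K x - D.ub k x‖) atTop (𝓝 ‖D.u x - D.ub k x‖) :=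
    (hlim.sub_const _).norm
  refine le_of_tendsto h1 ?_
  filter_upwards [eventually_ge_atTop k] with K hK
  exact (ub_NN hd K k hK x hx).trans
    (mul_le_mul_of_nonneg_left (hc K) (zero_le_one.trans hd.one_le))

theorem proj_near {n m : ℕ} {P : Par n m} {D : Dyn P} {Cd : ℝ} (hd : Dist D Cd) (k : ℕ) (x : E n)
    (hx : ‖x‖ ≤ 8) : P.π (D.ub k x) ∈ P.N ∧ ‖P.π (D.ub k x) - D.ub k x‖ ≤ Cd * AA D.f k x := by
  have h1 := hd.tub k x hx
  have h2 := hd.amb k x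
  have h3 : 0 < P.δ := P.hT.pos
  have h4 : infDist (D.ub k x) P.N < 4 * P.δ := by linarith
  refine ⟨P.hT.mem _ h4, ?_⟩
  rw [norm_sub_rev, P.hT.dist_eq _ h4]
  exact h1

theorem AA_succ {n : ℕ} {f : E n → ℝ} {ε : ℝ} (hf : Mor f ε) (k : ℕ) (x : E n) :
    AA f (k + 1) x ≤ 2 ^ n * AA f k x := by
  have hp := db_p2 k
  unfold AA
  have h1 : p2 (k + 1) = 2 * p2 k := by
    unfold p2
    ring
  have h2 : ∫ y in ball x (8 / p2 (k + 1)), f y ≤ ∫ y in ball x (8 / p2 k), f y := by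
    refine setIntegral_mono_set hf.int.integrableOn (ae_of_all _ hf.nonneg) ?_
    refine Eventually.of_forall (ball_subset_ball ?_)
    rw [h1]
    gcongr
    linarith
  have h3 : 0 ≤ ∫ y in ball x (8 / p2 k), f y := integral_nonneg hf.nonneg
  have h4 : p2 (k + 1) ^ (n - 1) ≤ 2 ^ n * p2 k ^ (n - 1) := by
    rw [h1, mul_pow]
    refine mul_le_mul_of_nonneg_right ?_ (by positivity)
    exact pow_le_pow_right₀ (by norm_num) (by omega)
  calc p2 (k + 1) ^ (n - 1) * ∫ y in ball x (8 / p2 (k + 1)), f y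
      ≤ p2 (k + 1) ^ (n - 1) * ∫ y in ball x (8 / p2 k), f y :=
        mul_le_mul_of_nonneg_left h2 (pow_nonneg (db_p2 _).le _)
    _ ≤ (2 ^ n * p2 k ^ (n - 1)) * ∫ y in ball x (8 / p2 k), f y :=
        mul_le_mul_of_nonneg_right h4 h3
    _ = 2 ^ n * (p2 k ^ (n - 1) * ∫ y in ball x (8 / p2 k), f y) := by ring

theorem base_near {n m : ℕ} {P : Par n m} {D : Dyn P} {Cd L : ℝ} (hd : Dist D Cd) (nd : Node n)
    (hnd : nd.OK L) (x : E n) (hx : x ∈ ball nd.y (1 / p2 nd.k)) :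
    D.base nd ∈ P.N ∧ ‖D.base nd - D.ub nd.k x‖ ≤ 3 * Cd * AA D.f nd.k x := by
  have hp := db_p2 nd.k
  have hy : ‖nd.y‖ ≤ 2 := hnd.cen
  have h1 := db_one nd.k
  rw [mem_ball, dist_eq_norm] at hx
  have hx8 : ‖x‖ ≤ 8 := by
    have h2 : x = (x - nd.y) + nd.y := by abel
    rw [h2]
    refine (norm_add_le _ _).trans ?_
    linarith
  have h3 := proj_near hd nd.k nd.y (by linarith)
  refine ⟨h3.1, ?_⟩
  have h4 : ‖D.ub nd.k nd.y - D.ub nd.k x‖ ≤ Cd * AA D.f nd.k x := by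
    refine hd.mov nd.k x nd.y hx8 ?_
    rw [norm_sub_rev]
    refine hx.le.trans ?_
    gcongr
    norm_num
  have h5 : infDist (D.ub nd.k nd.y) P.N ≤ 2 * (Cd * AA D.f nd.k x) := by
    have h6 := infDist_le_infDist_add_dist (s := P.N) (x := D.ub nd.k nd.y) (y := D.ub nd.k x)
    rw [dist_eq_norm] at h6
    have h7 := hd.tub nd.k x hx8
    linarith
  have h8 : ‖D.base nd - D.ub nd.k nd.y‖ = infDist (D.ub nd.k nd.y) P.N := by
    have h9 : infDist (D.ub nd.k nd.y) P.N < 4 * P.δ := by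
      have h10 := hd.tub nd.k nd.y (by linarith)
      have h11 := hd.amb nd.k nd.y
      have h12 : 0 < P.δ := P.hT.pos
      linarith
    rw [norm_sub_rev]
    exact P.hT.dist_eq _ h9
  have h13 : D.base nd - D.ub nd.k x = (D.base nd - D.ub nd.k nd.y) +
      (D.ub nd.k nd.y - D.ub nd.k x) := by abel
  rw [h13]
  refine (norm_add_le _ _).trans ?_
  rw [h8]
  linarith

private theorem AA_le_NN {n m : ℕ} {P : Par n m} (D : Dyn P) (K k j : ℕ) (hj : k ≤ j)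
    (hjK : j < K) (x : E n) : AA D.f j x ≤ NN D.f K k x := by
  unfold NN
  exact Finset.single_le_sum (f := fun j => AA D.f j x) (fun i _ => (AA_nonneg D.hf i x).1)
    (Finset.mem_Ico.2 ⟨hj, hjK⟩)

theorem base_base {n m : ℕ} {P : Par n m} {D : Dyn P} {Cd L : ℝ} (hd : Dist D Cd) (nd c : Node n)
    (hnd : nd.OK L) (hc : c.OK L) (hk : nd.k < c.k) (x : E n) (hx : x ∈ ball nd.y (1 / p2 nd.k))
    (hx' : x ∈ ball c.y (1 / p2 c.k)) :
    ‖D.base c - D.base nd‖ ≤ Cd * (3 * 2 ^ n + 4) * NN D.f c.k nd.k x := by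
  have hCd : 0 ≤ Cd := zero_le_one.trans hd.one_le
  have h1 := (base_near hd nd hnd x hx).2
  have h2 := (base_near hd c hc x hx').2
  have hx8 : ‖x‖ ≤ 8 := by
    have hy : ‖nd.y‖ ≤ 2 := hnd.cen
    have h1 := db_one nd.k
    rw [mem_ball, dist_eq_norm] at hx
    have h2 : x = (x - nd.y) + nd.y := by abel
    rw [h2]
    refine (norm_add_le _ _).trans ?_
    linarith
  have h3 := ub_NN hd c.k nd.k hk.le x hx8
  have h4 : AA D.f nd.k x ≤ NN D.f c.k nd.k x := AA_le_NN D _ _ _ le_rfl hk x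
  obtain ⟨j, hj⟩ : ∃ j, c.k = j + 1 := ⟨c.k - 1, by omega⟩
  have h5 : AA D.f c.k x ≤ 2 ^ n * NN D.f c.k nd.k x := by
    have h6 := AA_succ D.hf j x
    have h7 : AA D.f j x ≤ NN D.f c.k nd.k x := AA_le_NN D _ _ _ (by omega) (by omega) x
    rw [← hj] at h6
    exact h6.trans (mul_le_mul_of_nonneg_left h7 (by positivity))
  have h8 : D.base c - D.base nd = (D.base c - D.ub c.k x) + (D.ub c.k x - D.ub nd.k x) +
      (D.ub nd.k x - D.base nd) := by abel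
  rw [norm_sub_rev] at h1
  rw [h8]
  refine (norm_add₃_le).trans ?_
  have h9 : 3 * Cd * AA D.f c.k x ≤ 3 * Cd * (2 ^ n * NN D.f c.k nd.k x) :=
    mul_le_mul_of_nonneg_left h5 (by positivity)
  have h10 : 3 * Cd * AA D.f nd.k x ≤ 3 * Cd * NN D.f c.k nd.k x :=
    mul_le_mul_of_nonneg_left h4 (by positivity)
  calc ‖D.base c - D.ub c.k x‖ + ‖D.ub c.k x - D.ub nd.k x‖ + ‖D.ub nd.k x - D.base nd‖
      ≤ 3 * Cd * (2 ^ n * NN D.f c.k nd.k x) + Cd * NN D.f c.k nd.k x +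
        3 * Cd * NN D.f c.k nd.k x := by linarith
    _ = Cd * (3 * 2 ^ n + 4) * NN D.f c.k nd.k x := by ring

theorem u_base {n m : ℕ} {P : Par n m} {D : Dyn P} {Cd L : ℝ} (hd : Dist D Cd) (nd : Node n)
    (hnd : nd.OK L) :
    ∀ᵐ x : E n, x ∈ ball nd.y (1 / p2 nd.k) → ∀ c : ℝ, (∀ K, NN D.f K nd.k x ≤ c) →
      ‖D.u x - D.base nd‖ ≤ 4 * Cd * c := by
  have hCd : 0 ≤ Cd := zero_le_one.trans hd.one_le
  filter_upwards [u_ub hd] with x hu hx c hc
  have hx8 : ‖x‖ ≤ 8 := by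
    have hy : ‖nd.y‖ ≤ 2 := hnd.cen
    have h1 := db_one nd.k
    rw [mem_ball, dist_eq_norm] at hx
    have h2 : x = (x - nd.y) + nd.y := by abel
    rw [h2]
    refine (norm_add_le _ _).trans ?_
    linarith
  have h1 := hu hx8 nd.k c hc
  have h2 := (base_near hd nd hnd x hx).2
  have h3 : AA D.f nd.k x ≤ c := (AA_le_NN D (nd.k + 1) _ _ le_rfl (by omega) x).trans (hc _)
  have h4 : 3 * Cd * AA D.f nd.k x ≤ 3 * Cd * c := mul_le_mul_of_nonneg_left h3 (by positivity)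
  have h5 : D.u x - D.base nd = (D.u x - D.ub nd.k x) - (D.base nd - D.ub nd.k x) := by abel
  rw [h5]
  refine (norm_sub_le _ _).trans ?_
  linarith

end H87NR
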