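import Pool.Agent.H87.NR.LOCC
import Pool.Agent.H87.NR.CHOK
import Pool.Agent.H87.NR.DISB

/-!
# [H87 NR DRIFT] The base points of the children and the path `π(ub i x₀)`

Let `A i = D.ub i x₀`; `x₀ ∈ ball nd.y (8 / p2 nd.k)`, `‖x₀‖ ≤ 4`, all averages are at most `e` (`ha`).
* `path`: for `i, i' ≥ nd.k`: `‖A i - A i'‖ ≤ Cd e |i - i'|` (`ub_NN`, `NN` has `|i-i'|` terms, each at
  most `e`), and `‖π(A i) - A i‖ ≤ Cd e` (`proj_near`): `‖π(A i) - π(A i')‖ ≤ Cd e (|i-i'| + 2)`.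
* `base_path`: `‖base nd - ub k nd.y‖ ≤ Cd e` (`proj_near`), `‖ub k nd.y - ub k x₀‖ ≤ Cd e` (`hd.mov`,
  `x = nd.y`), `‖A k - π(A k)‖ ≤ Cd e`.
* `drift`: take `x'` with nonzero weight (`ch_loc`). `c = zc`, `s = j + T`. `‖base(ch) - ub s c‖ ≤ Cd e`
  (`proj_near` at `c`, `c ∈ ball nd.y (8 / p2 nd.k)`, `‖c‖ ≤ 8`), `‖ub s c - ub s x'‖ ≤ Cd e` (`hd.mov`,
  `‖c - x'‖ < 1 / p2 s`), `‖ub s x' - ub j x'‖ ≤ Cd e T` (`ub_NN`), `‖ub j x' - ub j x₀‖ ≤ Cd e` (`hd.mov`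
  with centre `x₀`, `‖x' - x₀‖ ≤ 3 / p2 j`), `‖ub j x₀ - ub i x₀‖ ≤ Cd e |j - i|`,
  `‖ub i x₀ - π(ub i x₀)‖ ≤ Cd e`.
* `inner_near`: for `x` with `nd.η x ≠ 0`, `‖x - x₀‖ ≤ 2 / p2 i`, `i ≥ nd.k`:
  `‖π(A i) - base nd‖ ≤ ‖π(A i) - A i‖ + ‖A i - ub i x‖ + ‖ub i x - ub k x‖ + ‖ub k x - base nd‖
  ≤ Cd e + Cd e + Cd NN f i k x + 3 Cd e` (`proj_near`, `hd.mov`, `ub_NN`, `base_near`).
`(i : ℝ) - j` below is written with truncated subtractions: `|i - j| = (i - j) + (j - i)`.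
-/

set_option autoImplicit false

namespace H87NR

open H60NH H60NT MeasureTheory Metric Set Filter Topology
open scoped ENNReal NNReal ContDiff

private theorem dr_p2 (k : ℕ) : 0 < p2 k := by
  unfold p2
  positivity

private theorem dr_one (k : ℕ) : 1 / p2 k ≤ 1 := by
  rw [div_le_one (dr_p2 k)]
  unfold p2
  exact one_le_pow₀ (by norm_num)

private theorem dr_add {n : ℕ} (x y : E n) (a b : ℝ) (h : ‖x - y‖ ≤ a) (h' : ‖y‖ ≤ b) :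
    ‖x‖ ≤ a + b := by
  have h2 : x = (x - y) + y := by abel
  rw [h2]
  refine (norm_add_le _ _).trans ?_
  linarith

private theorem dr_NN {n m : ℕ} {P : Par n m} {D : Dyn P} (nd : Node n) (e : ℝ) (ha : Amp D nd e)
    (x : E n) (hx : x ∈ ball nd.y (8 / p2 nd.k)) (i K : ℕ) (hi : nd.k ≤ i) :
    NN D.f K i x ≤ e * ((K - i : ℕ) : ℝ) := by
  unfold NN
  calc ∑ j ∈ Finset.Ico i K, AA D.f j x ≤ ∑ _j ∈ Finset.Ico i K, e := by
        refine Finset.sum_le_sum fun j hj => ?_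
        rw [Finset.mem_Ico] at hj
        exact ha j (by omega) x hx
    _ = e * ((K - i : ℕ) : ℝ) := by
        rw [Finset.sum_const, Nat.card_Ico, nsmul_eq_mul, mul_comm]

private theorem dr_x0 {n m : ℕ} {P : Par n m} (nd : Node n)
    (hnd : nd.OK (L0 P)) (x₀ : E n) (hx₀ : ‖x₀ - nd.y‖ ≤ 2 / p2 nd.k) :
    ‖x₀‖ ≤ 8 ∧ x₀ ∈ ball nd.y (8 / p2 nd.k) := by
  have hp := dr_p2 nd.k
  have h1 := dr_one nd.k
  have h2 : 2 / p2 nd.k = 2 * (1 / p2 nd.k) := by ring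
  refine ⟨?_, ?_⟩
  · have := dr_add x₀ nd.y _ _ hx₀ hnd.cen
    linarith
  · rw [mem_ball, dist_eq_norm]
    refine hx₀.trans_lt ?_
    gcongr
    norm_num

private theorem dr_ub {n m : ℕ} {P : Par n m} {D : Dyn P} {Cd : ℝ} (hd : Dist D Cd) (nd : Node n)
    (hnd : nd.OK (L0 P)) (e : ℝ) (ha : Amp D nd e) (x : E n) (hx8 : ‖x‖ ≤ 8)
    (hx : x ∈ ball nd.y (8 / p2 nd.k)) (i i' : ℕ) (hi : nd.k ≤ i) (hi' : nd.k ≤ i') :
    ‖D.ub i x - D.ub i' x‖ ≤ Cd * e * (((i - i' : ℕ) : ℝ) + ((i' - i : ℕ) : ℝ)) := by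
  have hCd : 0 ≤ Cd := zero_le_one.trans hd.one_le
  rcases le_total i i' with h | h
  · have h1 := ub_NN hd i' i h x hx8
    have h2 := dr_NN nd e ha x hx i i' hi
    have h3 : i - i' = 0 := by omega
    rw [norm_sub_rev, h3, Nat.cast_zero, zero_add, mul_assoc]
    exact h1.trans (mul_le_mul_of_nonneg_left h2 hCd)
  · have h1 := ub_NN hd i i' h x hx8
    have h2 := dr_NN nd e ha x hx i' i hi'
    have h3 : i' - i = 0 := by omega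
    rw [h3, Nat.cast_zero, add_zero, mul_assoc]
    exact h1.trans (mul_le_mul_of_nonneg_left h2 hCd)

theorem path {n m : ℕ} {P : Par n m} {D : Dyn P} {Cd : ℝ} (hd : Dist D Cd) (nd : Node n)
    (hnd : nd.OK (L0 P)) (e : ℝ) (ha : Amp D nd e) (x₀ : E n)
    (hx₀ : ‖x₀ - nd.y‖ ≤ 2 / p2 nd.k) (i i' : ℕ) (hi : nd.k ≤ i) (hi' : nd.k ≤ i') :
    ‖P.π (D.ub i x₀) - P.π (D.ub i' x₀)‖ ≤ Cd * e * (((i - i' : ℕ) : ℝ) + ((i' - i : ℕ) : ℝ) + 2) := by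
  have hCd : 0 ≤ Cd := zero_le_one.trans hd.one_le
  obtain ⟨hx8, hxb⟩ := dr_x0 nd hnd x₀ hx₀
  have h1 := dr_ub hd nd hnd e ha x₀ hx8 hxb i i' hi hi'
  have h2 := (proj_near hd i x₀ hx8).2
  have h3 := (proj_near hd i' x₀ hx8).2
  have h4 : Cd * AA D.f i x₀ ≤ Cd * e := mul_le_mul_of_nonneg_left (ha i hi x₀ hxb) hCd
  have h5 : Cd * AA D.f i' x₀ ≤ Cd * e := mul_le_mul_of_nonneg_left (ha i' hi' x₀ hxb) hCd
  have h6 : P.π (D.ub i x₀) - P.π (D.ub i' x₀) = (P.π (D.ub i x₀) - D.ub i x₀) +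
      (D.ub i x₀ - D.ub i' x₀) + (D.ub i' x₀ - P.π (D.ub i' x₀)) := by abel
  rw [norm_sub_rev] at h3
  rw [h6]
  refine norm_add₃_le.trans ?_
  linarith

theorem base_path {n m : ℕ} {P : Par n m} {D : Dyn P} {Cd : ℝ} (hd : Dist D Cd) (nd : Node n)
    (hnd : nd.OK (L0 P)) (e : ℝ) (ha : Amp D nd e) (x₀ : E n)
    (hx₀ : ‖x₀ - nd.y‖ ≤ 2 / p2 nd.k) :
    ‖D.base nd - P.π (D.ub nd.k x₀)‖ ≤ 3 * Cd * e := by
  have hCd : 0 ≤ Cd := zero_le_one.trans hd.one_le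
  have hp := dr_p2 nd.k
  obtain ⟨hx8, hxb⟩ := dr_x0 nd hnd x₀ hx₀
  have hy := hnd.cen
  have hyb : nd.y ∈ ball nd.y (8 / p2 nd.k) := mem_ball_self (by positivity)
  have h1 : ‖D.base nd - D.ub nd.k nd.y‖ ≤ Cd * AA D.f nd.k nd.y :=
    (proj_near hd nd.k nd.y (by linarith)).2
  have h2 : ‖D.ub nd.k x₀ - D.ub nd.k nd.y‖ ≤ Cd * AA D.f nd.k nd.y := by
    refine hd.mov nd.k nd.y x₀ (by linarith) (hx₀.trans ?_)
    gcongr
    norm_num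
  have h3 := (proj_near hd nd.k x₀ hx8).2
  have h4 : Cd * AA D.f nd.k x₀ ≤ Cd * e := mul_le_mul_of_nonneg_left (ha nd.k le_rfl x₀ hxb) hCd
  have h5 : Cd * AA D.f nd.k nd.y ≤ Cd * e :=
    mul_le_mul_of_nonneg_left (ha nd.k le_rfl nd.y hyb) hCd
  have h6 : D.base nd - P.π (D.ub nd.k x₀) = (D.base nd - D.ub nd.k nd.y) +
      (D.ub nd.k nd.y - D.ub nd.k x₀) + (D.ub nd.k x₀ - P.π (D.ub nd.k x₀)) := by abel
  rw [norm_sub_rev] at h2 h3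
  rw [h6]
  refine norm_add₃_le.trans ?_
  linarith

theorem drift {n m : ℕ} {P : Par n m} {D : Dyn P} {Cd : ℝ} (hd : Dist D Cd) (nd : Node n)
    (hnd : nd.OK (L0 P)) (e : ℝ) (ha : Amp D nd e) (x₀ : E n)
    (hx₀ : ‖x₀ - nd.y‖ ≤ 2 / p2 nd.k) (T Ke j i : ℕ) (z : Fin n → ℤ) (hT : 20 ≤ T)
    (hj : nd.k ≤ j) (hi : nd.k ≤ i) (hne : ∃ x, (ch P nd x₀ T Ke j z).η x ≠ 0) :
    ‖D.base (ch P nd x₀ T Ke j z) - P.π (D.ub i x₀)‖ ≤
      Cd * e * (((i - j : ℕ) : ℝ) + ((j - i : ℕ) : ℝ) + T + 4) := by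
  have hCd : 0 ≤ Cd := zero_le_one.trans hd.one_le
  have hp := dr_p2 nd.k
  have hpT := dr_p2 (j + T)
  have hpj := dr_p2 j
  have h1k := dr_one nd.k
  have h1T := dr_one (j + T)
  obtain ⟨hx8, hxb⟩ := dr_x0 nd hnd x₀ hx₀
  obtain ⟨x', hx'⟩ := hne
  obtain ⟨ha1, ha2, ha3, ha4, -⟩ := ch_loc P nd hnd x₀ hx₀ T Ke j z hj x' hx'
  obtain ⟨c, hc⟩ : ∃ c : E n, c = zc (j + T + n) z := ⟨_, rfl⟩
  rw [← hc] at ha2
  have hbase : D.base (ch P nd x₀ T Ke j z) = P.π (D.ub (j + T) c) := by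
    rw [hc]
    rfl
  have hpk : p2 nd.k ≤ p2 (j + T) := by
    unfold p2
    exact pow_le_pow_right₀ (by norm_num) (by omega)
  have hTk : 1 / p2 (j + T) ≤ 1 / p2 nd.k := one_div_le_one_div_of_le hp hpk
  rw [mem_ball, dist_eq_norm] at ha1 ha2
  rw [mem_ball, dist_zero_right] at ha3
  have hx'8 : ‖x'‖ ≤ 8 := by linarith
  have hx'b : x' ∈ ball nd.y (8 / p2 nd.k) := by
    rw [mem_ball, dist_eq_norm]
    refine ha1.trans_le ?_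
    gcongr
    norm_num
  have hcx : ‖c - x'‖ ≤ 1 / p2 (j + T) := by
    rw [norm_sub_rev]
    exact ha2.le
  have hc8 : ‖c‖ ≤ 8 := by
    have := dr_add c x' _ _ hcx ha3.le
    linarith
  have hcb : c ∈ ball nd.y (8 / p2 nd.k) := by
    rw [mem_ball, dist_eq_norm]
    have h2 : c - nd.y = (c - x') + (x' - nd.y) := by abel
    rw [h2]
    refine (norm_add_le _ _).trans_lt ?_
    have h3 : 8 / p2 nd.k = 8 * (1 / p2 nd.k) := by ring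
    have h4 : 0 < 1 / p2 nd.k := by positivity
    rw [h3]
    linarith
  have h1 := (proj_near hd (j + T) c hc8).2
  have h1' : Cd * AA D.f (j + T) c ≤ Cd * e :=
    mul_le_mul_of_nonneg_left (ha (j + T) (by omega) c hcb) hCd
  have h2 : ‖D.ub (j + T) c - D.ub (j + T) x'‖ ≤ Cd * AA D.f (j + T) x' := by
    refine hd.mov (j + T) x' c hx'8 (hcx.trans ?_)
    gcongr
    norm_num
  have h2' : Cd * AA D.f (j + T) x' ≤ Cd * e :=
    mul_le_mul_of_nonneg_left (ha (j + T) (by omega) x' hx'b) hCd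
  have h3 := dr_ub hd nd hnd e ha x' hx'8 hx'b (j + T) j (by omega) hj
  have h3' : (((j + T - j : ℕ) : ℝ) + ((j - (j + T) : ℕ) : ℝ)) = T := by
    have e1 : j + T - j = T := by omega
    have e2 : j - (j + T) = 0 := by omega
    rw [e1, e2, Nat.cast_zero, add_zero]
  rw [h3'] at h3
  have h4 : ‖D.ub j x' - D.ub j x₀‖ ≤ Cd * AA D.f j x₀ := by
    refine hd.mov j x₀ x' hx8 (ha4.trans ?_)
    gcongr
    norm_num
  have h4' : Cd * AA D.f j x₀ ≤ Cd * e := mul_le_mul_of_nonneg_left (ha j hj x₀ hxb) hCd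
  have h5 := dr_ub hd nd hnd e ha x₀ hx8 hxb j i hj hi
  have h6 := (proj_near hd i x₀ hx8).2
  have h6' : Cd * AA D.f i x₀ ≤ Cd * e := mul_le_mul_of_nonneg_left (ha i hi x₀ hxb) hCd
  rw [norm_sub_rev] at h6
  have h7 : P.π (D.ub (j + T) c) - P.π (D.ub i x₀) =
      ((P.π (D.ub (j + T) c) - D.ub (j + T) c) + (D.ub (j + T) c - D.ub (j + T) x') +
        (D.ub (j + T) x' - D.ub j x')) + ((D.ub j x' - D.ub j x₀) + (D.ub j x₀ - D.ub i x₀) +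
        (D.ub i x₀ - P.π (D.ub i x₀))) := by abel
  rw [hbase, h7]
  have h8 := norm_add_le ((P.π (D.ub (j + T) c) - D.ub (j + T) c) + (D.ub (j + T) c - D.ub (j + T) x') +
        (D.ub (j + T) x' - D.ub j x')) ((D.ub j x' - D.ub j x₀) + (D.ub j x₀ - D.ub i x₀) +
        (D.ub i x₀ - P.π (D.ub i x₀)))
  have h9 := norm_add₃_le (a := P.π (D.ub (j + T) c) - D.ub (j + T) c)
    (b := D.ub (j + T) c - D.ub (j + T) x') (c := D.ub (j + T) x' - D.ub j x')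
  have h10 := norm_add₃_le (a := D.ub j x' - D.ub j x₀) (b := D.ub j x₀ - D.ub i x₀)
    (c := D.ub i x₀ - P.π (D.ub i x₀))
  refine h8.trans ?_
  have h11 : Cd * e * (((i - j : ℕ) : ℝ) + ((j - i : ℕ) : ℝ) + T + 4) =
      Cd * e * (((j - i : ℕ) : ℝ) + ((i - j : ℕ) : ℝ)) + Cd * e * T + 4 * (Cd * e) := by ring
  rw [h11]
  linarith

theorem inner_near {n m : ℕ} {P : Par n m} {D : Dyn P} {Cd : ℝ} (hd : Dist D Cd) (nd : Node n)
    (hnd : nd.OK (L0 P)) (e : ℝ) (ha : Amp D nd e) (x₀ : E n)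
    (hx₀ : ‖x₀ - nd.y‖ ≤ 2 / p2 nd.k) (i : ℕ) (hi : nd.k ≤ i) (x : E n) (hx : nd.η x ≠ 0)
    (hxi : ‖x - x₀‖ ≤ 2 / p2 i) :
    ‖P.π (D.ub i x₀) - D.base nd‖ ≤ 5 * Cd * e + Cd * NN D.f i nd.k x := by
  have hCd : 0 ≤ Cd := zero_le_one.trans hd.one_le
  have hp := dr_p2 nd.k
  have hpi := dr_p2 i
  obtain ⟨hx8, hxb⟩ := dr_x0 nd hnd x₀ hx₀
  have hxy := hnd.supp x hx
  have hx1 := hnd.supp1 x hx
  rw [mem_ball, dist_zero_right] at hx1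
  have hx'8 : ‖x‖ ≤ 8 := by linarith
  have hx'b : x ∈ ball nd.y (8 / p2 nd.k) := by
    refine ball_subset_ball ?_ hxy
    gcongr
    norm_num
  have h1 := (proj_near hd i x₀ hx8).2
  have h1' : Cd * AA D.f i x₀ ≤ Cd * e := mul_le_mul_of_nonneg_left (ha i hi x₀ hxb) hCd
  have h2 : ‖D.ub i x - D.ub i x₀‖ ≤ Cd * AA D.f i x₀ := by
    refine hd.mov i x₀ x hx8 (hxi.trans ?_)
    gcongr
    norm_num
  rw [norm_sub_rev] at h2
  have h3 := ub_NN hd i nd.k hi x hx'8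
  have h4 := (base_near hd nd hnd x hxy).2
  have h4' : Cd * AA D.f nd.k x ≤ Cd * e :=
    mul_le_mul_of_nonneg_left (ha nd.k le_rfl x hx'b) hCd
  rw [norm_sub_rev] at h4
  have h5 : P.π (D.ub i x₀) - D.base nd = ((P.π (D.ub i x₀) - D.ub i x₀) +
      (D.ub i x₀ - D.ub i x) + (D.ub i x - D.ub nd.k x)) + (D.ub nd.k x - D.base nd) := by abel
  rw [h5]
  refine (norm_add_le _ _).trans ?_
  have h6 := norm_add₃_le (a := P.π (D.ub i x₀) - D.ub i x₀)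
    (b := D.ub i x₀ - D.ub i x) (c := D.ub i x - D.ub nd.k x)
  linarith

end H87NR
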