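import Pool.Agent.H60.NT.Def

/-!
MP_d943ab_an, all dimensions (proofs id 299), the part on the tree (Sections 2, 3, 7b, 8):
definitions.
-/

set_option autoImplicit false

namespace H87NR

open H60NH H60NT MeasureTheory Metric Set Filter Topology
open scoped ENNReal NNReal ContDiff

/-- The constant of the nodes. -/
noncomputable def L0 {n m : ℕ} (P : Par n m) : ℝ := 2 * (P.Lκ + n * P.Lβ * 2 ^ n)

/-- The number bounding the overlap of the children. -/
noncomputable def C1 (n : ℕ) : ℝ := 8 * (32 * 2 ^ n + 1) ^ n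

/-- `1` for `j ≤ k`, the cutoff `χ_j` about `x₀` for `k < j ≤ Ke`, and `0` for `j > Ke`. -/
noncomputable def tp {n m : ℕ} (P : Par n m) (x₀ : E n) (k Ke j : ℕ) (x : E n) : ℝ :=
  if j ≤ k then 1 else if j ≤ Ke then P.chi x₀ j x else 0

/-- The child `(j, z)` of the node `nd`, `nd.k ≤ j ≤ Ke`: for `nd.k < j < Ke` this is `P.chd`. -/
noncomputable def ch {n m : ℕ} (P : Par n m) (nd : Node n) (x₀ : E n) (T Ke j : ℕ)
    (z : Fin n → ℤ) : Node n where
  y := zc (j + T + n) z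
  k := j + T
  η := fun x => nd.η x * (tp P x₀ nd.k Ke j x - tp P x₀ nd.k Ke (j + 1) x) * P.psi (j + T + n) z x

/-- The type of the indices `(j, z)`. -/
abbrev Ix (n : ℕ) := (_ : ℕ) × (Fin n → ℤ)

open Classical in
/-- The children with a nonzero weight. -/
noncomputable def chs {n m : ℕ} (P : Par n m) (nd : Node n) (x₀ : E n) (T Ke : ℕ) :
    Finset (Ix n) :=
  ((Finset.Icc nd.k Ke).sigma (fun j => box n (j + T + n))).filter
    (fun p => ∃ x, (ch P nd x₀ T Ke p.1 p.2).η x ≠ 0)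

/-- The amplitude `e(ν) = C_* min(ε, D*(ν)^(1/n))`. -/
noncomputable def am {n m : ℕ} {P : Par n m} (D : Dyn P) (Cs : ℝ) (nd : Node n) : ℝ :=
  Cs * min D.ε ((D.Ds nd) ^ (1 / (n : ℝ)))

/-- Distances between the mollified maps, the target and the map `u`. -/
structure Dist {n m : ℕ} {P : Par n m} (D : Dyn P) (Cd : ℝ) : Prop where
  one_le : 1 ≤ Cd
  amb : ∀ (k : ℕ) (x : E n), Cd * AA D.f k x < P.δ
  mov : ∀ (k : ℕ) (x z : E n), ‖x‖ ≤ 8 → ‖z - x‖ ≤ 6 / p2 k →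
    ‖D.ub k z - D.ub k x‖ ≤ Cd * AA D.f k x
  stp : ∀ (k : ℕ) (x : E n), ‖x‖ ≤ 8 → ‖D.ub (k + 1) x - D.ub k x‖ ≤ Cd * AA D.f k x
  tub : ∀ (k : ℕ) (x : E n), ‖x‖ ≤ 8 → infDist (D.ub k x) P.N ≤ Cd * AA D.f k x
  lim : ∀ᵐ x : E n, Tendsto (fun k => D.ub k x) atTop (𝓝 (D.u x))

/-- All averages at scales below that of the node `nd` near this node are at most `e`. -/
def Amp {n m : ℕ} {P : Par n m} (D : Dyn P) (nd : Node n) (e : ℝ) : Prop :=
  ∀ j, nd.k ≤ j → ∀ x ∈ ball nd.y (8 / p2 nd.k), AA D.f j x ≤ e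

/-- The statement `Bd` for the part of the node `nd` inside the cutoff `tp a` (that is `χ_a`), with
centres `q` at a distance at most `r` from the point `Pt`. -/
def Tail {n m : ℕ} {P : Par n m} (D : Dyn P) (C₅ t₀ : ℝ) (nd : Node n) (x₀ : E n) (Ke a : ℕ)
    (Pt : E m) (r V : ℝ) : Prop :=
  ∀ q ∈ P.N, P.dd q Pt ≤ r → ∀ S' : Set (E n), MeasurableSet S' →
    (∀ x ∈ S', nd.η x * tp P x₀ nd.k Ke a x ≠ 0 → ∀ K : ℕ,
      P.dd q (D.base nd) + C₅ * NN D.f K nd.k x ≤ t₀) →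
    (∫ x in S', nd.η x * tp P x₀ nd.k Ke a x * D.gq q x) -
      D.Phi (fun x => nd.η x * tp P x₀ nd.k Ke a x) q ≤ V

/-- The set where the tail `∑_{j ≥ k} A_j` is larger than `c`. -/
def bad {n m : ℕ} {P : Par n m} (D : Dyn P) (c : ℝ) (k : ℕ) : Set (E n) :=
  {x | ∃ K : ℕ, c < NN D.f K k x}

/-- The root of the tree. -/
noncomputable def root {n m : ℕ} (P : Par n m) : Node n where
  y := 0
  k := 0
  η := P.chi 0 1

end H87NR
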