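import Pool.Agent.H87.NR.DISB
import Pool.Agent.H87.NR.CHOK
import Pool.Agent.H60.NT.DInt

/-!
# [H87 NR ENDA] The left side: coercivity on the good set

`q = D.base (root P) = P.π (D.ub 0 0) ∈ N` (`proj_near`). For a.e.
`x ∈ S ∩ ball 0 1` (`NN D.f K 0 x ≤ c₀` for all `K` by `NN_le_Ninf`): `‖u x - q‖ ≤ 4 Cd c₀ ≤ t₃` (`u_base` for the root,
`ball 0 (1 / p2 0) = ball 0 1`), `u x ∈ N`, `G x i` tangent (`dyn_ae`), so by `P.hG.strict`
`gq q x = f^(n-2) ∑ ⟨G_i, DF_q(u) G_i⟩ ≥ c f^(n-2) ∑ ‖G_i‖^2 = c f^n ≥ 0`, `c = P.cg`. The weight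
`P.chi 0 1` is `1` on `ball 0 (1/2)` and `≥ 0`. Integrability: `dyn_int`.
-/

set_option autoImplicit false

namespace H87NR

open H60NH H60NT MeasureTheory Metric Set Filter Topology
open scoped ENNReal NNReal ContDiff

theorem end_left {n m : ℕ} {P : Par n m} {D : Dyn P} {Cd : ℝ} (hd : Dist D Cd) (c₀ : ℝ)
    (hc₀ : 0 < c₀) (hc : 4 * Cd * c₀ ≤ P.t₃) (S : Set (E n)) (hS : MeasurableSet S)
    (hN : ∀ x ∈ S ∩ ball (0 : E n) 1, Ninf D.f x ≤ ENNReal.ofReal c₀) :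
    P.cg * ∫ x in ball (0 : E n) (1 / 2) ∩ S, D.f x ^ n ≤
      ∫ x in S ∩ ball (0 : E n) 1, (root P).η x * D.gq (D.base (root P)) x := by
  obtain ⟨q, hq⟩ : ∃ q : E m, q = D.base (root P) := ⟨_, rfl⟩
  rw [← hq]
  have hp0 : p2 0 = 1 := by unfold p2; norm_num
  have hroot := root_ok P
  have hqN : q ∈ P.N := by
    rw [hq]
    refine (base_near hd (root P) hroot 0 ?_).1
    exact mem_ball_self (by
      show 0 < 1 / p2 0
      rw [hp0]
      norm_num)
  obtain ⟨hfm, hf0, -, hfn, -, -, -, hint⟩ := dyn_int D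
  obtain ⟨hae, -, -⟩ := dyn_ae D
  obtain ⟨hcs, hc01, hc1, -, -, -, -, -⟩ := chi_facts P (0 : E n) 1
  have hη : (root P).η = P.chi 0 1 := rfl
  rw [hη]
  have hη1 : ∀ x, |P.chi (0 : E n) 1 x| ≤ 1 := fun x => by
    rw [abs_of_nonneg (hc01 x).1]
    exact (hc01 x).2
  have hi := hint (P.chi 0 1) 1 q hcs.continuous.measurable hη1
  have hn := P.hn
  -- the pointwise lower bound
  have hpt : ∀ᵐ x, x ∈ S ∩ ball (0 : E n) 1 → P.cg * D.f x ^ n ≤ D.gq q x := by
    filter_upwards [u_base hd (root P) hroot, hae] with x hx hxa hxS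
    have h1 : x ∈ ball (root P).y (1 / p2 (root P).k) := by
      show x ∈ ball (0 : E n) (1 / p2 0)
      rw [hp0, div_one]
      exact hxS.2
    have h2 : ∀ K, NN D.f K (root P).k x ≤ c₀ := by
      intro K
      have h3 := (NN_le_Ninf D.hf K x).trans (hN x hxS)
      exact (ENNReal.ofReal_le_ofReal_iff hc₀.le).mp h3
    have h3 : ‖D.u x - q‖ ≤ P.t₃ := by
      rw [hq]
      exact (hx h1 c₀ h2).trans hc
    have h64 : x ∈ ball (0 : E n) 64 := ball_subset_ball (by norm_num) hxS.2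
    obtain ⟨huN, htan⟩ := hxa h64
    have h4 : ∀ i, P.cg * ‖D.G x i‖ ^ 2 ≤
        inner ℝ (D.G x i) (fderiv ℝ (P.F q) (D.u x) (D.G x i)) := fun i =>
      P.hG.strict q hqN (D.u x) huN h3 (D.G x i) (htan i)
    have h5 : D.f x ^ 2 = ∑ i, ‖D.G x i‖ ^ 2 := by
      unfold Dyn.f gn
      exact Real.sq_sqrt (Finset.sum_nonneg fun i _ => sq_nonneg _)
    have h6 : D.f x ^ n = D.f x ^ (n - 2) * D.f x ^ 2 := by
      rw [← pow_add]
      congr 1
      omega
    have h7 : P.cg * D.f x ^ 2 ≤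
        ∑ i, inner ℝ (D.G x i) (fderiv ℝ (P.F q) (D.u x) (D.G x i)) := by
      rw [h5, Finset.mul_sum]
      exact Finset.sum_le_sum fun i _ => h4 i
    calc P.cg * D.f x ^ n = D.f x ^ (n - 2) * (P.cg * D.f x ^ 2) := by
          rw [h6]
          ring
      _ ≤ D.gq q x := mul_le_mul_of_nonneg_left h7 (pow_nonneg (hf0 x) _)
  have hcg0 : 0 ≤ P.cg := P.hG.c_pos.le
  have hSm1 : MeasurableSet (S ∩ ball (0 : E n) 1) := hS.inter measurableSet_ball
  have hSm2 : MeasurableSet (ball (0 : E n) (1 / 2) ∩ S) := measurableSet_ball.inter hS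
  have hsub : ball (0 : E n) (1 / 2) ∩ S ⊆ S ∩ ball (0 : E n) 1 := fun x hx =>
    ⟨hx.2, ball_subset_ball (by norm_num) hx.1⟩
  rw [← integral_const_mul]
  have h1 : ∫ x in ball (0 : E n) (1 / 2) ∩ S, P.cg * D.f x ^ n ≤
      ∫ x in ball (0 : E n) (1 / 2) ∩ S, P.chi 0 1 x * D.gq q x := by
    refine setIntegral_mono_ae_restrict (hfn.const_mul _).integrableOn hi.integrableOn ?_
    rw [Filter.EventuallyLE, ae_restrict_iff' hSm2]
    filter_upwards [hpt] with x hx hxS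
    have h2 : P.chi (0 : E n) 1 x = 1 := by
      refine hc1 x ?_
      rw [sub_zero]
      have h3 : p2 1 = 2 := by unfold p2; norm_num
      rw [h3]
      exact (mem_ball_zero_iff.mp hxS.1).le
    rw [h2, one_mul]
    exact hx (hsub hxS)
  refine h1.trans ?_
  refine setIntegral_mono_set hi.integrableOn ?_ (Filter.Eventually.of_forall hsub)
  rw [Filter.EventuallyLE, ae_restrict_iff' hSm1]
  filter_upwards [hpt] with x hx hxS
  exact mul_nonneg (hc01 x).1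
    ((mul_nonneg hcg0 (pow_nonneg (hf0 x) _)).trans (hx hxS))

end H87NR
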