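import Pool.Agent.H87.NR.DISB
import Pool.Agent.H87.NR.CHI
import Pool.Agent.H60.NT.DInt
import Pool.Agent.H60.NH.MSmooth
import Pool.Agent.H87.NR.CHOK

/-!
# [H87 NR ENDB] The right side: the flux of the root

`q = D.base (root P) ∈ N`. `Fl χ q = ∫ f^(n-2) ∑ ⟨G_i, F_q(u)⟩ ∂_i χ`, `χ = P.chi 0 1`: the integrand is zero
unless `1/2 ≤ ‖x‖ < 1` (`chi_f`), and there it is at most `f^(n-2) ∑ ‖G_i‖ ‖F_q(u)‖ 2 Lκ ≤
2 n Lκ f^(n-1) ‖F_q(u x)‖`. For a.e. `x ∈ ball 0 1`: `u x ∈ N`, `‖F_q(u x)‖ ≤ 1` (`P.hG.bd`) and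
`‖F_q(u x)‖ = ‖F_q(u x) - F_q(q)‖ ≤ CG ‖u x - q‖` (`P.hG.bdy`, mean value inequality; `F_q(q) = 0` by
`P.hG.near0` with `y = q`), and for `K ≥ 1`
`‖u x - q‖ ≤ ‖u x - ub K x‖ + ‖ub K x - ub 0 x‖ + ‖ub 0 x - q‖ ≤ ‖u x - ub K x‖ + Cd NN f K 0 x + 3 Cd AA f 0 x
≤ ‖u x - ub K x‖ + 4 Cd NN f K 0 x` (`ub_NN`, `base_near` for the root, `AA f 0 x ≤ NN f K 0 x`).
So `‖F_q(u)‖ ≤ min 1 (4 Cd CG NN) + min 1 (CG ‖u - ub K‖)`. With `C = 2 n Lκ + 4 Cd CG` (`≥ 1`),
`e K = 2 n Lκ ∫_{ball 0 1} f^(n-1) min 1 (CG ‖u x - ub K x‖)`, which tends to `0` by dominated convergence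
(`hd.lim`; `f^(n-1) ≤ 1 + f^n` is integrable on `ball 0 1`; `D.ub K` is continuous: `ubar_smooth`, or
measurable). The set where `‖x‖ = 1/2` belongs to `ball 0 1 \ ball 0 (1/2)`.
-/

set_option autoImplicit false

namespace H87NR

open H60NH H60NT MeasureTheory Metric Set Filter Topology
open scoped ENNReal NNReal ContDiff

private theorem en_p2 (k : ℕ) : 0 < p2 k := by
  unfold p2
  positivity

private theorem en_pow (n : ℕ) (hn : 3 ≤ n) (t : ℝ) (ht : 0 ≤ t) : t ^ (n - 1) ≤ 1 + t ^ n := by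
  rcases le_total t 1 with h | h
  · have h1 : t ^ (n - 1) ≤ 1 := pow_le_one₀ ht h
    have h2 : 0 ≤ t ^ n := pow_nonneg ht n
    linarith
  · have h1 : t ^ (n - 1) ≤ t ^ n := pow_le_pow_right₀ h (by omega)
    linarith

private theorem en_le_gn {n m : ℕ} (a : Fin n → E m) (i : Fin n) : ‖a i‖ ≤ gn a := by
  unfold gn
  refine Real.le_sqrt_of_sq_le ?_
  exact Finset.single_le_sum (f := fun i => ‖a i‖ ^ 2) (fun j _ => by positivity)
    (Finset.mem_univ i)

/-- `F_q` vanishes at `q`, and is Lipschitz. -/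
private theorem en_F {n m : ℕ} (P : Par n m) (q : E m) (hq : q ∈ P.N) (y : E m) :
    ‖P.F q y‖ ≤ P.CG * ‖y - q‖ := by
  have h0 : P.F q q = 0 := by
    have h1 := P.hG.near0 q hq q hq (by
      rw [sub_self, norm_zero]
      exact P.hG.t_pos.le)
    rw [sub_self, map_zero, smul_zero, sub_zero, norm_zero] at h1
    have h2 : P.CG * (0 : ℝ) ^ 3 = 0 := by norm_num
    rw [h2] at h1
    exact norm_le_zero_iff.1 h1
  have hsm : ContDiff ℝ ∞ (P.F q) := P.hG.smooth.comp (contDiff_const.prodMk contDiff_id)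
  have h3 := convex_univ.norm_image_sub_le_of_norm_fderiv_le (𝕜 := ℝ) (f := P.F q)
    (fun w _ => (hsm.differentiable (by simp)) w) (fun w _ => P.hG.bdy q w)
    (mem_univ q) (mem_univ y)
  rw [h0, sub_zero] at h3
  exact h3

/-- pointwise bound of the flux density -/
private theorem en_pt {n m : ℕ} {P : Par n m} (D : Dyn P) (q : E m) (x : E n) :
    |D.f x ^ (n - 2) * ∑ i, inner ℝ (D.G x i) (P.F q (D.u x)) * fderiv ℝ (P.chi 0 1) x (ev i)| ≤
      (2 * n * P.Lκ) * (D.f x ^ (n - 1) * ‖P.F q (D.u x)‖) := by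
  have hn := P.hn
  have hf0 : 0 ≤ D.f x := D.hf.nonneg x
  have hL : 0 ≤ P.Lκ := zero_le_one.trans P.hκ.one_le
  have h1 : |∑ i, inner ℝ (D.G x i) (P.F q (D.u x)) * fderiv ℝ (P.chi 0 1) x (ev i)| ≤
      n * (D.f x * ‖P.F q (D.u x)‖ * (2 * P.Lκ)) := by
    refine (Finset.abs_sum_le_sum_abs _ _).trans ?_
    calc ∑ i, |inner ℝ (D.G x i) (P.F q (D.u x)) * fderiv ℝ (P.chi 0 1) x (ev i)|
        ≤ ∑ _i : Fin n, D.f x * ‖P.F q (D.u x)‖ * (2 * P.Lκ) := by
          refine Finset.sum_le_sum fun i _ => ?_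
          rw [abs_mul]
          refine mul_le_mul ?_ ?_ (abs_nonneg _) (by positivity)
          · refine (abs_real_inner_le_norm _ _).trans ?_
            exact mul_le_mul_of_nonneg_right (en_le_gn _ i) (norm_nonneg _)
          · refine ((chi_f P (0 : E n) 1).2.2.2.2.2.2.1 x (ev i)).trans ?_
            have h2 : ‖(ev i : E n)‖ = 1 := by
              unfold ev
              simp
            rw [h2, mul_one]
            unfold p2
            linarith
      _ = n * (D.f x * ‖P.F q (D.u x)‖ * (2 * P.Lκ)) := by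
          rw [Finset.sum_const, Finset.card_univ, Fintype.card_fin, nsmul_eq_mul]
  rw [abs_mul, abs_of_nonneg (pow_nonneg hf0 _)]
  have h3 : D.f x ^ (n - 1) = D.f x ^ (n - 2) * D.f x := by
    rw [← pow_succ]
    congr 1
    omega
  calc D.f x ^ (n - 2) *
        |∑ i, inner ℝ (D.G x i) (P.F q (D.u x)) * fderiv ℝ (P.chi 0 1) x (ev i)|
      ≤ D.f x ^ (n - 2) * (n * (D.f x * ‖P.F q (D.u x)‖ * (2 * P.Lκ))) :=
        mul_le_mul_of_nonneg_left h1 (pow_nonneg hf0 _)
    _ = (2 * n * P.Lκ) * (D.f x ^ (n - 1) * ‖P.F q (D.u x)‖) := by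
        rw [h3]
        ring

theorem end_right {n m : ℕ} (P : Par n m) (Cd : ℝ) (hCd : 1 ≤ Cd) : ∃ C : ℝ, 1 ≤ C ∧
    ∀ D : Dyn P, Dist D Cd → ∃ e : ℕ → ℝ, Tendsto e atTop (𝓝 0) ∧ ∀ K : ℕ, 1 ≤ K →
      - D.Fl (root P).η (D.base (root P)) ≤
        C * (∫ x in ball (0 : E n) 1 \ ball (0 : E n) (1 / 2),
          D.f x ^ (n - 1) * min 1 (C * NN D.f K 0 x)) + e K := by
  have hn := P.hn
  have hn1 : 1 ≤ n := by omega
  have hCG1 : 1 ≤ P.CG := P.hG.one_le
  have hCG : 0 < P.CG := by linarith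
  have hL1 : 1 ≤ P.Lκ := P.hκ.one_le
  have hL : 0 < P.Lκ := by linarith
  have hCd0 : 0 < Cd := by linarith
  have hnr : (1 : ℝ) ≤ n := by exact_mod_cast hn1
  obtain ⟨c₁, hc₁⟩ : ∃ c₁ : ℝ, c₁ = 2 * n * P.Lκ := ⟨_, rfl⟩
  have hc₁1 : 1 ≤ c₁ := by
    rw [hc₁]
    have : 1 ≤ (n : ℝ) * P.Lκ := one_le_mul_of_one_le_of_one_le hnr hL1
    linarith
  have hc₁0 : 0 < c₁ := by linarith
  obtain ⟨C, hC⟩ : ∃ C : ℝ, C = c₁ + 4 * Cd * P.CG := ⟨_, rfl⟩
  have hc₂ : 0 < 4 * Cd * P.CG := by positivity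
  refine ⟨C, by linarith, ?_⟩
  intro D hd
  obtain ⟨q, hq⟩ : ∃ q : E m, q = D.base (root P) := ⟨_, rfl⟩
  have hk0 : (root P).k = 0 := rfl
  have hη : (root P).η = P.chi 0 1 := rfl
  have hb1 : ball (root P).y (1 / p2 (root P).k) = ball (0 : E n) 1 := by
    show ball (0 : E n) (1 / p2 0) = ball (0 : E n) 1
    unfold p2
    norm_num
  have hqN : q ∈ P.N := by
    rw [hq]
    refine (base_near hd (root P) (root_ok P) 0 ?_).1
    rw [hb1]
    exact mem_ball_self one_pos
  have hf0 : ∀ x, 0 ≤ D.f x := D.hf.nonneg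
  have hfm : Measurable D.f := D.hf.meas
  have hum : Measurable D.u := D.hS.meas_u
  have hu : Integrable D.u := (sol_int hn1 D.hS).1
  have hubm : ∀ K, Measurable (D.ub K) := fun K =>
    (ubar_smooth P.hφ D.u hu K).continuous.measurable
  have hpi : IntegrableOn (fun x => D.f x ^ (n - 1)) (ball (0 : E n) 1) := by
    have h1 : IntegrableOn (fun x => 1 + D.f x ^ n) (ball (0 : E n) 1) := by
      refine Integrable.add ?_ D.hf.intn.integrableOn
      exact integrableOn_const (measure_ball_lt_top.ne)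
    refine h1.mono' (hfm.pow_const _).aestronglyMeasurable ?_
    refine ae_of_all _ fun x => ?_
    rw [Real.norm_of_nonneg (pow_nonneg (hf0 x) _)]
    exact en_pow n hn _ (hf0 x)
  -- the error
  obtain ⟨g, hg⟩ : ∃ g : ℕ → E n → ℝ, g = fun K x => min 1 (P.CG * ‖D.u x - D.ub K x‖) := ⟨_, rfl⟩
  have hgm : ∀ K, Measurable (g K) := by
    intro K
    rw [hg]
    exact measurable_const.min (((hum.sub (hubm K)).norm).const_mul _)
  have hg0 : ∀ K x, 0 ≤ g K x := by
    intro K x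
    rw [hg]
    exact le_min zero_le_one (by positivity)
  have hg1 : ∀ K x, g K x ≤ 1 := by
    intro K x
    rw [hg]
    exact min_le_left _ _
  have hgi : ∀ K, IntegrableOn (fun x => D.f x ^ (n - 1) * g K x) (ball (0 : E n) 1) := by
    intro K
    refine Integrable.mono' hpi ((hfm.pow_const _).mul (hgm K)).aestronglyMeasurable ?_
    refine ae_of_all _ fun x => ?_
    rw [Real.norm_of_nonneg (mul_nonneg (pow_nonneg (hf0 x) _) (hg0 K x))]
    exact mul_le_of_le_one_right (pow_nonneg (hf0 x) _) (hg1 K x)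
  have hlim : Tendsto (fun K => ∫ x in ball (0 : E n) 1, D.f x ^ (n - 1) * g K x) atTop (𝓝 0) := by
    have h1 : Tendsto (fun K => ∫ x in ball (0 : E n) 1, D.f x ^ (n - 1) * g K x) atTop
        (𝓝 (∫ _x in ball (0 : E n) 1, (0 : ℝ))) := by
      refine tendsto_integral_of_dominated_convergence (fun x => D.f x ^ (n - 1))
        (fun K => ((hfm.pow_const _).mul (hgm K)).aestronglyMeasurable) hpi ?_ ?_
      · intro K
        refine ae_of_all _ fun x => ?_
        rw [Real.norm_of_nonneg (mul_nonneg (pow_nonneg (hf0 x) _) (hg0 K x))]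
        exact mul_le_of_le_one_right (pow_nonneg (hf0 x) _) (hg1 K x)
      · filter_upwards [ae_restrict_of_ae hd.lim] with x hx
        have h2 : Tendsto (fun K => D.u x - D.ub K x) atTop (𝓝 (D.u x - D.u x)) :=
          tendsto_const_nhds.sub hx
        have h3 : Tendsto (fun K => P.CG * ‖D.u x - D.ub K x‖) atTop (𝓝 0) := by
          have h4 := h2.norm.const_mul P.CG
          rw [sub_self, norm_zero, mul_zero] at h4
          exact h4
        have h5 : Tendsto (fun K => g K x) atTop (𝓝 0) := by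
          have h6 : Tendsto (fun K => min 1 (P.CG * ‖D.u x - D.ub K x‖)) atTop (𝓝 (min 1 0)) :=
            tendsto_const_nhds.min h3
          rw [min_eq_right (zero_le_one' ℝ)] at h6
          rw [hg]
          exact h6
        have h7 := h5.const_mul (D.f x ^ (n - 1))
        rw [mul_zero] at h7
        exact h7
    rw [integral_zero] at h1
    exact h1
  refine ⟨fun K => c₁ * ∫ x in ball (0 : E n) 1, D.f x ^ (n - 1) * g K x, ?_, ?_⟩
  · have h1 := hlim.const_mul c₁
    rw [mul_zero] at h1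
    exact h1
  intro K hK
  rw [← hq, hη]
  have hNN0 : ∀ x, 0 ≤ NN D.f K 0 x := fun x => NN_nonneg D.hf K 0 x
  obtain ⟨A, hA⟩ : ∃ A : Set (E n), A = ball (0 : E n) 1 \ ball (0 : E n) (1 / 2) := ⟨_, rfl⟩
  have hAm : MeasurableSet A := by
    rw [hA]
    exact measurableSet_ball.diff measurableSet_ball
  have hAb : A ⊆ ball (0 : E n) 1 := by
    rw [hA]
    exact sdiff_subset
  obtain ⟨h, hh⟩ : ∃ h : E n → ℝ, h = fun x => min 1 (4 * Cd * P.CG * NN D.f K 0 x) := ⟨_, rfl⟩
  have hhm : Measurable h := by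
    rw [hh]
    exact measurable_const.min (((NN_cont hn1 D.hf.int K 0).measurable).const_mul _)
  have hh0 : ∀ x, 0 ≤ h x := by
    intro x
    rw [hh]
    exact le_min zero_le_one (mul_nonneg hc₂.le (hNN0 x))
  have hh1 : ∀ x, h x ≤ 1 := by
    intro x
    rw [hh]
    exact min_le_left _ _
  have hhi : IntegrableOn (fun x => D.f x ^ (n - 1) * h x) A := by
    refine Integrable.mono' (hpi.mono_set hAb) ((hfm.pow_const _).mul hhm).aestronglyMeasurable ?_
    refine ae_of_all _ fun x => ?_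
    rw [Real.norm_of_nonneg (mul_nonneg (pow_nonneg (hf0 x) _) (hh0 x))]
    exact mul_le_of_le_one_right (pow_nonneg (hf0 x) _) (hh1 x)
  have hgA : IntegrableOn (fun x => D.f x ^ (n - 1) * g K x) A := (hgi K).mono_set hAb
  obtain ⟨w, hw⟩ : ∃ w : E n → ℝ, w = fun x => D.f x ^ (n - 2) *
      ∑ i, inner ℝ (D.G x i) (P.F q (D.u x)) * fderiv ℝ (P.chi 0 1) x (ev i) := ⟨_, rfl⟩
  -- outside A
  have hwA : ∀ x, x ∉ A → w x = 0 := by
    intro x hx
    have h1 : fderiv ℝ (P.chi (0 : E n) 1) x = 0 := by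
      have hp : p2 1 = 2 := by
        unfold p2
        norm_num
      obtain ⟨-, -, -, -, -, -, -, c8, c9⟩ := chi_f P (0 : E n) 1
      by_cases h2 : ‖x‖ < 1 / 2
      · refine c8 x ?_
        rw [hp, sub_zero]
        exact h2
      · refine c9 x ?_
        rw [hp, sub_zero]
        by_contra h3
        refine hx ?_
        rw [hA]
        refine ⟨?_, ?_⟩
        · rw [mem_ball, dist_zero_right]
          linarith
        · rw [mem_ball, dist_zero_right]
          exact h2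
    rw [hw]
    simp [h1]
  have hbd : ∀ᵐ x, x ∈ A → -(w x) ≤ c₁ * (D.f x ^ (n - 1) * h x + D.f x ^ (n - 1) * g K x) := by
    obtain ⟨h1, -, -⟩ := dyn_ae D
    filter_upwards [h1] with x hx1 hxA
    have hxb := hAb hxA
    have hx64 : x ∈ ball (0 : E n) 64 := ball_subset_ball (by norm_num) hxb
    have hx8 : ‖x‖ ≤ 8 := by
      rw [mem_ball, dist_zero_right] at hxb
      linarith
    have h2 : ‖P.F q (D.u x)‖ ≤ h x + g K x := by
      have h3 : ‖P.F q (D.u x)‖ ≤ 1 := P.hG.bd q _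
      have h4 := en_F P q hqN (D.u x)
      have h5 : ‖D.u x - q‖ ≤ ‖D.u x - D.ub K x‖ + 4 * Cd * NN D.f K 0 x := by
        have h6 := ub_NN hd K 0 (Nat.zero_le _) x hx8
        have h7 := (base_near hd (root P) (root_ok P) x (by rw [hb1]; exact hxb)).2
        rw [← hq, hk0] at h7
        have h8 : AA D.f 0 x ≤ NN D.f K 0 x := by
          unfold NN
          exact Finset.single_le_sum (f := fun j => AA D.f j x)
            (fun i _ => (AA_nonneg D.hf i x).1) (Finset.mem_Ico.2 ⟨le_rfl, by omega⟩)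
        have h9 : 3 * Cd * AA D.f 0 x ≤ 3 * Cd * NN D.f K 0 x :=
          mul_le_mul_of_nonneg_left h8 (by positivity)
        have h10 : D.u x - q = (D.u x - D.ub K x) + (D.ub K x - D.ub 0 x) + (D.ub 0 x - q) := by
          abel
        rw [norm_sub_rev] at h7
        rw [h10]
        refine norm_add₃_le.trans ?_
        linarith
      have h11 : ‖P.F q (D.u x)‖ ≤ P.CG * ‖D.u x - D.ub K x‖ + 4 * Cd * P.CG * NN D.f K 0 x := by
        refine h4.trans ((mul_le_mul_of_nonneg_left h5 hCG.le).trans_eq ?_)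
        ring
      rw [hh, hg]
      show ‖P.F q (D.u x)‖ ≤ min 1 (4 * Cd * P.CG * NN D.f K 0 x) +
        min 1 (P.CG * ‖D.u x - D.ub K x‖)
      have h12 : 0 ≤ 4 * Cd * P.CG * NN D.f K 0 x := mul_nonneg hc₂.le (hNN0 x)
      have h13 : 0 ≤ P.CG * ‖D.u x - D.ub K x‖ := by positivity
      rcases le_total 1 (4 * Cd * P.CG * NN D.f K 0 x) with h14 | h14
      · rw [min_eq_left h14]
        have h15 : 0 ≤ min 1 (P.CG * ‖D.u x - D.ub K x‖) := le_min zero_le_one h13
        linarith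
      · rw [min_eq_right h14]
        rcases le_total 1 (P.CG * ‖D.u x - D.ub K x‖) with h16 | h16
        · rw [min_eq_left h16]
          linarith
        · rw [min_eq_right h16]
          linarith
    have h17 := en_pt D q x
    have h18 : 0 ≤ D.f x ^ (n - 1) := pow_nonneg (hf0 x) _
    calc -(w x) ≤ |w x| := neg_le_abs _
      _ ≤ (2 * n * P.Lκ) * (D.f x ^ (n - 1) * ‖P.F q (D.u x)‖) := by
          rw [hw]
          exact h17
      _ ≤ c₁ * (D.f x ^ (n - 1) * (h x + g K x)) := by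
          rw [hc₁]
          refine mul_le_mul_of_nonneg_left ?_ (by positivity)
          exact mul_le_mul_of_nonneg_left h2 h18
      _ = c₁ * (D.f x ^ (n - 1) * h x + D.f x ^ (n - 1) * g K x) := by ring
  have hFl : - D.Fl (P.chi 0 1) q = ∫ x in A, -(w x) := by
    unfold Dyn.Fl
    rw [← hw, ← integral_neg]
    exact (setIntegral_eq_integral_of_forall_compl_eq_zero fun x hx => by
      rw [hwA x hx, neg_zero]).symm
  rw [hFl]
  have hwm : AEStronglyMeasurable w volume := by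
    rw [hw]
    have hFm : Measurable (fun x => P.F q (D.u x)) := by
      have hsm : ContDiff ℝ ∞ (P.F q) := P.hG.smooth.comp (contDiff_const.prodMk contDiff_id)
      exact hsm.continuous.measurable.comp hum
    have hfd : ∀ i : Fin n, Measurable (fun x => fderiv ℝ (P.chi (0 : E n) 1) x (ev i)) := fun i =>
      (((chi_f P (0 : E n) 1).1.continuous_fderiv (by simp)).clm_apply
        continuous_const).measurable
    refine ((hfm.pow_const _).mul (Finset.measurable_sum _ fun i _ => ?_)).aestronglyMeasurable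
    exact ((D.hS.meas_G i).inner hFm).mul (hfd i)
  have hwi : IntegrableOn (fun x => -(w x)) A := by
    have h1 : IntegrableOn (fun x => c₁ * D.f x ^ (n - 1)) A := (hpi.mono_set hAb).const_mul c₁
    refine h1.mono' hwm.neg.restrict ?_
    refine ae_of_all _ fun x => ?_
    rw [norm_neg, Real.norm_eq_abs, hw]
    refine (en_pt D q x).trans ?_
    rw [← hc₁]
    refine mul_le_mul_of_nonneg_left ?_ hc₁0.le
    exact mul_le_of_le_one_right (pow_nonneg (hf0 x) _) (P.hG.bd q _)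
  have hI1 : ∫ x in A, -(w x) ≤
      ∫ x in A, c₁ * (D.f x ^ (n - 1) * h x + D.f x ^ (n - 1) * g K x) := by
    refine integral_mono_ae hwi ((hhi.add hgA).const_mul c₁) ?_
    exact (ae_restrict_iff' hAm).2 hbd
  refine hI1.trans ?_
  rw [integral_const_mul, integral_add hhi hgA, mul_add]
  have hI2 : ∫ x in A, D.f x ^ (n - 1) * g K x ≤
      ∫ x in ball (0 : E n) 1, D.f x ^ (n - 1) * g K x :=
    setIntegral_mono_set (hgi K) (ae_of_all _ fun x => mul_nonneg (pow_nonneg (hf0 x) _) (hg0 K x))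
      (Eventually.of_forall hAb)
  have hI3 : ∫ x in A, D.f x ^ (n - 1) * h x ≤
      ∫ x in A, D.f x ^ (n - 1) * min 1 (C * NN D.f K 0 x) := by
    refine setIntegral_mono hhi ?_ fun x => ?_
    · refine Integrable.mono' (hpi.mono_set hAb) ((hfm.pow_const _).mul (measurable_const.min
        (((NN_cont hn1 D.hf.int K 0).measurable).const_mul _))).aestronglyMeasurable ?_
      refine ae_of_all _ fun x => ?_
      have h1 : 0 ≤ min 1 (C * NN D.f K 0 x) :=
        le_min zero_le_one (mul_nonneg (by linarith) (hNN0 x))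
      rw [Real.norm_of_nonneg (mul_nonneg (pow_nonneg (hf0 x) _) h1)]
      exact mul_le_of_le_one_right (pow_nonneg (hf0 x) _) (min_le_left _ _)
    · rw [hh]
      refine mul_le_mul_of_nonneg_left ?_ (pow_nonneg (hf0 x) _)
      exact min_le_min le_rfl (mul_le_mul_of_nonneg_right (by linarith) (hNN0 x))
  have hJ0 : 0 ≤ ∫ x in A, D.f x ^ (n - 1) * min 1 (C * NN D.f K 0 x) := by
    refine integral_nonneg fun x => mul_nonneg (pow_nonneg (hf0 x) _) ?_
    exact le_min zero_le_one (mul_nonneg (by linarith) (hNN0 x))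
  rw [← hA]
  have h1 := mul_le_mul_of_nonneg_left hI2 hc₁0.le
  have h2 := mul_le_mul_of_nonneg_left hI3 hc₁0.le
  have h3 : c₁ * (∫ x in A, D.f x ^ (n - 1) * min 1 (C * NN D.f K 0 x)) ≤
      C * (∫ x in A, D.f x ^ (n - 1) * min 1 (C * NN D.f K 0 x)) :=
    mul_le_mul_of_nonneg_right (by linarith) hJ0
  linarith

end H87NR
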