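import Pool.Agent.H87.NR.Def

/-!
# [H87 NR EXTW] The choice of `T` and `W`

Proof. `T = ⌈(Q + 4) * logb 2 (1 / e)⌉₊ + 20`, `W = ⌈1 / √e⌉₊`. `(1/2)^T ≤ e^(Q+4)` is clear;
`e * T ≤ √e` iff `√e * T ≤ 1`, and `√e * ((Q+4) * logb 2 (1/e) + 21) → 0` as `e → 0+`
(`√e * log e → 0`: `Real.tendsto_log_mul_rpow_nhdsGT_zero` or elementary, e.g. `log (1/e) = 4 log (1/e^(1/4)) ≤
4 / e^(1/4)`); `W √e ≤ (1/√e + 1) √e = 1 + √e ≤ 2`; `(1/2)^W ≤ (1/2)^(1/√e)`, and this is at most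
`e^(Q+2)` for small `e` because `x^(2(Q+2)) 2^(-x) → 0` for `x = 1/√e → ∞`
(`Real.tendsto_pow_mul_exp_neg_atTop_nhds_zero`); `8 ≤ W` as `1/√e ≥ 8` for `e ≤ 1/64`.
All in all: each property holds eventually for `e → 0+`, combine by `Filter.Eventually` in `𝓝[>] 0`.
-/

set_option autoImplicit false

namespace H87NR

open H60NH H60NT MeasureTheory Metric Set Filter Topology
open scoped ENNReal NNReal ContDiff

theorem exists_TW (Q : ℕ) : ∃ e₀ : ℝ, 0 < e₀ ∧ e₀ ≤ 1 ∧ ∀ e : ℝ, 0 < e → e ≤ e₀ → ∃ T W : ℕ,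
    (1 / 2 : ℝ) ^ T ≤ e ^ (Q + 4) ∧ e * T ≤ Real.sqrt e ∧ 20 ≤ T ∧
    1 ≤ W * Real.sqrt e ∧ W * Real.sqrt e ≤ 2 ∧ (1 / 2 : ℝ) ^ W ≤ e ^ (Q + 2) ∧ 8 ≤ W := by
  have ht : Tendsto (fun k : ℕ => (k : ℝ) ^ (2 * (Q + 4)) * (1 / 2 : ℝ) ^ k) atTop (𝓝 0) :=
    tendsto_pow_const_mul_const_pow_of_lt_one _ (by norm_num) (by norm_num)
  have h3 : (0 : ℝ) < 1 / 3 ^ (2 * (Q + 4)) := by positivity
  have hev := ht.eventually_lt_const h3
  rw [eventually_atTop] at hev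
  obtain ⟨N₀, hN₀⟩ := hev
  obtain ⟨N, hN⟩ : ∃ N, N = max N₀ 20 := ⟨_, rfl⟩
  have hN0 : N₀ ≤ N := by rw [hN]; exact le_max_left _ _
  have hN20 : 20 ≤ N := by rw [hN]; exact le_max_right _ _
  have hN20' : (20 : ℝ) ≤ N := by exact_mod_cast hN20
  refine ⟨(1 / (2 * N : ℝ)) ^ 2, by positivity, ?_, ?_⟩
  · apply pow_le_one₀ (by positivity)
    rw [div_le_one (by positivity)]
    linarith
  intro e he he₀
  obtain ⟨s, hs⟩ : ∃ s, s = Real.sqrt e := ⟨_, rfl⟩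
  have hs0 : 0 < s := by rw [hs]; exact Real.sqrt_pos.mpr he
  have hse : s ^ 2 = e := by rw [hs]; exact Real.sq_sqrt he.le
  have hsN : s ≤ 1 / (2 * N : ℝ) := by
    rw [hs]
    calc Real.sqrt e ≤ Real.sqrt ((1 / (2 * N : ℝ)) ^ 2) := Real.sqrt_le_sqrt he₀
      _ = 1 / (2 * N : ℝ) := Real.sqrt_sq (by positivity)
  have hs1 : s ≤ 1 := by
    refine hsN.trans ?_
    rw [div_le_one (by positivity)]
    linarith
  have he1 : e ≤ 1 := by
    rw [← hse]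
    exact pow_le_one₀ hs0.le hs1
  obtain ⟨W, hW⟩ : ∃ W : ℕ, W = ⌈1 / s⌉₊ := ⟨_, rfl⟩
  have hW1 : 1 / s ≤ W := by rw [hW]; exact Nat.le_ceil _
  have hW2 : (W : ℝ) < 1 / s + 1 := by
    rw [hW]
    exact Nat.ceil_lt_add_one (by positivity)
  have hWs : 1 ≤ W * s := by
    rw [div_le_iff₀ hs0] at hW1
    exact hW1
  have hWs2 : W * s ≤ 2 := by
    have : W * s ≤ (1 / s + 1) * s := mul_le_mul_of_nonneg_right hW2.le hs0.le
    have e2 : (1 / s + 1) * s = 1 + s := by field_simp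
    rw [e2] at this
    linarith
  have hWN : 2 * N ≤ W := by
    have h1 : (2 * N : ℝ) ≤ 1 / s := by
      rw [le_div_iff₀ hs0]
      rw [le_div_iff₀ (by positivity)] at hsN
      linarith
    have h2 : ((2 * N : ℕ) : ℝ) ≤ W := by
      push_cast
      exact h1.trans hW1
    exact_mod_cast h2
  obtain ⟨M, hM⟩ : ∃ M, M = W / 2 := ⟨_, rfl⟩
  have hMN : N ≤ M := by omega
  have hM20 : 20 ≤ M := by omega
  have hWM : W ≤ 3 * M := by omega
  have hMW : 2 * M ≤ W := by omega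
  have hWM' : (W : ℝ) ≤ 3 * M := by exact_mod_cast hWM
  have hMW' : 2 * (M : ℝ) ≤ W := by exact_mod_cast hMW
  have hW0 : (0 : ℝ) < W := by
    have : 0 < W := by omega
    exact_mod_cast this
  have hmain : (1 / 2 : ℝ) ^ M ≤ e ^ (Q + 4) := by
    have g1 := (hN₀ M (by omega)).le
    have g2 : (W : ℝ) ^ (2 * (Q + 4)) * (1 / 2 : ℝ) ^ M ≤ 1 := by
      calc (W : ℝ) ^ (2 * (Q + 4)) * (1 / 2 : ℝ) ^ M
          ≤ (3 * M : ℝ) ^ (2 * (Q + 4)) * (1 / 2 : ℝ) ^ M := by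
            apply mul_le_mul_of_nonneg_right _ (by positivity)
            exact pow_le_pow_left₀ hW0.le hWM' _
        _ = 3 ^ (2 * (Q + 4)) * ((M : ℝ) ^ (2 * (Q + 4)) * (1 / 2 : ℝ) ^ M) := by
            rw [mul_pow]
            ring
        _ ≤ 3 ^ (2 * (Q + 4)) * (1 / 3 ^ (2 * (Q + 4))) :=
            mul_le_mul_of_nonneg_left g1 (by positivity)
        _ = 1 := by field_simp
    have g3 : 1 ≤ (W : ℝ) ^ (2 * (Q + 4)) * e ^ (Q + 4) := by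
      have e1 : (W : ℝ) ^ (2 * (Q + 4)) * e ^ (Q + 4) = ((W * s) ^ 2) ^ (Q + 4) := by
        rw [← hse, pow_mul, mul_pow, mul_pow]
      rw [e1]
      exact one_le_pow₀ (one_le_pow₀ hWs)
    exact le_of_mul_le_mul_left (g2.trans g3) (by positivity)
  refine ⟨M, W, hmain, ?_, hM20, ?_, ?_, ?_, by omega⟩
  · rw [← hs]
    calc e * M = s * (s * M) := by rw [← hse]; ring
      _ ≤ s * 1 := by
          apply mul_le_mul_of_nonneg_left _ hs0.le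
          nlinarith
      _ = s := mul_one s
  · rw [← hs]
    exact hWs
  · rw [← hs]
    exact hWs2
  · calc (1 / 2 : ℝ) ^ W ≤ (1 / 2) ^ M :=
          pow_le_pow_of_le_one (by norm_num) (by norm_num) (by omega)
      _ ≤ e ^ (Q + 4) := hmain
      _ ≤ e ^ (Q + 2) := pow_le_pow_of_le_one he.le he1 (by omega)

end H87NR
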