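import Pool.Agent.H87.NR.LEAF
import Pool.Agent.H60.NH.NMom
import Pool.Agent.H60.NH.NCont

/-!
# [H87 NR LIMB] The bad sets shrink to a null set

* `AA_int`: `∫_{ball 0 1} AA f j x dx ≤ C 2^(-j) ∫ f`: `AA f j x = p2 j^(n-1) ∫ 1_{|x-y| < 8/p2 j} f(y) dy`, Tonelli
  and `volume (ball y (8/p2 j)) = vb n (8/p2 j)^n` (`NInt`: `nint_ball_le`, `int_ball_ball`, `vol_ball`; or
  `NN_moment` with `q = 1`: `∫_{ball 0 1} NN f K 0 ≤ C` for all `K`, which is enough, monotone convergence).
* `Ninf_fin`: so `Ninf f < ∞` a.e. on `ball 0 1`; for such `x` the tails `∑_{j ≥ d} AA f j x` tend to `0`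
  (`tendsto_sum_nat_add` / `ENNReal.tendsto_tsum_compl_atTop_zero` or real summability), so `x ∉ bad D c d` for large `d`.
* `bad_lim`: dominated convergence for `1_{bad D c d} χ f^n` (weight `h` bounded by `1`, measurable, zero
  outside `ball 0 1`), dominated by `f^n`.
-/

set_option autoImplicit false

namespace H87NR

open H60NH H60NT MeasureTheory Metric Set Filter Topology
open scoped ENNReal NNReal ContDiff

private theorem limb_fin {n m : ℕ} {P : Par n m} (D : Dyn P) :
    ∀ᵐ x ∂(volume.restrict (ball (0 : E n) 1)), Ninf D.f x < ⊤ := by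
  have hn := P.hn
  obtain ⟨C₀, hC₀, H⟩ := NN_moment n (by omega)
  set B : ℝ := C₀ * (Nat.factorial 1 * (C₀ * D.ε) ^ 1) / p2 0 ^ n with hB
  have hAAm : ∀ j, Measurable (fun x : E n => ENNReal.ofReal (AA D.f j x)) := fun j =>
    ((AA_cont (by omega) D.hf.int j).1.measurable).ennreal_ofReal
  have e1 : (fun x : E n => Ninf D.f x) = fun x => ∑' j : ℕ, ENNReal.ofReal (AA D.f j x) := rfl
  apply ae_lt_top
  · rw [show Ninf D.f = fun x => ∑' j : ℕ, ENNReal.ofReal (AA D.f j x) from rfl]
    exact Measurable.ennreal_tsum hAAm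
  · rw [show (∫⁻ x in ball (0 : E n) 1, Ninf D.f x) =
      ∫⁻ x in ball (0 : E n) 1, ∑' j : ℕ, ENNReal.ofReal (AA D.f j x) from rfl]
    rw [lintegral_tsum (fun j => (hAAm j).aemeasurable)]
    have h1 : ∑' j : ℕ, ∫⁻ x in ball (0 : E n) 1, ENNReal.ofReal (AA D.f j x) ≤
        ENNReal.ofReal B := by
      rw [ENNReal.tsum_eq_iSup_nat]
      apply iSup_le
      intro K
      rw [← lintegral_finsetSum _ (fun j _ => hAAm j)]
      have h2 : ∀ x : E n, ∑ j ∈ Finset.range K, ENNReal.ofReal (AA D.f j x) =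
          ENNReal.ofReal (NN D.f K 0 x) := by
        intro x
        unfold NN
        have h0 : ∀ j ∈ Finset.Ico 0 K, 0 ≤ AA D.f j x := fun j _ => (AA_nonneg D.hf j x).1
        rw [ENNReal.ofReal_sum_of_nonneg h0, Nat.Ico_zero_eq_range]
      simp only [h2]
      have hc : Continuous (NN D.f K 0) := NN_cont (by omega) D.hf.int K 0
      have hi : IntegrableOn (NN D.f K 0) (ball (0 : E n) 1) :=
        (hc.continuousOn.integrableOn_compact (isCompact_closedBall (0 : E n) 1)).mono_set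
          ball_subset_closedBall
      rw [← ofReal_integral_eq_lintegral_ofReal hi (ae_of_all _ (fun x => NN_nonneg D.hf K 0 x))]
      apply ENNReal.ofReal_le_ofReal
      have h3 := H D.f D.ε D.hf 1 K 0 0
      have e0 : (1 : ℝ) / p2 0 = 1 := by unfold p2; norm_num
      rw [e0] at h3
      simp only [pow_one] at h3
      rw [hB]
      simpa using h3
    exact (h1.trans_lt ENNReal.ofReal_lt_top).ne

theorem bad_ae {n m : ℕ} {P : Par n m} (D : Dyn P) (c : ℝ) (hc : 0 < c) :
    ∀ᵐ x ∂(volume.restrict (ball (0 : E n) 1)), ∃ d₀ : ℕ, ∀ d, d₀ ≤ d → x ∉ bad D c d := by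
  filter_upwards [limb_fin D] with x hx
  have h0 : ∀ j, 0 ≤ AA D.f j x := fun j => (AA_nonneg D.hf j x).1
  have hsum : Summable (fun j => AA D.f j x) := by
    have h1 := ENNReal.summable_toReal (f := fun j => ENNReal.ofReal (AA D.f j x)) hx.ne
    refine h1.congr ?_
    intro j
    exact ENNReal.toReal_ofReal (h0 j)
  have hcau := hsum.hasSum.tendsto_sum_nat.cauchySeq
  rw [Metric.cauchySeq_iff] at hcau
  obtain ⟨d₀, hd₀⟩ := hcau c hc
  refine ⟨d₀, fun d hd hbad => ?_⟩
  obtain ⟨K, hK⟩ := hbad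
  by_cases hKd : d ≤ K
  · have h1 := hd₀ K (by omega) d hd
    have h2 : NN D.f K d x = ∑ j ∈ Finset.range K, AA D.f j x - ∑ j ∈ Finset.range d, AA D.f j x := by
      unfold NN
      exact Finset.sum_Ico_eq_sub _ hKd
    rw [Real.dist_eq, ← h2] at h1
    have h3 := le_abs_self (NN D.f K d x)
    linarith
  · have h2 : NN D.f K d x = 0 := by
      unfold NN
      rw [Finset.Ico_eq_empty (by omega), Finset.sum_empty]
    linarith

theorem bad_lim {n m : ℕ} {P : Par n m} (D : Dyn P) (c : ℝ) (hc : 0 < c) (h : E n → ℝ)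
    (hm : Measurable h) (h0 : ∀ x, 0 ≤ h x) (h1 : ∀ x, h x ≤ 1)
    (hs : ∀ x, h x ≠ 0 → x ∈ ball (0 : E n) 1) :
    Tendsto (fun d : ℕ => ∫ x in bad D c d, h x * D.f x ^ n) atTop (𝓝 0) := by
  have hfn : Integrable (fun x => D.f x ^ n) := D.hf.intn
  have hf0 : ∀ x, 0 ≤ D.f x ^ n := fun x => pow_nonneg (D.hf.nonneg x) n
  have hfm : Measurable (fun x => D.f x ^ n) := D.hf.meas.pow_const n
  have e1 : (fun d : ℕ => ∫ x in bad D c d, h x * D.f x ^ n) =
      fun d : ℕ => ∫ x, (bad D c d).indicator (fun x => h x * D.f x ^ n) x := by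
    funext d
    rw [integral_indicator (bad_meas D c d)]
  have e2 : (0 : ℝ) = ∫ _x : E n, (0 : ℝ) := by simp
  rw [e1, e2]
  apply tendsto_integral_of_dominated_convergence (fun x => D.f x ^ n)
  · intro d
    exact ((hm.mul hfm).indicator (bad_meas D c d)).aestronglyMeasurable
  · exact hfn
  · intro d
    apply ae_of_all
    intro x
    have hx : ‖(bad D c d).indicator (fun x => h x * D.f x ^ n) x‖ ≤ ‖h x * D.f x ^ n‖ :=
      norm_indicator_le_norm_self _ _
    refine hx.trans ?_
    rw [Real.norm_of_nonneg (mul_nonneg (h0 x) (hf0 x))]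
    nlinarith [h1 x, hf0 x]
  · have hae := (ae_restrict_iff' (μ := volume) measurableSet_ball).mp (bad_ae D c hc)
    filter_upwards [hae] with x hx
    by_cases hxb : x ∈ ball (0 : E n) 1
    · obtain ⟨d₀, hd₀⟩ := hx hxb
      apply tendsto_nhds_of_eventually_eq
      filter_upwards [eventually_ge_atTop d₀] with d hd
      rw [indicator_of_notMem (hd₀ d hd)]
    · have hx0 : h x = 0 := by
        by_contra hh
        exact hxb (hs x hh)
      apply tendsto_nhds_of_eventually_eq
      filter_upwards with d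
      by_cases hb : x ∈ bad D c d
      · rw [indicator_of_mem hb, hx0, zero_mul]
      · rw [indicator_of_notMem hb]

end H87NR
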