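import Pool.Agent.H87.NR.RECU
import Pool.Agent.H87.NR.LIMB

/-!
# [H87 NR ROOT] The bound for the root

Proof. `recu`; `ε₁` so small that also `A ε₁^(1/4) ≤ ρ₀`. For the root `nd = root P` (`root_ok`), `nd.k = 0`,
`Ds ≤ ∫ f^n ≤ 1` (`D.hD`; `D.f = gn ∘ G`), `0 + Ex n A ε Ds ≤ A ε^(1/4) ≤ ρ₀`, so for all `d`
`Bd (root) 0 (exp (Ex ..) (CG ∫_{bad d} χ f^n) + B ε^n Ds^(γ+1))`; `Bd` for fixed `q`, `S'` is an inequality
whose right side tends to `B ε^n Ds^(γ+1) ≤ B ε^n ∫ f^n` as `d → ∞` (`bad_lim`, `ge_of_tendsto'`).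
-/

set_option autoImplicit false

namespace H87NR

open H60NH H60NT MeasureTheory Metric Set Filter Topology
open scoped ENNReal NNReal ContDiff

theorem root_bd {n m : ℕ} (P : Par n m) (hB : BPay P (L0 P)) : ∃ Cd C₅ t₀ ε₁ B : ℝ, 1 ≤ Cd ∧ 1 ≤ C₅ ∧
    0 < t₀ ∧ 0 < ε₁ ∧ 1 ≤ B ∧ (∀ D : Dyn P, D.ε ≤ ε₁ → Dist D Cd) ∧
    ∀ D : Dyn P, D.ε ≤ ε₁ → D.Bd C₅ t₀ (root P) 0 (B * D.ε ^ n * ∫ x, D.f x ^ n) := by
  have hn := P.hn
  obtain ⟨Cd, C₅, t₀, ε₁, c, A, B, γ, hCd, hC₅, ht₀, hε₁, hc, hA, hB, hdist, hrec⟩ := recu P hB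
  have hρ₀ : 0 < P.ρ₀ := P.hG.rho_pos
  have hA0 : 0 < A := by linarith
  have hB0 : 0 < B := by linarith
  refine ⟨Cd, C₅, t₀, min ε₁ ((P.ρ₀ / A) ^ 4), B, hCd, hC₅, ht₀, lt_min hε₁ (by positivity), hB,
    fun D hD => hdist D (hD.trans (min_le_left _ _)), ?_⟩
  intro D hD
  have hD1 : D.ε ≤ ε₁ := hD.trans (min_le_left _ _)
  have hD2 : D.ε ≤ (P.ρ₀ / A) ^ 4 := hD.trans (min_le_right _ _)
  have hε := D.ε_pos
  have hf0 : ∀ x, 0 ≤ D.f x := D.hf.nonneg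
  have hDs0 : 0 ≤ D.Ds (root P) := integral_nonneg fun x => pow_nonneg (hf0 x) n
  have hDsle : D.Ds (root P) ≤ ∫ x, D.f x ^ n :=
    setIntegral_le_integral D.hf.intn (ae_of_all _ fun x => pow_nonneg (hf0 x) n)
  have hDs1 : D.Ds (root P) ≤ 1 := hDsle.trans D.hD
  have hEx : Ex n A D.ε (D.Ds (root P)) ≤ P.ρ₀ := by
    unfold Ex
    have h1 : D.ε ^ (1 / 4 : ℝ) ≤ P.ρ₀ / A := by
      have h2 : D.ε ^ (1 / 4 : ℝ) ≤ ((P.ρ₀ / A) ^ 4) ^ (1 / 4 : ℝ) :=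
        Real.rpow_le_rpow hε.le hD2 (by norm_num)
      refine h2.trans_eq ?_
      rw [← Real.rpow_natCast, ← Real.rpow_mul (by positivity)]
      norm_num
    have h3 : (D.Ds (root P)) ^ (1 / (4 * n) : ℝ) ≤ 1 :=
      Real.rpow_le_one hDs0 hDs1 (by positivity)
    calc A * D.ε ^ (1 / 4 : ℝ) * (D.Ds (root P)) ^ (1 / (4 * n) : ℝ)
        ≤ A * D.ε ^ (1 / 4 : ℝ) * 1 := by
          refine mul_le_mul_of_nonneg_left h3 ?_
          have := Real.rpow_nonneg hε.le (1 / 4)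
          positivity
      _ ≤ A * (P.ρ₀ / A) := by
          rw [mul_one]
          exact mul_le_mul_of_nonneg_left h1 hA0.le
      _ = P.ρ₀ := by field_simp
  have hbd := fun d => hrec D hD1 d (root P) (root_ok P) hDs1 0 le_rfl (by rw [zero_add]; exact hEx)
  intro q hq hdq S' hS' hcond
  have hlim := bad_lim D c hc (root P).η (root_ok P).smooth.continuous.measurable
    (root_ok P).nonneg (root_ok P).le_one (root_ok P).supp1
  have hk0 : ∀ d, (root P).k + d = d := fun d => by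
    show 0 + d = d
    omega
  have hlim2 : Tendsto (fun d : ℕ => Real.exp (Ex n A D.ε (D.Ds (root P))) *
      (P.CG * ∫ x in bad D c ((root P).k + d), (root P).η x * D.f x ^ n) +
        B * D.ε ^ n * (D.Ds (root P)) ^ (γ + 1)) atTop
      (𝓝 (B * D.ε ^ n * (D.Ds (root P)) ^ (γ + 1))) := by
    have h1 := ((hlim.const_mul P.CG).const_mul
      (Real.exp (Ex n A D.ε (D.Ds (root P))))).add_const (B * D.ε ^ n * (D.Ds (root P)) ^ (γ + 1))
    simp only [mul_zero, zero_add] at h1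
    simp only [hk0]
    exact h1
  have h2 := ge_of_tendsto' hlim2 (fun d => hbd d q hq hdq S' hS' hcond)
  refine h2.trans ?_
  refine mul_le_mul_of_nonneg_left ?_ (by positivity)
  calc (D.Ds (root P)) ^ (γ + 1) = (D.Ds (root P)) ^ γ * D.Ds (root P) := pow_succ _ _
    _ ≤ 1 * D.Ds (root P) := mul_le_mul_of_nonneg_right (pow_le_one₀ hDs0 hDs1) hDs0
    _ = D.Ds (root P) := one_mul _
    _ ≤ ∫ x, D.f x ^ n := hDsle

end H87NR
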