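import Pool.Agent.H60.NT.El
import Pool.Agent.H87.NR.ROOT
import Pool.Agent.H87.NR.ENDA
import Pool.Agent.H87.NR.ENDB

/-!
# [H87 NR FINR] The inequality (R0)

Proof. `root_bd`, `el_id`, `end_left`, `end_right`. `ε₁ = min`, `c₀ = min (t₀ / C₅) (t₃ / (4 Cd)) > 0`. Given `S`: let
`q = D.base (root P) ∈ N` (`base_near` for the root at `x = 0`), `S' = S ∩ ball 0 1`. `Bd` for the root with `ρ = 0`:
`P.dd q q = 0 ≤ r₁ + 0`, and for `x ∈ S'`, all `K`: `0 + C₅ NN D.f K 0 x ≤ C₅ c₀ ≤ t₀` (`NN_le_Ninf`, `(root P).k = 0`):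
`∫_{S'} χ g_q ≤ Phi χ q + B ε^n ∫ f^n = - Fl χ q + B ε^n ∫ f^n` (`el_id`: `χ = P.chi 0 1` is smooth, nonzero only in
`ball 0 1 ⊆ ball 0 2`). `end_left`, `end_right`: divide by `P.cg > 0`. `C₁ = max (C / cg) (max (B / cg) (max C 1))`
(`min 1 (C N) ≤ min 1 (C₁ N)`, `NN ≥ 0`, and integrals of nonnegative functions, integrable since
`f^(n-1) ≤ 1 + f^n`), `e' K = e K / cg`.
-/

set_option autoImplicit false

namespace H87NR

open H60NH H60NT MeasureTheory Metric Set Filter Topology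
open scoped ENNReal NNReal ContDiff

private theorem fin_pow (n : ℕ) (hn : 3 ≤ n) (t : ℝ) (ht : 0 ≤ t) : t ^ (n - 1) ≤ 1 + t ^ n := by
  rcases le_total t 1 with h | h
  · have h1 : t ^ (n - 1) ≤ 1 := pow_le_one₀ ht h
    have h2 : 0 ≤ t ^ n := pow_nonneg ht n
    linarith
  · have h1 : t ^ (n - 1) ≤ t ^ n := pow_le_pow_right₀ h (by omega)
    linarith

theorem main_ineq_all {n m : ℕ} (P : Par n m) (hB : BPay P (L0 P)) :
    ∃ ε₁ c₀ C₁ : ℝ, 0 < ε₁ ∧ 0 < c₀ ∧ 1 ≤ C₁ ∧ ∀ D : Dyn P, D.ε ≤ ε₁ →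
      ∀ S : Set (E n), MeasurableSet S →
      (∀ x ∈ S ∩ ball (0 : E n) 1, Ninf D.f x ≤ ENNReal.ofReal c₀) →
      ∃ e : ℕ → ℝ, Tendsto e atTop (𝓝 0) ∧ ∀ K : ℕ, 1 ≤ K →
        ∫ x in ball (0 : E n) (1 / 2) ∩ S, D.f x ^ n ≤
          C₁ * (∫ x in ball (0 : E n) 1 \ ball (0 : E n) (1 / 2),
            D.f x ^ (n - 1) * min 1 (C₁ * NN D.f K 0 x))
          + C₁ * D.ε ^ n * (∫ x, D.f x ^ n) + e K := by
  have hn := P.hn
  obtain ⟨Cd, C₅, t₀, ε₂, B, hCd, hC₅, ht₀, hε₂, hB, hdist, hroot⟩ := root_bd P hB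
  obtain ⟨ε₃, hε₃, hel⟩ := el_id P
  obtain ⟨C, hC, hright⟩ := end_right P Cd hCd
  have hCd0 : 0 < Cd := by linarith
  have hC₅0 : 0 < C₅ := by linarith
  have ht₃ : 0 < P.t₃ := P.hG.t_pos
  have hcg : 0 < P.cg := P.hG.c_pos
  obtain ⟨c₀, hc₀⟩ : ∃ c₀ : ℝ, c₀ = min (t₀ / C₅) (P.t₃ / (4 * Cd)) := ⟨_, rfl⟩
  have hc₀0 : 0 < c₀ := by
    rw [hc₀]
    exact lt_min (by positivity) (by positivity)
  have hc₀1 : C₅ * c₀ ≤ t₀ := by
    calc C₅ * c₀ ≤ C₅ * (t₀ / C₅) := by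
          refine mul_le_mul_of_nonneg_left ?_ hC₅0.le
          rw [hc₀]
          exact min_le_left _ _
      _ = t₀ := by field_simp
  have hc₀2 : 4 * Cd * c₀ ≤ P.t₃ := by
    calc 4 * Cd * c₀ ≤ 4 * Cd * (P.t₃ / (4 * Cd)) := by
          refine mul_le_mul_of_nonneg_left ?_ (by positivity)
          rw [hc₀]
          exact min_le_right _ _
      _ = P.t₃ := by field_simp
  obtain ⟨C₁, hC₁⟩ : ∃ C₁ : ℝ, C₁ = C / P.cg + B / P.cg + C := ⟨_, rfl⟩
  have hC0 : 0 < C := by linarith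
  have hB0 : 0 < B := by linarith
  have hq1 : 0 < C / P.cg := by positivity
  have hq2 : 0 < B / P.cg := by positivity
  refine ⟨min ε₂ ε₃, c₀, C₁, lt_min hε₂ hε₃, hc₀0, by linarith, ?_⟩
  intro D hD S hS hN
  have hD2 : D.ε ≤ ε₂ := hD.trans (min_le_left _ _)
  have hD3 : D.ε ≤ ε₃ := hD.trans (min_le_right _ _)
  have hd := hdist D hD2
  obtain ⟨e, he, hr⟩ := hright D hd
  refine ⟨fun K => P.cg⁻¹ * e K, by simpa using he.const_mul P.cg⁻¹, ?_⟩
  intro K hK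
  obtain ⟨q, hq⟩ : ∃ q : E m, q = D.base (root P) := ⟨_, rfl⟩
  have hqN : q ∈ P.N := by
    rw [hq]
    refine (base_near hd (root P) (root_ok P) 0 ?_).1
    show (0 : E n) ∈ ball (0 : E n) (1 / p2 0)
    rw [mem_ball, dist_self]
    unfold p2
    norm_num
  have hk0 : (root P).k = 0 := rfl
  have hη : (root P).η = P.chi 0 1 := rfl
  have hbd := hroot D hD2 q hqN (by
    rw [← hq, P.hG.dd_self q hqN]
    have := P.hG.r1_pos
    linarith) (S ∩ ball (0 : E n) 1) (hS.inter measurableSet_ball) (by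
    intro x hx _ K'
    rw [← hq, P.hG.dd_self q hqN, zero_add, hk0]
    have h1 := (NN_le_Ninf D.hf K' x).trans (hN x hx)
    have h2 : NN D.f K' 0 x ≤ c₀ := (ENNReal.ofReal_le_ofReal_iff hc₀0.le).1 h1
    exact (mul_le_mul_of_nonneg_left h2 hC₅0.le).trans hc₀1)
  have hel1 := (hel D hD3 (root P).η (by
      rw [hη]
      exact (chi_f P 0 1).1) (by
      intro x hx
      exact ball_subset_ball (by norm_num) ((root_ok P).supp1 x hx)) q hqN).2
  have hl := end_left hd c₀ hc₀0 hc₀2 S hS hN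
  have hr' := hr K hK
  rw [← hq] at hl hr'
  rw [hel1] at hbd
  -- enlarge the constants
  have hfn : ∀ x, 0 ≤ D.f x := D.hf.nonneg
  have hfm : Measurable D.f := D.hf.meas
  have hpi : IntegrableOn (fun x => D.f x ^ (n - 1))
      (ball (0 : E n) 1 \ ball (0 : E n) (1 / 2)) := by
    have h1 : IntegrableOn (fun x => 1 + D.f x ^ n) (ball (0 : E n) 1 \ ball (0 : E n) (1 / 2)) := by
      refine Integrable.add ?_ D.hf.intn.integrableOn
      exact (integrableOn_const (measure_ball_lt_top.ne)).mono_set sdiff_subset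
    refine h1.mono' (hfm.pow_const _).aestronglyMeasurable ?_
    refine ae_of_all _ fun x => ?_
    rw [Real.norm_of_nonneg (pow_nonneg (hfn x) _)]
    exact fin_pow n hn _ (hfn x)
  have hNNm : ∀ c : ℝ, Measurable (fun x => min 1 (c * NN D.f K 0 x)) := fun c =>
    measurable_const.min (((NN_cont (by omega) D.hf.int K 0).measurable).const_mul c)
  have hNN0 : ∀ x, 0 ≤ NN D.f K 0 x := fun x => NN_nonneg D.hf K 0 x
  have hint : ∀ c : ℝ, 0 ≤ c → IntegrableOn (fun x => D.f x ^ (n - 1) * min 1 (c * NN D.f K 0 x))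
      (ball (0 : E n) 1 \ ball (0 : E n) (1 / 2)) := by
    intro c hc
    refine Integrable.mono' hpi ((hfm.pow_const _).mul (hNNm c)).aestronglyMeasurable ?_
    refine ae_of_all _ fun x => ?_
    have h1 : 0 ≤ min 1 (c * NN D.f K 0 x) := le_min zero_le_one (mul_nonneg hc (hNN0 x))
    rw [Real.norm_of_nonneg (mul_nonneg (pow_nonneg (hfn x) _) h1)]
    exact mul_le_of_le_one_right (pow_nonneg (hfn x) _) (min_le_left _ _)
  have hmono : (∫ x in ball (0 : E n) 1 \ ball (0 : E n) (1 / 2),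
      D.f x ^ (n - 1) * min 1 (C * NN D.f K 0 x)) ≤
      ∫ x in ball (0 : E n) 1 \ ball (0 : E n) (1 / 2),
        D.f x ^ (n - 1) * min 1 (C₁ * NN D.f K 0 x) := by
    refine setIntegral_mono (hint C hC0.le) (hint C₁ (by linarith)) fun x => ?_
    refine mul_le_mul_of_nonneg_left ?_ (pow_nonneg (hfn x) _)
    refine min_le_min le_rfl (mul_le_mul_of_nonneg_right (by linarith) (hNN0 x))
  have hJ0 : 0 ≤ ∫ x in ball (0 : E n) 1 \ ball (0 : E n) (1 / 2),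
      D.f x ^ (n - 1) * min 1 (C₁ * NN D.f K 0 x) := by
    refine integral_nonneg fun x => mul_nonneg (pow_nonneg (hfn x) _) ?_
    exact le_min zero_le_one (mul_nonneg (by linarith) (hNN0 x))
  have hE0 : 0 ≤ D.ε ^ n * ∫ x, D.f x ^ n :=
    mul_nonneg (pow_nonneg D.ε_pos.le n) (integral_nonneg fun x => pow_nonneg (hfn x) n)
  obtain ⟨J, hJ⟩ : ∃ J : ℝ, J = ∫ x in ball (0 : E n) 1 \ ball (0 : E n) (1 / 2),
      D.f x ^ (n - 1) * min 1 (C₁ * NN D.f K 0 x) := ⟨_, rfl⟩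
  obtain ⟨X, hX⟩ : ∃ X : ℝ, X = ∫ x in ball (0 : E n) (1 / 2) ∩ S, D.f x ^ n := ⟨_, rfl⟩
  rw [← hJ] at hmono hJ0 ⊢
  rw [← hX] at hl ⊢
  have h1 : P.cg * X ≤ C * J + B * D.ε ^ n * (∫ x, D.f x ^ n) + e K := by
    have h2 := mul_le_mul_of_nonneg_left hmono hC0.le
    linarith
  have h3 : X ≤ (C * J + B * D.ε ^ n * (∫ x, D.f x ^ n) + e K) / P.cg := by
    rw [le_div_iff₀ hcg]
    linarith
  refine h3.trans ?_
  have h4 : (C * J + B * D.ε ^ n * (∫ x, D.f x ^ n) + e K) / P.cg =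
      C / P.cg * J + B / P.cg * (D.ε ^ n * ∫ x, D.f x ^ n) + P.cg⁻¹ * e K := by
    field_simp
  rw [h4]
  have h5 : C / P.cg * J ≤ C₁ * J := mul_le_mul_of_nonneg_right (by linarith) hJ0
  have h6 : B / P.cg * (D.ε ^ n * ∫ x, D.f x ^ n) ≤ C₁ * (D.ε ^ n * ∫ x, D.f x ^ n) :=
    mul_le_mul_of_nonneg_right (by linarith) hE0
  have h7 : C₁ * (D.ε ^ n * ∫ x, D.f x ^ n) = C₁ * D.ε ^ n * ∫ x, D.f x ^ n := by ring
  linarith

end H87NR
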