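import Pool.Agent.H87.NR.Def
import Pool.Agent.H60.NT.DInt

/-!
# [H87 NR GQI] The density `g_q`: size, measurability, integrability

See `dyn_int` in NT/DInt (proved). Proof. `gq_bd`: `‖fderiv (P.F q) y‖ ≤ CG` (`P.hG.bdy`), Cauchy-Schwarz, so the sum is at most
`CG ∑ ‖G_i‖^2 = CG f^2` and `f^(n-2) f^2 = f^n` (`3 ≤ n`). `gq_meas`: `y ↦ fderiv ℝ (P.F q) y` is
continuous (`P.hG.smooth`, restrict to `{q} × E m`), `D.u`, `D.G · i` are measurable (`D.hS.meas_u`,
`meas_G`), `f` measurable (`D.hf.meas`). `mul_int`: `|h g_q| ≤ |h| CG f^n`, `f^n` integrable (`D.hf.intn`).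
`Phi_sub`, `Phi_sum`: linearity of the integral. `Bd_mono`: read the definition.
`Bd_zero`: if `nd.η = 0` all integrals vanish.
`Bd_null`: if `Ds = ∫_{ball nd.y (16 / p2 nd.k)} f^n = 0` then `f = 0` a.e. on this ball, which contains
the support of `nd.η`, so `nd.η g_q = 0` a.e. (`gq_bd`).
-/

set_option autoImplicit false

namespace H87NR

open H60NH H60NT MeasureTheory Metric Set Filter Topology
open scoped ENNReal NNReal ContDiff

theorem gq_bd {n m : ℕ} {P : Par n m} (D : Dyn P) (q : E m) (x : E n) :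
    |D.gq q x| ≤ P.CG * D.f x ^ n :=
  (dyn_int D).2.2.2.2.2.1 q x

theorem gq_meas {n m : ℕ} {P : Par n m} (D : Dyn P) (q : E m) : Measurable (D.gq q) :=
  (dyn_int D).2.2.2.2.1 q

theorem mul_int {n m : ℕ} {P : Par n m} (D : Dyn P) (q : E m) (h : E n → ℝ) (hm : Measurable h)
    (c : ℝ) (hc : ∀ x, |h x| ≤ c) : Integrable (fun x => h x * D.gq q x) :=
  (dyn_int D).2.2.2.2.2.2.2 h c q hm hc

theorem Bd_mono {n m : ℕ} {P : Par n m} (D : Dyn P) (C₅ t₀ : ℝ) (nd : Node n) (ρ ρ' U U' : ℝ)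
    (h : D.Bd C₅ t₀ nd ρ U) (hρ : ρ' ≤ ρ) (hU : U ≤ U') : D.Bd C₅ t₀ nd ρ' U' := by
  intro q hq hd S' hS' hc
  exact (h q hq (hd.trans (by linarith)) S' hS' hc).trans hU

theorem Bd_zero {n m : ℕ} {P : Par n m} (D : Dyn P) (C₅ t₀ : ℝ) (nd : Node n) (ρ U : ℝ)
    (h : ∀ x, nd.η x = 0) (hU : 0 ≤ U) : D.Bd C₅ t₀ nd ρ U := by
  intro q hq hd S' hS' hc
  have h1 : ∀ x, nd.η x * D.gq q x = 0 := fun x => by rw [h x, zero_mul]
  unfold Dyn.Phi
  simp only [h1, integral_zero, sub_zero]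
  exact hU

theorem Bd_null {n m : ℕ} {P : Par n m} (D : Dyn P) (C₅ t₀ : ℝ) (nd : Node n) {L : ℝ}
    (hnd : nd.OK L) (ρ U : ℝ) (h : D.Ds nd = 0) (hU : 0 ≤ U) : D.Bd C₅ t₀ nd ρ U := by
  intro q hq hd S' hS' hc
  have hn : n ≠ 0 := by
    have := P.hn
    omega
  have hf0 := D.hf.nonneg
  have h1 : ∀ᵐ x ∂(volume.restrict (ball nd.y (16 / p2 nd.k))), D.f x ^ n = 0 := by
    have h2 := (setIntegral_eq_zero_iff_of_nonneg_ae
      (ae_of_all _ fun x => pow_nonneg (hf0 x) n) D.hf.intn.integrableOn).1 h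
    filter_upwards [h2] with x hx
    exact hx
  have h3 : ∀ᵐ x, nd.η x * D.gq q x = 0 := by
    filter_upwards [(ae_restrict_iff' measurableSet_ball).1 h1] with x hx
    by_cases h4 : nd.η x = 0
    · rw [h4, zero_mul]
    · have h5 : x ∈ ball nd.y (16 / p2 nd.k) := by
        refine ball_subset_ball ?_ (hnd.supp x h4)
        have hp : 0 < p2 nd.k := by
          unfold p2
          positivity
        gcongr
        norm_num
      have h6 := gq_bd D q x
      rw [hx h5, mul_zero] at h6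
      have h7 : D.gq q x = 0 := abs_eq_zero.1 (le_antisymm h6 (abs_nonneg _))
      rw [h7, mul_zero]
  have h8 : D.Phi nd.η q = 0 := by
    unfold Dyn.Phi
    rw [integral_congr_ae (g := fun _ => (0 : ℝ)) h3, integral_zero]
  have h9 : ∫ x in S', nd.η x * D.gq q x = 0 := by
    rw [integral_congr_ae (g := fun _ => (0 : ℝ)) (ae_restrict_of_ae h3), integral_zero]
  rw [h8, h9, sub_zero]
  exact hU

end H87NR
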