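import Pool.Agent.H87.NR.OVB

/-!
# [H87 NR HALF] Every child has at most half of the energy

Proof. `j = Ke`: the ball `ball zc (16 / p2 (Ke+T))` is contained in `ball zc (1 / p2 (Ke+3))` (`T ≥ 20`),
`‖zc - nd.y‖ ≤ 1 / p2 (Ke+T) + 1 / p2 nd.k ≤ 2 / p2 nd.k` (`ch_loc` at a point of the support): `h2`.
`j < Ke` (so `nd.k < Ke`): `ball zc (16 / p2 (j+T))` and `ball x₀ (1 / p2 (Ke+2))` are disjoint: with
`x'` in the support `‖zc - x₀‖ ≥ 1 / (2 p2 j) - 1 / p2 (j+T)` (`ch_loc`), and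
`17 / p2 (j+T) + 1 / p2 (Ke+2) ≤ 17 / 2^20 / p2 j + 1 / (8 p2 j) < 1 / (2 p2 j)`. Both are contained in
`ball nd.y (16 / p2 nd.k)` (`ch_ball`; `‖x₀ - nd.y‖ ≤ 2 / p2 nd.k`), so the energy of the first is at most
`Ds - Ds / 2` by `h1` (`setIntegral_union`, `f^n ≥ 0` integrable).
-/

set_option autoImplicit false

namespace H87NR

open H60NH H60NT MeasureTheory Metric Set Filter Topology
open scoped ENNReal NNReal ContDiff

private theorem half_p2 (k : ℕ) : 0 < p2 k := by
  unfold p2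
  positivity

theorem ch_half {n m : ℕ} {P : Par n m} (D : Dyn P) (nd : Node n) (hnd : nd.OK (L0 P))
    (x₀ : E n) (hx₀ : ‖x₀ - nd.y‖ ≤ 2 / p2 nd.k) (T Ke : ℕ) (hT : 20 ≤ T)
    (h1 : nd.k < Ke → D.Ds nd / 2 ≤ ∫ x in ball x₀ (1 / p2 (Ke + 2)), D.f x ^ n)
    (h2 : ∀ x : E n, ‖x - nd.y‖ ≤ 2 / p2 nd.k →
      ∫ w in ball x (1 / p2 (Ke + 3)), D.f w ^ n ≤ D.Ds nd / 2)
    (j : ℕ) (z : Fin n → ℤ) (hj : nd.k ≤ j) (hjK : j ≤ Ke)
    (hne : ∃ x, (ch P nd x₀ T Ke j z).η x ≠ 0) :
    D.Ds (ch P nd x₀ T Ke j z) ≤ D.Ds nd / 2 := by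
  have hfn : Integrable (fun x => D.f x ^ n) := D.hf.intn
  have h0 : ∀ x, 0 ≤ D.f x ^ n := fun x => pow_nonneg (D.hf.nonneg x) n
  have hball := ch_ball P nd hnd x₀ hx₀ T Ke j z hT hj hne
  obtain ⟨x', hx'⟩ := hne
  obtain ⟨l1, l2, l3, l4, l5⟩ := ch_loc P nd hnd x₀ hx₀ T Ke j z hj x' hx'
  have hk := half_p2 nd.k
  have hj0 := half_p2 j
  have hjT := half_p2 (j + T)
  have hDs : D.Ds (ch P nd x₀ T Ke j z) =
      ∫ x in ball (zc (j + T + n) z) (16 / p2 (j + T)), D.f x ^ n := rfl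
  rw [hDs]
  rw [mem_ball, dist_eq_norm] at l1 l2
  have hpT : 256 * p2 j ≤ p2 (j + T) := by
    have e : p2 (j + 8) = 256 * p2 j := by unfold p2; ring
    rw [← e]
    unfold p2
    exact pow_le_pow_right₀ (by norm_num) (by omega)
  rcases Nat.eq_or_lt_of_le hjK with h | h
  · -- the last ring
    have hz : ‖zc (j + T + n) z - nd.y‖ ≤ 2 / p2 nd.k := by
      have g1 := norm_sub_le_norm_sub_add_norm_sub (zc (j + T + n) z) x' nd.y
      rw [norm_sub_rev (zc (j + T + n) z) x'] at g1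
      have g2 : 1 / p2 (j + T) ≤ 1 / p2 nd.k := by
        apply one_div_le_one_div_of_le hk
        unfold p2
        exact pow_le_pow_right₀ (by norm_num) (by omega)
      have e : 2 / p2 nd.k = 1 / p2 nd.k + 1 / p2 nd.k := by ring
      rw [e]
      linarith
    refine le_trans ?_ (h2 _ hz)
    apply setIntegral_mono_set hfn.integrableOn (ae_of_all _ h0)
    apply Eventually.of_forall
    apply ball_subset_ball
    rw [div_le_div_iff₀ hjT (half_p2 _), ← h]
    have e : p2 (j + 3) = 8 * p2 j := by unfold p2; ring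
    rw [e]
    linarith
  · have l6 := l5 h
    have hKe := h1 (by omega)
    have hd : Disjoint (ball (zc (j + T + n) z) (16 / p2 (j + T))) (ball x₀ (1 / p2 (Ke + 2))) := by
      rw [Set.disjoint_left]
      intro w hw1 hw2
      rw [mem_ball, dist_eq_norm] at hw1 hw2
      have g1 := norm_sub_le_norm_sub_add_norm_sub x' (zc (j + T + n) z) w
      rw [norm_sub_rev (zc (j + T + n) z) w] at g1
      have g2 := norm_sub_le_norm_sub_add_norm_sub x' w x₀
      have g3 : 1 / p2 (Ke + 2) ≤ 1 / (8 * p2 j) := by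
        apply one_div_le_one_div_of_le (by positivity)
        have e : p2 (j + 3) = 8 * p2 j := by unfold p2; ring
        rw [← e]
        unfold p2
        exact pow_le_pow_right₀ (by norm_num) (by omega)
      have g4 : 17 / p2 (j + T) ≤ 1 / (8 * p2 j) := by
        rw [div_le_div_iff₀ hjT (by positivity)]
        linarith
      have e1 : 16 / p2 (j + T) + 1 / p2 (j + T) = 17 / p2 (j + T) := by ring
      have e2 : 1 / (8 * p2 j) = 1 / 8 * (1 / p2 j) := by field_simp
      have e3 : 1 / (2 * p2 j) = 1 / 2 * (1 / p2 j) := by field_simp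
      rw [e2] at g3 g4
      rw [e3] at l6
      have : 0 < 1 / p2 j := by positivity
      linarith
    have hx₀b : ball x₀ (1 / p2 (Ke + 2)) ⊆ ball nd.y (16 / p2 nd.k) := by
      intro w hw
      rw [mem_ball, dist_eq_norm] at hw ⊢
      have g1 := norm_sub_le_norm_sub_add_norm_sub w x₀ nd.y
      have g2 : 1 / p2 (Ke + 2) ≤ 1 / p2 nd.k := by
        apply one_div_le_one_div_of_le hk
        unfold p2
        exact pow_le_pow_right₀ (by norm_num) (by omega)
      have e : 16 / p2 nd.k = 16 * (1 / p2 nd.k) := by ring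
      have e' : 2 / p2 nd.k = 2 * (1 / p2 nd.k) := by ring
      have : 0 < 1 / p2 nd.k := by positivity
      rw [e]
      rw [e'] at hx₀
      linarith
    have hsum : (∫ x in ball (zc (j + T + n) z) (16 / p2 (j + T)), D.f x ^ n) +
        ∫ x in ball x₀ (1 / p2 (Ke + 2)), D.f x ^ n ≤ D.Ds nd := by
      rw [← setIntegral_union hd measurableSet_ball hfn.integrableOn hfn.integrableOn]
      apply setIntegral_mono_set hfn.integrableOn (ae_of_all _ h0)
      exact Eventually.of_forall (union_subset hball hx₀b)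
    linarith

end H87NR
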