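import Pool.Agent.H87.NR.Def

/-!
# [H87 NR HEAVY] The heavy ball

Proof. `g = f^n ≥ 0` is integrable (`D.hf.intn`; `D.f` unfolds to `fun x => gn (D.G x)`), `Ds = ∫ g` over
`ball nd.y (16 / p2 nd.k)`, `Ds > 0`. Absolute continuity of the integral (for instance
`Integrable.exists... ` / `exists_pos_setLIntegral_lt_of_measure_lt`): there is `j₁` with
`∫_{ball x (1 / p2 j)} g < Ds / 2` for all `x` and all `j ≥ j₁` (the volume of the ball does not depend on
`x` and tends to `0`). Let `H` be the set of `j ≥ nd.k` such that some `x` with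
`‖x - nd.y‖ ≤ 2 / p2 nd.k` has `Ds / 2 ≤ ∫_{ball x (1 / p2 j)} g`; it is bounded by `j₁`.
If `H` is empty take `x₀ = nd.y`, `Ke = nd.k`: for `x` with `‖x - nd.y‖ ≤ 2 / p2 nd.k`,
`ball x (1 / p2 (nd.k+3)) ⊆ ball x (1 / p2 nd.k)` has integral `< Ds / 2`.
Otherwise let `ks = max H`, `x₀` its centre, `Ke = max nd.k (ks - 2)`. If `nd.k < Ke` then `Ke + 2 = ks`.
For the last item `1 / p2 (Ke+3) ≤ 1 / p2 (ks+1)` and `ks + 1 ∉ H`.
-/

set_option autoImplicit false

namespace H87NR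

open H60NH H60NT MeasureTheory Metric Set Filter Topology
open scoped ENNReal NNReal ContDiff

private theorem heavy_p2 (k : ℕ) : 0 < p2 k := by
  unfold p2
  positivity

/-- Small balls have small integrals, uniformly in the centre. -/
private theorem heavy_small {n : ℕ} (hn : 1 ≤ n) (g : E n → ℝ) (hg : Integrable g)
    (h0 : ∀ x, 0 ≤ g x) (c : ℝ) (hc : 0 < c) :
    ∃ j₁ : ℕ, ∀ j, j₁ ≤ j → ∀ x : E n, ∫ w in ball x (1 / p2 j), g w < c := by
  have hfin : ∫⁻ x, ENNReal.ofReal (g x) ≠ ⊤ := by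
    have := hg.lintegral_lt_top
    exact this.ne
  obtain ⟨δ, hδ, hδ2⟩ := exists_pos_setLIntegral_lt_of_measure_lt hfin
    (ENNReal.ofReal_pos.mpr hc).ne'
  -- volumes tend to zero
  have hvol : ∀ (x : E n) (j : ℕ), volume (ball x (1 / p2 j)) =
      ENNReal.ofReal ((1 / p2 j) ^ n) * volume (ball (0 : E n) 1) := by
    intro x j
    rw [Measure.addHaar_ball_of_pos _ _ (by have := heavy_p2 j; positivity),
      finrank_euclideanSpace_fin]
  have hω : volume (ball (0 : E n) 1) ≠ ⊤ := measure_ball_lt_top.ne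
  have htend : Tendsto (fun j : ℕ => ENNReal.ofReal ((1 / p2 j) ^ n) * volume (ball (0 : E n) 1))
      atTop (𝓝 0) := by
    have h1 : Tendsto (fun j : ℕ => (1 / p2 j) ^ n) atTop (𝓝 0) := by
      have h2 : Tendsto (fun j : ℕ => (1 / 2 : ℝ) ^ j) atTop (𝓝 0) :=
        tendsto_pow_atTop_nhds_zero_of_lt_one (by norm_num) (by norm_num)
      have h3 : (fun j : ℕ => (1 / p2 j) ^ n) = fun j : ℕ => ((1 / 2 : ℝ) ^ j) ^ n := by
        funext j
        unfold p2
        rw [one_div, one_div, inv_pow, inv_pow, inv_pow]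
      rw [h3]
      have := h2.pow n
      rw [zero_pow (by omega)] at this
      exact this
    have h4 := (ENNReal.tendsto_ofReal h1)
    rw [ENNReal.ofReal_zero] at h4
    have h5 := ENNReal.Tendsto.mul_const h4 (Or.inr hω)
    rw [zero_mul] at h5
    exact h5
  have hev := htend.eventually_lt_const hδ
  rw [eventually_atTop] at hev
  obtain ⟨j₁, hj₁⟩ := hev
  refine ⟨j₁, fun j hj x => ?_⟩
  have h1 := hδ2 (ball x (1 / p2 j)) (by rw [hvol]; exact hj₁ j hj)
  rw [integral_eq_lintegral_of_nonneg_ae (ae_of_all _ h0) hg.aestronglyMeasurable.restrict]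
  rw [← ENNReal.toReal_ofReal hc.le]
  exact (ENNReal.toReal_lt_toReal (h1.trans ENNReal.ofReal_lt_top).ne ENNReal.ofReal_ne_top).mpr h1

theorem heavy {n m : ℕ} {P : Par n m} (D : Dyn P) (nd : Node n) (hD : 0 < D.Ds nd) :
    ∃ (x₀ : E n) (Ke : ℕ), ‖x₀ - nd.y‖ ≤ 2 / p2 nd.k ∧ nd.k ≤ Ke ∧
      (nd.k < Ke → D.Ds nd / 2 ≤ ∫ x in ball x₀ (1 / p2 (Ke + 2)), D.f x ^ n) ∧
      ∀ x : E n, ‖x - nd.y‖ ≤ 2 / p2 nd.k →
        ∫ w in ball x (1 / p2 (Ke + 3)), D.f w ^ n ≤ D.Ds nd / 2 := by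
  classical
  have hn := P.hn
  have hfn : Integrable (fun x => D.f x ^ n) := D.hf.intn
  have h0 : ∀ x, 0 ≤ D.f x ^ n := fun x => pow_nonneg (D.hf.nonneg x) n
  obtain ⟨j₁, hj₁⟩ := heavy_small (by omega) (fun x => D.f x ^ n) hfn h0 (D.Ds nd / 2) (by linarith)
  have hmono : ∀ (x : E n) (i j : ℕ), i ≤ j → ∫ w in ball x (1 / p2 j), D.f w ^ n ≤
      ∫ w in ball x (1 / p2 i), D.f w ^ n := by
    intro x i j hij
    apply setIntegral_mono_set hfn.integrableOn (ae_of_all _ h0)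
    apply Eventually.of_forall
    apply ball_subset_ball
    apply one_div_le_one_div_of_le (heavy_p2 i)
    unfold p2
    exact pow_le_pow_right₀ (by norm_num) hij
  set Pr : ℕ → Prop := fun j => nd.k ≤ j ∧ ∃ x : E n, ‖x - nd.y‖ ≤ 2 / p2 nd.k ∧
    D.Ds nd / 2 ≤ ∫ w in ball x (1 / p2 j), D.f w ^ n with hPr
  have hbd : ∀ j, Pr j → j < j₁ := by
    intro j hj
    by_contra hc
    push Not at hc
    obtain ⟨-, x, -, h2⟩ := hj
    exact absurd h2 (not_le.mpr (hj₁ j hc x))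
  by_cases hex : ∃ j, Pr j
  · obtain ⟨ks, hks, hmax⟩ : ∃ ks, Pr ks ∧ ∀ j, Pr j → j ≤ ks := by
      refine ⟨Nat.findGreatest Pr j₁, ?_, ?_⟩
      · obtain ⟨j, hj⟩ := hex
        exact Nat.findGreatest_spec (hbd j hj).le hj
      · intro j hj
        exact Nat.le_findGreatest (hbd j hj).le hj
    obtain ⟨g1, x₀, g2, g3⟩ := hks
    refine ⟨x₀, max nd.k (ks - 2), g2, le_max_left _ _, ?_, ?_⟩
    · intro h
      have e : max nd.k (ks - 2) + 2 = ks := by omega
      rw [e]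
      exact g3
    · intro x hx
      have h1 : ¬ Pr (ks + 1) := fun h => by
        have := hmax _ h
        omega
      have h2 : ∫ w in ball x (1 / p2 (ks + 1)), D.f w ^ n < D.Ds nd / 2 := by
        by_contra hc
        push Not at hc
        exact h1 ⟨by omega, x, hx, hc⟩
      exact (hmono x (ks + 1) _ (by omega)).trans h2.le
  · refine ⟨nd.y, nd.k, ?_, le_rfl, fun h => absurd h (lt_irrefl _), ?_⟩
    · rw [sub_self, norm_zero]
      have := heavy_p2 nd.k
      positivity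
    · intro x hx
      have h2 : ∫ w in ball x (1 / p2 nd.k), D.f w ^ n < D.Ds nd / 2 := by
        by_contra hc
        push Not at hc
        exact hex ⟨nd.k, le_rfl, x, hx, hc⟩
      exact (hmono x nd.k _ (by omega)).trans h2.le

end H87NR
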