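import Pool.Agent.H87.NR.DISB
import Pool.Agent.H87.NR.GQI

/-!
# [H87 NR LEAF] (2a): the bound for a leaf

Proof. `c = min 1 (P.ρ₀ / (4 * Cd * P.CG))`. Let `q ∈ N`, `dd q (base nd) ≤ r₁ + ρ₀`, `S'` measurable. For a.e. `x`
with `nd.η x ≠ 0` and `x ∉ bad D c nd.k` (so `NN D.f K nd.k x ≤ c` for all `K`): `x ∈ ball nd.y (1/p2 nd.k)`,
`‖u x - base nd‖ ≤ 4 Cd c` (`u_base`), so
`dd q (u x) ≤ dd q (base nd) + CG * 4 Cd c ≤ r₁ + ρ₀ + ρ₀ ≤ r₁ + 3 ρ₀` (`P.hG.dd_lip`, `u x ∈ N` a.e. on `ball 0 64`,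
`base_near` for `base nd ∈ N` - the weight is nonzero at `x`) and `0 ≤ gq q x` (`dyn_ae` of `NT/DInt`).
So `∫_{S'} η g_q - ∫ η g_q = - ∫_{S'ᶜ} η g_q ≤ ∫_{S'ᶜ ∩ bad} η |g_q| ≤ CG ∫_{bad} η f^n`: pointwise a.e.
`- η g_q 1_{S'ᶜ} ≤ CG η f^n 1_{bad}` (`gq_bd`). `bad` is measurable: countable union of sets
`{c < NN D.f K k x}`, `NN` is continuous (`NN_cont`, `3 ≤ n`). If the weight vanishes identically use
`Bd_zero`.
-/

set_option autoImplicit false

namespace H87NR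

open H60NH H60NT MeasureTheory Metric Set Filter Topology
open scoped ENNReal NNReal ContDiff

theorem bad_meas {n m : ℕ} {P : Par n m} (D : Dyn P) (c : ℝ) (k : ℕ) :
    MeasurableSet (bad D c k) := by
  have hn := P.hn
  have h1 : bad D c k = ⋃ K : ℕ, {x | c < NN D.f K k x} := by
    ext x
    simp [bad]
  rw [h1]
  refine MeasurableSet.iUnion fun K => ?_
  exact measurableSet_lt measurable_const (NN_cont (by omega) D.hf.int K k).measurable

theorem bad_anti {n m : ℕ} {P : Par n m} (D : Dyn P) (c : ℝ) (k k' : ℕ) (h : k ≤ k') :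
    bad D c k' ⊆ bad D c k := by
  rintro x ⟨K, hK⟩
  exact ⟨K, hK.trans_le (NN_mono D.hf le_rfl h x)⟩

theorem leaf {n m : ℕ} (P : Par n m) (Cd : ℝ) (hCd : 1 ≤ Cd) : ∃ c : ℝ, 0 < c ∧
    ∀ (D : Dyn P), Dist D Cd → ∀ (C₅ t₀ : ℝ) (nd : Node n), nd.OK (L0 P) → ∀ ρ : ℝ, ρ ≤ P.ρ₀ →
      D.Bd C₅ t₀ nd ρ (P.CG * ∫ x in bad D c nd.k, nd.η x * D.f x ^ n) := by
  have hCG : 1 ≤ P.CG := P.hG.one_le
  have hCG0 : 0 < P.CG := by linarith
  have hCd0 : 0 < Cd := by linarith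
  have hρ₀ : 0 < P.ρ₀ := P.hG.rho_pos
  obtain ⟨c, hc⟩ : ∃ c : ℝ, c = P.ρ₀ / (4 * Cd * P.CG) := ⟨_, rfl⟩
  have hc0 : 0 < c := by
    rw [hc]
    positivity
  refine ⟨c, hc0, ?_⟩
  intro D hd C₅ t₀ nd hnd ρ hρ q hq hdq S' hS' _
  have hf0 : ∀ x, 0 ≤ D.f x := D.hf.nonneg
  have hηm : Measurable nd.η := hnd.smooth.continuous.measurable
  have hηb : ∀ x, |nd.η x| ≤ 1 := fun x => by
    rw [abs_of_nonneg (hnd.nonneg x)]
    exact hnd.le_one x
  have hint : Integrable (fun x => nd.η x * D.gq q x) := mul_int D q nd.η hηm 1 hηb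
  have hfi : Integrable (fun x => nd.η x * D.f x ^ n) := by
    refine D.hf.intn.bdd_mul (c := 1) hηm.aestronglyMeasurable ?_
    exact ae_of_all _ fun x => by
      rw [Real.norm_eq_abs]
      exact hηb x
  have hbm := bad_meas D c nd.k
  obtain ⟨h1, h2, h3⟩ := dyn_ae D
  -- the sign
  have hsign : ∀ᵐ x : E n, x ∉ bad D c nd.k → 0 ≤ nd.η x * D.gq q x := by
    filter_upwards [h1, h3 q hq, u_base hd nd hnd] with x hx1 hx3 hx4 hxb
    by_cases hη : nd.η x = 0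
    · rw [hη, zero_mul]
    refine mul_nonneg (hnd.nonneg x) (hx3 fun hx64 => ?_)
    have hxy : x ∈ ball nd.y (1 / p2 nd.k) := hnd.supp x hη
    have hN : ∀ K, NN D.f K nd.k x ≤ c := by
      intro K
      by_contra hK
      exact hxb ⟨K, not_le.1 hK⟩
    have h5 := hx4 hxy c hN
    have h6 := base_near hd nd hnd x hxy
    have h7 := P.hG.dd_lip q hq (D.u x) (hx1 hx64).1 (D.base nd) h6.1
    have h8 : P.CG * ‖D.u x - D.base nd‖ ≤ P.ρ₀ := by
      calc P.CG * ‖D.u x - D.base nd‖ ≤ P.CG * (4 * Cd * c) :=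
            mul_le_mul_of_nonneg_left h5 hCG0.le
        _ = P.ρ₀ := by
            rw [hc]
            field_simp
    have h9 := (abs_le.1 h7).2
    linarith
  have hbd : ∀ x, |nd.η x * D.gq q x| ≤ P.CG * (nd.η x * D.f x ^ n) := by
    intro x
    rw [abs_mul, abs_of_nonneg (hnd.nonneg x)]
    calc nd.η x * |D.gq q x| ≤ nd.η x * (P.CG * D.f x ^ n) :=
          mul_le_mul_of_nonneg_left (gq_bd D q x) (hnd.nonneg x)
      _ = P.CG * (nd.η x * D.f x ^ n) := by ring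
  have hsplit : (∫ x in S', nd.η x * D.gq q x) - D.Phi nd.η q =
      ∫ x in S'ᶜ, -(nd.η x * D.gq q x) := by
    unfold Dyn.Phi
    rw [← integral_add_compl hS' hint, integral_neg]
    ring
  rw [hsplit, ← integral_indicator hS'.compl, ← integral_const_mul, ← integral_indicator hbm]
  refine integral_mono_ae (hint.neg.indicator hS'.compl) ?_ ?_
  · exact (hfi.const_mul P.CG).indicator hbm
  filter_upwards [hsign] with x hx
  have h0 : 0 ≤ P.CG * (nd.η x * D.f x ^ n) :=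
    mul_nonneg hCG0.le (mul_nonneg (hnd.nonneg x) (pow_nonneg (hf0 x) n))
  by_cases hxb : x ∈ bad D c nd.k
  · rw [indicator_of_mem hxb]
    by_cases hxs : x ∈ S'ᶜ
    · rw [indicator_of_mem hxs]
      exact (neg_le_abs _).trans (hbd x)
    · rw [indicator_of_notMem hxs]
      exact h0
  · rw [indicator_of_notMem hxb]
    by_cases hxs : x ∈ S'ᶜ
    · rw [indicator_of_mem hxs]
      linarith [hx hxb]
    · rw [indicator_of_notMem hxs]

end H87NR
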