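import Pool.Agent.H87.NR.CHI
import Pool.Agent.H87.NR.PSI

/-!
# [H87 NR LOCC] Where the children live

Proof. `(ch ..).η x ≠ 0` gives `nd.η x ≠ 0`, `tp j x ≠ tp (j+1) x`, `P.psi (j+T+n) z x ≠ 0`. So
`x ∈ ball nd.y (1 / p2 nd.k)` (`supp`), `x ∈ ball 0 1` (`supp1`), `x ∈ ball zc (1 / p2 (j+T))`
(`psi_supp`). If `nd.k < j`: `tp j x ≠ 0` (otherwise `0 ≤ tp (j+1) x ≤ tp j x = 0`), so
`‖x - x₀‖ < 2 / p2 j`; if `j = nd.k`: `‖x - x₀‖ ≤ ‖x - nd.y‖ + ‖nd.y - x₀‖ ≤ 3 / p2 j`. If `j < Ke` and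
`‖x - x₀‖ < 1 / (2 * p2 j) = 1 / p2 (j+1)`, then `tp (j+1) x = 1` and `tp j x = 1`
(`tp_facts`, last item, `1 / p2 (j+1) ≤ 1 / p2 j`), contradiction.
`tp_ne`: if `a ≤ j` and `(ch ..).η x ≠ 0` then `tp a x ≠ 0`: `tp a x ≥ tp j x > 0`
(induction from `tp_facts`), and `nd.η x ≠ 0`.
-/

set_option autoImplicit false

namespace H87NR

open H60NH H60NT MeasureTheory Metric Set Filter Topology
open scoped ENNReal NNReal ContDiff

private theorem locc_p2 (k : ℕ) : 0 < p2 k := by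
  unfold p2
  positivity

private theorem locc_anti {n m : ℕ} (P : Par n m) (x₀ : E n) (k Ke a b : ℕ) (hab : a ≤ b) (x : E n) :
    tp P x₀ k Ke b x ≤ tp P x₀ k Ke a x := by
  induction b, hab using Nat.le_induction with
  | base => exact le_rfl
  | succ b hb ih => exact ((tp_facts P x₀ k Ke b).2.2.2.1 x).trans ih

private theorem locc_ne {n m : ℕ} (P : Par n m) (nd : Node n) (x₀ : E n)
    (T Ke j : ℕ) (z : Fin n → ℤ) (x : E n) (hx : (ch P nd x₀ T Ke j z).η x ≠ 0) :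
    nd.η x ≠ 0 ∧ tp P x₀ nd.k Ke j x ≠ tp P x₀ nd.k Ke (j + 1) x ∧ tp P x₀ nd.k Ke j x ≠ 0 ∧
      P.psi (j + T + n) z x ≠ 0 := by
  have hη : (ch P nd x₀ T Ke j z).η x = nd.η x * (tp P x₀ nd.k Ke j x -
      tp P x₀ nd.k Ke (j + 1) x) * P.psi (j + T + n) z x := rfl
  rw [hη] at hx
  have h1 : nd.η x ≠ 0 := by
    intro h
    apply hx
    rw [h, zero_mul, zero_mul]
  have h2 : tp P x₀ nd.k Ke j x ≠ tp P x₀ nd.k Ke (j + 1) x := by
    intro h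
    apply hx
    rw [h, sub_self, mul_zero, zero_mul]
  refine ⟨h1, h2, ?_, ?_⟩
  · intro h
    apply h2
    have h3 := (tp_facts P x₀ nd.k Ke j).2.2.2.1 x
    have h4 := (tp_facts P x₀ nd.k Ke (j + 1)).2.1 x
    rw [h] at h3 ⊢
    linarith
  · intro h
    apply hx
    rw [h, mul_zero]

theorem ch_loc {n m : ℕ} (P : Par n m) (nd : Node n) (hnd : nd.OK (L0 P)) (x₀ : E n)
    (hx₀ : ‖x₀ - nd.y‖ ≤ 2 / p2 nd.k) (T Ke j : ℕ) (z : Fin n → ℤ) (hj : nd.k ≤ j) (x : E n)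
    (hx : (ch P nd x₀ T Ke j z).η x ≠ 0) :
    x ∈ ball nd.y (1 / p2 nd.k) ∧ x ∈ ball (zc (j + T + n) z) (1 / p2 (j + T)) ∧
    x ∈ ball (0 : E n) 1 ∧ ‖x - x₀‖ ≤ 3 / p2 j ∧ (j < Ke → 1 / (2 * p2 j) ≤ ‖x - x₀‖) := by
  obtain ⟨h1, h2, h3, h4⟩ := locc_ne P nd x₀ T Ke j z x hx
  have hp := locc_p2 j
  have e1 : p2 (j + 1) = 2 * p2 j := by unfold p2; ring
  refine ⟨hnd.supp x h1, psi_supp P (j + T) z x h4, hnd.supp1 x h1, ?_, ?_⟩
  · rcases Nat.eq_or_lt_of_le hj with h | h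
    · have h5 := hnd.supp x h1
      rw [mem_ball, dist_eq_norm] at h5
      rw [← h]
      have h6 := norm_sub_le_norm_sub_add_norm_sub x nd.y x₀
      rw [norm_sub_rev nd.y x₀] at h6
      have e : 3 / p2 nd.k = 1 / p2 nd.k + 2 / p2 nd.k := by ring
      rw [e]
      linarith
    · have h5 := (tp_facts P x₀ nd.k Ke j).2.2.2.2.2.1 x h h3
      have e : 3 / p2 j = 2 / p2 j + 1 / p2 j := by ring
      have : 0 < 1 / p2 j := by positivity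
      rw [e]
      linarith
  · intro hjK
    by_contra hc
    push Not at hc
    apply h2
    rw [(tp_facts P x₀ nd.k Ke j).2.2.2.2.2.2 x (by omega),
      (tp_facts P x₀ nd.k Ke (j + 1)).2.2.2.2.2.2 x (by omega)]
    · rw [e1]
      exact hc.le
    · refine hc.le.trans ?_
      apply one_div_le_one_div_of_le hp
      linarith

theorem tp_ne {n m : ℕ} (P : Par n m) (nd : Node n) (x₀ : E n)
    (T Ke a j : ℕ) (z : Fin n → ℤ) (haj : a ≤ j) (x : E n)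
    (hx : (ch P nd x₀ T Ke j z).η x ≠ 0) : nd.η x * tp P x₀ nd.k Ke a x ≠ 0 := by
  obtain ⟨h1, h2, h3, h4⟩ := locc_ne P nd x₀ T Ke j z x hx
  apply mul_ne_zero h1
  have h5 := locc_anti P x₀ nd.k Ke a j haj x
  have h6 := (tp_facts P x₀ nd.k Ke j).2.1 x
  have h7 : 0 < tp P x₀ nd.k Ke j x := lt_of_le_of_ne h6 (Ne.symm h3)
  exact (lt_of_lt_of_le h7 h5).ne'

theorem tp_anti {n m : ℕ} (P : Par n m) (x₀ : E n) (k Ke a b : ℕ) (hab : a ≤ b) (x : E n) :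
    tp P x₀ k Ke b x ≤ tp P x₀ k Ke a x :=
  locc_anti P x₀ k Ke a b hab x

end H87NR
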