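import Pool.Agent.H87.NR.LOCC
import Pool.Agent.H60.NT.Lat

/-!
# [H87 NR OVA] Bounded overlap: counting

`lat_count`: follows from `H60NT.psi_count` (NT/Lat, may be sorried; import it) with
`r = 16 * 2^n`. Directly: if `‖x - zc s z‖ < 16 * 2^n / p2 s` then `|p2 s * x i - z i| < 16 * 2^n` for all `i`, so
each `z i` lies in an open interval of length `32 * 2^n`, which contains at most `32 * 2^n + 1`
integers; `Finset.card_le_card` into `Fintype.piFinset` of these intervals.

`ch_count`: let `p = (j, z)` be a child and `x ∈ ball (zc) (16 / p2 (j+T))`. By `ch_loc` there is `x'`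
with `‖x' - zc‖ < 1 / p2 (j+T)`, `‖x' - x₀‖ ≤ 3 / p2 j` and (for `j < Ke`) `1 / (2 p2 j) ≤ ‖x' - x₀‖`.
As `17 / p2 (j+T) ≤ 1 / (8 p2 j)` (`T ≥ 20`), `t := ‖x - x₀‖` satisfies `3/8 ≤ p2 j * t ≤ 25/8 + ...`, in
particular `3/8 ≤ p2 j * t ≤ 4` for `j < Ke`: at most `4` values of `j` (if `j₀` is the smallest, then
`p2 j t = 2^(j-j₀) p2 j₀ t ≥ 2^(j-j₀) 3/8`, so `2^(j-j₀) ≤ 32/3`, `j - j₀ ≤ 3`), and `j = Ke` is a fifth.
For each `j` there are at most `(32 * 2^n + 1)^n` points `z` (`lat_count` with `s = j + T + n`, since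
`16 / p2 (j+T) = 16 * 2^n / p2 (j+T+n)`). `5 ≤ 8`.
-/

set_option autoImplicit false

namespace H87NR

open H60NH H60NT MeasureTheory Metric Set Filter Topology
open scoped ENNReal NNReal ContDiff

private theorem ova_p2 (k : ℕ) : 0 < p2 k := by
  unfold p2
  positivity

private theorem ova_mono {i j : ℕ} (h : i ≤ j) : p2 i ≤ p2 j := by
  unfold p2
  exact pow_le_pow_right₀ (by norm_num) h

open Classical in
theorem lat_count (n s : ℕ) (x : E n) :
    (((box n s).filter (fun z => ‖x - zc s z‖ < 16 * 2 ^ n / p2 s)).card : ℝ) ≤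
      (32 * 2 ^ n + 1) ^ n := by
  have hp := ova_p2 s
  set r : ℝ := 16 * 2 ^ n with hr
  have hr0 : 0 ≤ r := by positivity
  have h1 : (box n s).filter (fun z => ‖x - zc s z‖ < r / p2 s) ⊆
      Fintype.piFinset (fun i => Finset.Icc ⌈p2 s * x i - r⌉ ⌊p2 s * x i + r⌋) := by
    intro z hz
    rw [Finset.mem_filter] at hz
    rw [Fintype.mem_piFinset]
    intro i
    rw [Finset.mem_Icc, Int.ceil_le, Int.le_floor]
    have h2 := (lat_coord (x - zc s z) i).trans hz.2.le
    have e : (x - zc s z) i = (p2 s * x i - z i) / p2 s := by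
      unfold zc
      simp only [PiLp.sub_apply]
      field_simp
    rw [e, abs_div, abs_of_pos hp, div_le_div_iff_of_pos_right hp, abs_le] at h2
    constructor <;> linarith [h2.1, h2.2]
  have h2 := Finset.card_le_card h1
  rw [Fintype.card_piFinset] at h2
  have h3 : (((box n s).filter (fun z => ‖x - zc s z‖ < r / p2 s)).card : ℝ) ≤
      ∏ i : Fin n, ((Finset.Icc ⌈p2 s * x i - r⌉ ⌊p2 s * x i + r⌋).card : ℝ) := by
    exact_mod_cast h2
  refine h3.trans ?_
  have e32 : (32 * 2 ^ n + 1 : ℝ) = 2 * r + 1 := by rw [hr]; ring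
  rw [e32]
  have h4 : ∀ i ∈ (Finset.univ : Finset (Fin n)),
      ((Finset.Icc ⌈p2 s * x i - r⌉ ⌊p2 s * x i + r⌋).card : ℝ) ≤ 2 * r + 1 := by
    intro i _
    rw [Int.card_Icc]
    have h5 := Int.floor_le (p2 s * x i + r)
    have h6 := Int.le_ceil (p2 s * x i - r)
    by_cases h7 : 0 ≤ ⌊p2 s * x i + r⌋ + 1 - ⌈p2 s * x i - r⌉
    · have h8 : (((⌊p2 s * x i + r⌋ + 1 - ⌈p2 s * x i - r⌉).toNat : ℤ) : ℝ) =
          ((⌊p2 s * x i + r⌋ + 1 - ⌈p2 s * x i - r⌉ : ℤ) : ℝ) := by
        rw [Int.toNat_of_nonneg h7]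
      rw [Int.cast_natCast] at h8
      rw [h8]
      push_cast
      linarith
    · rw [Int.toNat_of_nonpos (by omega)]
      simp only [Nat.cast_zero]
      linarith
  refine (Finset.prod_le_prod (fun i _ => by positivity) h4).trans ?_
  rw [Finset.prod_const, Finset.card_univ, Fintype.card_fin]

open Classical in
theorem ch_count {n m : ℕ} (P : Par n m) (nd : Node n) (hnd : nd.OK (L0 P)) (x₀ : E n)
    (hx₀ : ‖x₀ - nd.y‖ ≤ 2 / p2 nd.k) (T Ke : ℕ) (hT : 20 ≤ T) (x : E n) :
    (((chs P nd x₀ T Ke).filter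
      (fun p => x ∈ ball (zc (p.1 + T + n) p.2) (16 / p2 (p.1 + T)))).card : ℝ) ≤ C1 n := by
  set F := (chs P nd x₀ T Ke).filter
      (fun p => x ∈ ball (zc (p.1 + T + n) p.2) (16 / p2 (p.1 + T))) with hF
  have hmem : ∀ p ∈ F, (nd.k ≤ p.1 ∧ p.1 ≤ Ke) ∧ p.2 ∈ box n (p.1 + T + n) ∧
      ‖x - zc (p.1 + T + n) p.2‖ < 16 / p2 (p.1 + T) ∧
      ∃ x', (ch P nd x₀ T Ke p.1 p.2).η x' ≠ 0 := by
    intro p hp
    rw [hF, Finset.mem_filter] at hp
    obtain ⟨h1, h2⟩ := hp
    unfold chs at h1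
    rw [Finset.mem_filter, Finset.mem_sigma, Finset.mem_Icc] at h1
    rw [mem_ball, dist_eq_norm] at h2
    exact ⟨h1.1.1, h1.1.2, h2, h1.2⟩
  -- fibres
  have hfib : ∀ a ∈ F.image (fun p => p.1), (F.filter (fun p => p.1 = a)).card ≤
      (32 * 2 ^ n + 1) ^ n := by
    intro a _
    have h1 : (F.filter (fun p => p.1 = a)).card ≤
        ((box n (a + T + n)).filter
          (fun z => ‖x - zc (a + T + n) z‖ < 16 * 2 ^ n / p2 (a + T + n))).card := by
      apply Finset.card_le_card_of_injOn (fun p => p.2)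
      · intro p hp
        rw [Finset.mem_coe, Finset.mem_filter] at hp
        obtain ⟨hp1, hp2⟩ := hp
        obtain ⟨-, g2, g3, -⟩ := hmem p hp1
        rw [Finset.mem_coe, Finset.mem_filter]
        rw [hp2] at g2 g3
        refine ⟨g2, ?_⟩
        have e : 16 * 2 ^ n / p2 (a + T + n) = 16 / p2 (a + T) := by
          unfold p2
          rw [pow_add 2 (a + T) n]
          field_simp
        rw [e]
        exact g3
      · rintro ⟨p1, p2'⟩ hp ⟨q1, q2⟩ hq hpq
        rw [Finset.mem_coe, Finset.mem_filter] at hp hq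
        simp only at hpq hp hq
        rw [hpq, hp.2, hq.2]
    have h2 := lat_count n (a + T + n) x
    have h3 : (((box n (a + T + n)).filter
          (fun z => ‖x - zc (a + T + n) z‖ < 16 * 2 ^ n / p2 (a + T + n))).card : ℝ) ≤
        (((32 * 2 ^ n + 1) ^ n : ℕ) : ℝ) := by
      push_cast
      exact h2
    exact h1.trans (by exact_mod_cast h3)
  have hcard := Finset.card_le_mul_card_image F ((32 * 2 ^ n + 1) ^ n) hfib
  -- the number of rings
  set t := ‖x - x₀‖ with ht
  have hring : ∀ j ∈ F.image (fun p => p.1), j < Ke → 3 / 8 ≤ p2 j * t ∧ p2 j * t ≤ 4 := by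
    intro j hj hjK
    rw [Finset.mem_image] at hj
    obtain ⟨p, hp, rfl⟩ := hj
    obtain ⟨⟨g1, g2⟩, g3, g4, x', g5⟩ := hmem p hp
    obtain ⟨l1, l2, l3, l4, l5⟩ := ch_loc P nd hnd x₀ hx₀ T Ke p.1 p.2 g1 x' g5
    have l6 := l5 hjK
    rw [mem_ball, dist_eq_norm] at l2
    have hp0 := ova_p2 p.1
    have hT' : 136 * p2 p.1 ≤ p2 (p.1 + T) := by
      have h1 : p2 (p.1 + 8) = 256 * p2 p.1 := by unfold p2; ring
      have h2 : p2 (p.1 + 8) ≤ p2 (p.1 + T) := ova_mono (by omega)
      linarith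
    have hp1 := ova_p2 (p.1 + T)
    have h17 : 17 / p2 (p.1 + T) ≤ 1 / (8 * p2 p.1) := by
      rw [div_le_div_iff₀ hp1 (by positivity)]
      linarith
    have e17 : 16 / p2 (p.1 + T) + 1 / p2 (p.1 + T) = 17 / p2 (p.1 + T) := by ring
    have hxx' : ‖x - x'‖ ≤ 1 / (8 * p2 p.1) := by
      have h3 := norm_sub_le_norm_sub_add_norm_sub x (zc (p.1 + T + n) p.2) x'
      rw [norm_sub_rev (zc (p.1 + T + n) p.2) x'] at h3
      linarith
    have h4 := norm_sub_le_norm_sub_add_norm_sub x x' x₀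
    have h5 := norm_sub_le_norm_sub_add_norm_sub x' x x₀
    rw [norm_sub_rev x' x] at h5
    have e1 : 1 / (8 * p2 p.1) = (1 / 8) * (1 / p2 p.1) := by field_simp
    have e2 : 1 / (2 * p2 p.1) = (1 / 2) * (1 / p2 p.1) := by field_simp
    have e3 : 3 / p2 p.1 = 3 * (1 / p2 p.1) := by ring
    have e4 : p2 p.1 * (1 / p2 p.1) = 1 := by field_simp
    rw [e1] at hxx'
    rw [e2] at l6
    rw [e3] at l4
    set w := 1 / p2 p.1
    have g6 : 3 / 8 * w ≤ t := by linarith
    have g7 : t ≤ 25 / 8 * w := by linarith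
    constructor
    · calc (3 / 8 : ℝ) = p2 p.1 * (3 / 8 * w) := by
            rw [show p2 p.1 * (3 / 8 * w) = 3 / 8 * (p2 p.1 * w) by ring, e4, mul_one]
        _ ≤ p2 p.1 * t := mul_le_mul_of_nonneg_left g6 hp0.le
    · calc p2 p.1 * t ≤ p2 p.1 * (25 / 8 * w) := mul_le_mul_of_nonneg_left g7 hp0.le
        _ = 25 / 8 * (p2 p.1 * w) := by ring
        _ ≤ 4 := by rw [e4]; norm_num
  have hJ : (F.image (fun p => p.1)).card ≤ 8 := by
    set J := (F.image (fun p => p.1)).filter (fun j => j < Ke) with hJd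
    have h1 : F.image (fun p => p.1) ⊆ insert Ke J := by
      intro j hj
      rw [Finset.mem_insert, hJd, Finset.mem_filter]
      have hj' := hj
      rw [Finset.mem_image] at hj'
      obtain ⟨p, hp, rfl⟩ := hj'
      rcases Nat.eq_or_lt_of_le (hmem p hp).1.2 with h | h
      · left; exact h
      · right; exact ⟨hj, h⟩
    have h2 : J.card ≤ 4 := by
      rcases J.eq_empty_or_nonempty with h | h
      · rw [h]
        simp
      · set j0 := J.min' h with hj0
        have hj0J : j0 ∈ J := Finset.min'_mem J h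
        have h3 : J ⊆ Finset.Icc j0 (j0 + 3) := by
          intro j hj
          rw [Finset.mem_Icc]
          refine ⟨Finset.min'_le J j hj, ?_⟩
          by_contra hc
          push Not at hc
          rw [hJd, Finset.mem_filter] at hj hj0J
          have k1 := (hring j hj.1 hj.2).2
          have k2 := (hring j0 hj0J.1 hj0J.2).1
          have k3 : p2 (j0 + 4) ≤ p2 j := ova_mono hc
          have k4 : p2 (j0 + 4) = 16 * p2 j0 := by unfold p2; ring
          rw [k4] at k3
          have k5 : 0 ≤ t := norm_nonneg _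
          nlinarith
        have h4 := Finset.card_le_card h3
        rw [Nat.card_Icc] at h4
        omega
    have h5 := (Finset.card_le_card h1).trans (Finset.card_insert_le _ _)
    omega
  have hfin : F.card ≤ (32 * 2 ^ n + 1) ^ n * 8 :=
    hcard.trans (Nat.mul_le_mul_left _ hJ)
  have hfin' : (F.card : ℝ) ≤ (((32 * 2 ^ n + 1) ^ n * 8 : ℕ) : ℝ) := by exact_mod_cast hfin
  refine hfin'.trans (le_of_eq ?_)
  unfold C1
  push_cast
  ring

end H87NR
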