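import Pool.Agent.H87.NR.OVA

/-!
# [H87 NR OVB] The energies of the children

Proof. `D.Ds (ch ..) = ∫ indicator (ball zc (16 / p2 (j+T))) f^n`. The ball is contained in
`ball nd.y (16 / p2 nd.k)`: there is `x'` in both supports, `‖zc - nd.y‖ ≤ 1 / p2 (j+T) + 1 / p2 nd.k`
(`ch_loc`), and `17 / p2 (j+T) ≤ 1 / p2 nd.k`. Sum over the children, exchange sum and integral
(`integral_finset_sum`, `f^n` is integrable: `D.hf.intn`), and use `ch_count` pointwise:
`∑_p indicator_p(x) ≤ C1 n * indicator (ball nd.y (16 / p2 nd.k)) x`.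
-/

set_option autoImplicit false

namespace H87NR

open H60NH H60NT MeasureTheory Metric Set Filter Topology
open scoped ENNReal NNReal ContDiff

private theorem ovb_p2 (k : ℕ) : 0 < p2 k := by
  unfold p2
  positivity

theorem ch_ball {n m : ℕ} (P : Par n m) (nd : Node n) (hnd : nd.OK (L0 P)) (x₀ : E n)
    (hx₀ : ‖x₀ - nd.y‖ ≤ 2 / p2 nd.k) (T Ke j : ℕ) (z : Fin n → ℤ) (hT : 20 ≤ T) (hj : nd.k ≤ j)
    (hne : ∃ x, (ch P nd x₀ T Ke j z).η x ≠ 0) :
    ball (zc (j + T + n) z) (16 / p2 (j + T)) ⊆ ball nd.y (16 / p2 nd.k) := by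
  obtain ⟨x', hx'⟩ := hne
  obtain ⟨l1, l2, l3, l4, l5⟩ := ch_loc P nd hnd x₀ hx₀ T Ke j z hj x' hx'
  intro w hw
  rw [mem_ball, dist_eq_norm] at hw l1 l2 ⊢
  have h1 := norm_sub_le_norm_sub_add_norm_sub w (zc (j + T + n) z) x'
  rw [norm_sub_rev (zc (j + T + n) z) x'] at h1
  have h2 := norm_sub_le_norm_sub_add_norm_sub w x' nd.y
  have hk := ovb_p2 nd.k
  have hjT := ovb_p2 (j + T)
  have h3 : 17 * p2 nd.k ≤ p2 (j + T) := by
    have e : p2 (nd.k + 5) = 32 * p2 nd.k := by unfold p2; ring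
    have h4 : p2 (nd.k + 5) ≤ p2 (j + T) := by
      unfold p2
      exact pow_le_pow_right₀ (by norm_num) (by omega)
    linarith
  have h5 : 17 / p2 (j + T) ≤ 1 / p2 nd.k := by
    rw [div_le_div_iff₀ hjT hk]
    linarith
  have e1 : 16 / p2 (j + T) + 1 / p2 (j + T) = 17 / p2 (j + T) := by ring
  have e2 : 16 / p2 nd.k = 16 * (1 / p2 nd.k) := by ring
  have h6 : 0 < 1 / p2 nd.k := by positivity
  rw [e2]
  linarith

theorem ch_Ds_sum {n m : ℕ} {P : Par n m} (D : Dyn P) (nd : Node n) (hnd : nd.OK (L0 P))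
    (x₀ : E n) (hx₀ : ‖x₀ - nd.y‖ ≤ 2 / p2 nd.k) (T Ke : ℕ) (hT : 20 ≤ T) :
    ∑ p ∈ chs P nd x₀ T Ke, D.Ds (ch P nd x₀ T Ke p.1 p.2) ≤ C1 n * D.Ds nd := by
  classical
  have hfn : Integrable (fun x => D.f x ^ n) := D.hf.intn
  have h0 : ∀ x, 0 ≤ D.f x ^ n := fun x => pow_nonneg (D.hf.nonneg x) n
  have e1 : ∀ p : Ix n, D.Ds (ch P nd x₀ T Ke p.1 p.2) =
      ∫ x, (ball (zc (p.1 + T + n) p.2) (16 / p2 (p.1 + T))).indicator (fun x => D.f x ^ n) x := by
    intro p
    rw [integral_indicator measurableSet_ball]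
    rfl
  have e2 : C1 n * D.Ds nd =
      ∫ x, C1 n * (ball nd.y (16 / p2 nd.k)).indicator (fun x => D.f x ^ n) x := by
    rw [integral_const_mul, integral_indicator measurableSet_ball]
    rfl
  rw [Finset.sum_congr rfl (fun p _ => e1 p), e2, ← integral_finsetSum _
    (fun p _ => hfn.indicator measurableSet_ball)]
  apply integral_mono
  · exact integrable_finsetSum _ (fun p _ => hfn.indicator measurableSet_ball)
  · exact (hfn.indicator measurableSet_ball).const_mul _
  · intro x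
    simp only
    have e3 : ∑ p ∈ chs P nd x₀ T Ke,
        (ball (zc (p.1 + T + n) p.2) (16 / p2 (p.1 + T))).indicator (fun x => D.f x ^ n) x =
        (((chs P nd x₀ T Ke).filter
          (fun p => x ∈ ball (zc (p.1 + T + n) p.2) (16 / p2 (p.1 + T)))).card : ℝ) *
          D.f x ^ n := by
      rw [Finset.card_filter, Nat.cast_sum, Finset.sum_mul]
      apply Finset.sum_congr rfl
      intro p _
      by_cases h : x ∈ ball (zc (p.1 + T + n) p.2) (16 / p2 (p.1 + T))
      · rw [indicator_of_mem h, if_pos h]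
        simp
      · rw [indicator_of_notMem h, if_neg h]
        simp
    rw [e3]
    by_cases hx : x ∈ ball nd.y (16 / p2 nd.k)
    · rw [indicator_of_mem hx]
      apply mul_le_mul_of_nonneg_right _ (h0 x)
      exact ch_count P nd hnd x₀ hx₀ T Ke hT x
    · rw [indicator_of_notMem hx, mul_zero]
      have h5 : (chs P nd x₀ T Ke).filter
          (fun p => x ∈ ball (zc (p.1 + T + n) p.2) (16 / p2 (p.1 + T))) = ∅ := by
        rw [Finset.filter_eq_empty_iff]
        intro p hp hxp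
        unfold chs at hp
        rw [Finset.mem_filter, Finset.mem_sigma, Finset.mem_Icc] at hp
        exact hx (ch_ball P nd hnd x₀ hx₀ T Ke p.1 p.2 hT hp.1.1.1 hp.2 hxp)
      rw [h5]
      simp

end H87NR
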