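import Pool.Agent.H87.NR.DISB

/-!
# [H87 NR PASS] (2b): the condition on the sets `S'` passes to the children

Proof. Let `K' = max K c.k`. `P.dd q (base c) ≤ P.dd q (base nd) + CG ‖base c - base nd‖` (`P.hG.dd_lip`;
`base_near` gives that both points are in `N`), `‖base c - base nd‖ ≤ Cd (3 * 2^n + 4) NN f c.k nd.k x`
(`base_base`), and `NN f c.k nd.k x + NN f K' c.k x = NN f K' nd.k x` (`Finset.sum_Ico_consecutive`),
`NN f K c.k x ≤ NN f K' c.k x` (`NN_mono`). So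
`dd q (base c) + C₅ NN f K c.k x ≤ dd q (base nd) + C₅ NN f K' nd.k x ≤ t`.
-/

set_option autoImplicit false

namespace H87NR

open H60NH H60NT MeasureTheory Metric Set Filter Topology
open scoped ENNReal NNReal ContDiff

theorem pass {n m : ℕ} {P : Par n m} {D : Dyn P} {Cd L C₅ t : ℝ} (hd : Dist D Cd)
    (h5 : P.CG * (Cd * (3 * 2 ^ n + 4)) ≤ C₅) (nd c : Node n)
    (hnd : nd.OK L) (hc : c.OK L) (hk : nd.k < c.k) (x : E n) (hx : x ∈ ball nd.y (1 / p2 nd.k))
    (hx' : x ∈ ball c.y (1 / p2 c.k)) (q : E m) (hq : q ∈ P.N)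
    (h : ∀ K : ℕ, P.dd q (D.base nd) + C₅ * NN D.f K nd.k x ≤ t) (K : ℕ) :
    P.dd q (D.base c) + C₅ * NN D.f K c.k x ≤ t := by
  have hCG : 0 ≤ P.CG := zero_le_one.trans P.hG.one_le
  have hCd : 0 ≤ Cd := zero_le_one.trans hd.one_le
  have hC₅ : 0 ≤ C₅ := le_trans (by positivity) h5
  have h1 := base_base hd nd c hnd hc hk x hx hx'
  have h2 := (base_near hd nd hnd x hx).1
  have h3 := (base_near hd c hc x hx').1
  have h4 := (abs_le.1 (P.hG.dd_lip q hq (D.base c) h3 (D.base nd) h2)).2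
  have hN0 : 0 ≤ NN D.f c.k nd.k x := NN_nonneg D.hf _ _ x
  have h6 : P.CG * ‖D.base c - D.base nd‖ ≤ C₅ * NN D.f c.k nd.k x := by
    calc P.CG * ‖D.base c - D.base nd‖
        ≤ P.CG * (Cd * (3 * 2 ^ n + 4) * NN D.f c.k nd.k x) := mul_le_mul_of_nonneg_left h1 hCG
      _ = P.CG * (Cd * (3 * 2 ^ n + 4)) * NN D.f c.k nd.k x := by ring
      _ ≤ C₅ * NN D.f c.k nd.k x := mul_le_mul_of_nonneg_right h5 hN0
  have h7 : NN D.f c.k nd.k x + NN D.f (max K c.k) c.k x = NN D.f (max K c.k) nd.k x := by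
    unfold NN
    exact Finset.sum_Ico_consecutive _ hk.le (le_max_right _ _)
  have h8 : NN D.f K c.k x ≤ NN D.f (max K c.k) c.k x := NN_mono D.hf (le_max_left _ _) le_rfl x
  have h9 := h (max K c.k)
  have h10 := mul_le_mul_of_nonneg_left h8 hC₅
  rw [← h7] at h9
  linarith

end H87NR
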