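import Pool.Agent.H87.NR.Def

/-!
# [H87 NR PAYS] The sum of the payments

* `pay_br`: a point `x` is in `br x₀ j` iff `1/8 ≤ p2 j * ‖x - x₀‖ ≤ 16`: at most `8` values of `j`
  (`2^(j-j₀) ≤ 128` for the smallest `j₀`). A fixed `j` is in `Icc (k + i W - 4) (k + i W + W + 4)` for at
  most `3` values of `i` (`W ≥ 8`: `i, i + 1, i + 2, i + 3` would give `k + (i+3) W - 4 ≤ j ≤ k + i W + W + 4`,
  so `2 W ≤ 8`, contradiction). The rings are contained in `ball nd.y (16 / p2 nd.k)`: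
  `‖x - nd.y‖ ≤ 16 / p2 j + 2 / p2 nd.k`, `j ≥ nd.k + W - 4 ≥ nd.k + 4`. So the sum of the indicators is at
  most `24` times the indicator of the ball (`integral_finset_sum`, `f^n ≥ 0` integrable:
  `D.hf.intn`; `D.f x = gn (D.G x)`).
* `pay_geo`: `p2 k / p2 (mm i) ≤ (1/2)^(i W) ≤ ((1/2)^W)^i` and the geometric series with ratio
  `(1/2)^W ≤ 1/2`.
* `pay_U`: the intervals `Ico (k + i W) (k + i W + W)` are disjoint and contained in `Ico k (Ke + 1)`
  (`Finset.sum_biUnion`, or induction on `I`).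
-/

set_option autoImplicit false

namespace H87NR

open H60NH H60NT MeasureTheory Metric Set Filter Topology
open scoped ENNReal NNReal ContDiff

private theorem pa_p2 (k : ℕ) : 0 < p2 k := by
  unfold p2
  positivity

private theorem card_spread (s : Finset ℕ) (d : ℕ) (h : ∀ a ∈ s, ∀ b ∈ s, b ≤ a + d) :
    s.card ≤ d + 1 := by
  rcases s.eq_empty_or_nonempty with h0 | h0
  · rw [h0]
    simp
  · have h1 : s ⊆ Finset.Icc (s.min' h0) (s.min' h0 + d) := by
      intro b hb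
      rw [Finset.mem_Icc]
      exact ⟨s.min'_le b hb, h _ (s.min'_mem h0) b hb⟩
    refine (Finset.card_le_card h1).trans ?_
    rw [Nat.card_Icc]
    omega

private theorem br_meas {n : ℕ} (x₀ : E n) (j : ℕ) : MeasurableSet (br x₀ j) := by
  unfold br
  have h : Measurable (fun x : E n => ‖x - x₀‖) := (measurable_id.sub_const x₀).norm
  exact (measurableSet_le measurable_const h).inter (measurableSet_le h measurable_const)

private theorem br_sum8 {n m : ℕ} {P : Par n m} (D : Dyn P) (nd : Node n) (x₀ : E n)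
    (hx₀ : ‖x₀ - nd.y‖ ≤ 2 / p2 nd.k) (J : Finset ℕ) (hJ : ∀ j ∈ J, nd.k + 4 ≤ j) :
    ∑ j ∈ J, ∫ x in br x₀ j, D.f x ^ n ≤ 8 * D.Ds nd := by
  classical
  have hf0 : ∀ x, 0 ≤ D.f x := D.hf.nonneg
  have hfi : Integrable (fun x => D.f x ^ n) := D.hf.intn
  have h1 : ∀ j ∈ J, ∫ x in br x₀ j, D.f x ^ n =
      ∫ x, (br x₀ j).indicator (fun x => D.f x ^ n) x := fun j _ =>
    (integral_indicator (br_meas x₀ j)).symm
  rw [Finset.sum_congr rfl h1, ← integral_finsetSum _ fun j _ => hfi.indicator (br_meas x₀ j)]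
  have h2 : 8 * D.Ds nd =
      ∫ x, (ball nd.y (16 / p2 nd.k)).indicator (fun x => 8 * D.f x ^ n) x := by
    rw [integral_indicator measurableSet_ball, integral_const_mul]
    rfl
  rw [h2]
  refine integral_mono (integrable_finsetSum _ fun j _ => hfi.indicator (br_meas x₀ j))
    ((hfi.const_mul 8).indicator measurableSet_ball) fun x => ?_
  have hpk := pa_p2 nd.k
  have hin : ∀ j ∈ J, x ∈ br x₀ j → x ∈ ball nd.y (16 / p2 nd.k) := by
    intro j hj hx
    have hpj := pa_p2 j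
    have h3 : 16 / p2 j ≤ 1 / p2 nd.k := by
      rw [div_le_div_iff₀ hpj hpk, one_mul]
      have h4 : p2 j = p2 nd.k * 2 ^ (j - nd.k) := by
        unfold p2
        rw [← pow_add]
        congr 1
        have := hJ j hj
        omega
      have h5 : (2 : ℝ) ^ 4 ≤ 2 ^ (j - nd.k) :=
        pow_le_pow_right₀ (by norm_num) (by have := hJ j hj; omega)
      rw [h4]
      nlinarith
    rw [mem_ball, dist_eq_norm]
    have h6 : x - nd.y = (x - x₀) + (x₀ - nd.y) := by abel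
    rw [h6]
    refine (norm_add_le _ _).trans_lt ?_
    have h7 : 16 / p2 nd.k = 16 * (1 / p2 nd.k) := by ring
    have h8 : 2 / p2 nd.k = 2 * (1 / p2 nd.k) := by ring
    have h9 : 0 < 1 / p2 nd.k := by positivity
    have h10 := hx.2
    rw [h7]
    rw [h8] at hx₀
    linarith
  have hcard : (J.filter (fun j => x ∈ br x₀ j)).card ≤ 7 + 1 := by
    refine card_spread _ 7 ?_
    intro a ha b hb
    rw [Finset.mem_filter] at ha hb
    by_contra hc
    have h3 : a + 8 ≤ b := by omega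
    have hpa := pa_p2 a
    have hpb := pa_p2 b
    have h4 := ha.2.1
    have h5 := hb.2.2
    have h6 : 1 / (8 * p2 a) ≤ 16 / p2 b := h4.trans h5
    rw [div_le_div_iff₀ (by positivity) hpb, one_mul] at h6
    have h7 : p2 b = p2 a * 2 ^ (b - a) := by
      unfold p2
      rw [← pow_add]
      congr 1
      omega
    have h8 : (2 : ℝ) ^ 8 ≤ 2 ^ (b - a) := pow_le_pow_right₀ (by norm_num) (by omega)
    rw [h7] at h6
    nlinarith
  have h3 : ∑ j ∈ J, (br x₀ j).indicator (fun x => D.f x ^ n) x =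
      ((J.filter (fun j => x ∈ br x₀ j)).card : ℝ) * D.f x ^ n := by
    rw [← nsmul_eq_mul, ← Finset.sum_const, Finset.sum_filter]
    refine Finset.sum_congr rfl fun j _ => ?_
    rfl
  show ∑ j ∈ J, (br x₀ j).indicator (fun x => D.f x ^ n) x ≤ _
  rw [h3]
  by_cases hx : x ∈ ball nd.y (16 / p2 nd.k)
  · rw [indicator_of_mem hx]
    refine mul_le_mul_of_nonneg_right ?_ (pow_nonneg (hf0 x) n)
    exact_mod_cast hcard
  · rw [indicator_of_notMem hx]
    have h4 : J.filter (fun j => x ∈ br x₀ j) = ∅ := by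
      rw [Finset.filter_eq_empty_iff]
      intro j hj hxj
      exact hx (hin j hj hxj)
    rw [h4, Finset.card_empty, Nat.cast_zero, zero_mul]

private theorem sum_blocks (I : ℕ) (A : ℕ → Finset ℕ) (J : Finset ℕ)
    (hA : ∀ i ∈ Finset.Icc 1 I, A i ⊆ J)
    (hc : ∀ j, ((Finset.Icc 1 I).filter (fun i => j ∈ A i)).card ≤ 3) (a : ℕ → ℝ)
    (ha : ∀ j, 0 ≤ a j) : ∑ i ∈ Finset.Icc 1 I, ∑ j ∈ A i, a j ≤ 3 * ∑ j ∈ J, a j := by
  classical
  have h1 : ∀ i ∈ Finset.Icc 1 I, ∑ j ∈ A i, a j = ∑ j ∈ J, if j ∈ A i then a j else 0 := by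
    intro i hi
    rw [← Finset.sum_filter]
    refine Finset.sum_congr ?_ fun _ _ => rfl
    ext j
    rw [Finset.mem_filter]
    exact ⟨fun h => ⟨hA i hi h, h⟩, fun h => h.2⟩
  rw [Finset.sum_congr rfl h1, Finset.sum_comm, Finset.mul_sum]
  refine Finset.sum_le_sum fun j _ => ?_
  rw [← Finset.sum_filter, Finset.sum_const, nsmul_eq_mul]
  refine mul_le_mul_of_nonneg_right ?_ (ha j)
  exact_mod_cast hc j

theorem pay_br {n m : ℕ} {P : Par n m} (D : Dyn P) (nd : Node n) (x₀ : E n)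
    (hx₀ : ‖x₀ - nd.y‖ ≤ 2 / p2 nd.k) (W I : ℕ) (hW : 8 ≤ W) :
    ∑ i ∈ Finset.Icc 1 I, ∑ j ∈ Finset.Icc (nd.k + i * W - 4) (nd.k + i * W + W + 4),
      ∫ x in br x₀ j, D.f x ^ n ≤ 100 * D.Ds nd := by
  have hf0 : ∀ x, 0 ≤ D.f x := D.hf.nonneg
  obtain ⟨J, hJ⟩ : ∃ J : Finset ℕ, J = Finset.Icc (nd.k + 4) (nd.k + I * W + W + 4) := ⟨_, rfl⟩
  have ha : ∀ j, 0 ≤ ∫ x in br x₀ j, D.f x ^ n := fun j =>
    integral_nonneg fun x => pow_nonneg (hf0 x) n
  have h1 := sum_blocks I (fun i => Finset.Icc (nd.k + i * W - 4) (nd.k + i * W + W + 4)) J (by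
      intro i hi j hj
      rw [Finset.mem_Icc] at hi hj
      rw [hJ, Finset.mem_Icc]
      have h2 : W ≤ i * W := Nat.le_mul_of_pos_left W hi.1
      have h3 : i * W ≤ I * W := Nat.mul_le_mul_right W hi.2
      omega) (by
      intro j
      refine card_spread _ 2 ?_
      intro a ha b hb
      rw [Finset.mem_filter, Finset.mem_Icc, Finset.mem_Icc] at ha hb
      by_contra hc
      have h2 : (a + 3) * W ≤ b * W := Nat.mul_le_mul_right W (by omega)
      have h3 : (a + 3) * W = a * W + W + W + W := by ring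
      omega) (fun j => ∫ x in br x₀ j, D.f x ^ n) ha
  have h2 := br_sum8 D nd x₀ hx₀ J (by
    intro j hj
    rw [hJ, Finset.mem_Icc] at hj
    exact hj.1)
  have h3 : 0 ≤ D.Ds nd := integral_nonneg fun x => pow_nonneg (hf0 x) n
  linarith

theorem pay_geo (k W I : ℕ) (hW : 1 ≤ W) (mm : ℕ → ℕ)
    (hmm : ∀ i, 1 ≤ i → i ≤ I → k + i * W ≤ mm i) :
    ∑ i ∈ Finset.Icc 1 I, p2 k / p2 (mm i) ≤ 2 * (1 / 2 : ℝ) ^ W := by
  obtain ⟨r, hr⟩ : ∃ r : ℝ, r = (1 / 2 : ℝ) ^ W := ⟨_, rfl⟩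
  have hr0 : 0 < r := by
    rw [hr]
    positivity
  have hr1 : r ≤ 1 / 2 := by
    rw [hr]
    calc (1 / 2 : ℝ) ^ W ≤ (1 / 2 : ℝ) ^ 1 :=
          pow_le_pow_of_le_one (by norm_num) (by norm_num) hW
      _ = 1 / 2 := by norm_num
  rw [← hr]
  have h1 : ∀ i ∈ Finset.Icc 1 I, p2 k / p2 (mm i) ≤ r ^ i := by
    intro i hi
    rw [Finset.mem_Icc] at hi
    have h2 := hmm i hi.1 hi.2
    have hp := pa_p2 (mm i)
    have h3 : p2 (mm i) = p2 k * 2 ^ (mm i - k) := by
      unfold p2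
      rw [← pow_add]
      congr 1
      omega
    have h4 : r ^ i = 1 / 2 ^ (W * i) := by
      rw [hr, ← pow_mul, one_div, inv_pow, one_div]
    rw [h4, div_le_div_iff₀ hp (by positivity), one_mul, h3]
    refine mul_le_mul_of_nonneg_left ?_ (pa_p2 k).le
    refine pow_le_pow_right₀ (by norm_num) ?_
    have h5 : W * i = i * W := mul_comm _ _
    omega
  refine (Finset.sum_le_sum h1).trans ?_
  have h2 : ∀ I : ℕ, ∑ i ∈ Finset.Icc 1 I, r ^ i ≤ 2 * r - 2 * r ^ (I + 1) := by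
    intro I
    induction I with
    | zero => simp
    | succ I ih =>
      rw [Finset.sum_Icc_succ_top (by omega)]
      have h3 : r ^ (I + 1 + 1) ≤ r ^ (I + 1) * (1 / 2) := by
        rw [pow_succ r (I + 1)]
        exact mul_le_mul_of_nonneg_left hr1 (by positivity)
      have h4 : 2 * r ^ (I + 1 + 1) ≤ r ^ (I + 1) := by linarith
      linarith
  exact (h2 I).trans (by
    have : 0 ≤ r ^ (I + 1) := by positivity
    linarith)

theorem pay_U (k W I Ke : ℕ) (hI : ∀ i, 1 ≤ i → i ≤ I → k + i * W + W + 4 ≤ Ke) (a : ℕ → ℝ)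
    (ha : ∀ j, 0 ≤ a j) :
    ∑ i ∈ Finset.Icc 1 I, ∑ j ∈ Finset.Ico (k + i * W) (k + i * W + W), a j ≤
      ∑ j ∈ Finset.Ico k (Ke + 1), a j := by
  classical
  have h1 : ∀ I : ℕ, ∑ i ∈ Finset.Icc 1 I, ∑ j ∈ Finset.Ico (k + i * W) (k + i * W + W), a j =
      ∑ j ∈ Finset.Ico (k + W) (k + W + I * W), a j := by
    intro I
    induction I with
    | zero => simp
    | succ I ih =>
      rw [Finset.sum_Icc_succ_top (by omega), ih]
      have e1 : k + (I + 1) * W = k + W + I * W := by ring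
      have e2 : k + W + (I + 1) * W = k + W + I * W + W := by ring
      rw [e1, e2]
      exact Finset.sum_Ico_consecutive _ (by omega) (by omega)
  rw [h1]
  refine Finset.sum_le_sum_of_subset_of_nonneg ?_ fun j _ _ => ha j
  intro j hj
  rw [Finset.mem_Ico] at hj ⊢
  rcases Nat.eq_zero_or_pos I with h0 | h0
  · subst h0
    omega
  · have h2 := hI I h0 le_rfl
    have h3 : k + W + I * W = k + I * W + W := by ring
    omega

end H87NR
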