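import Pool.Agent.H60.NT.BPS
import Pool.Agent.H87.NR.CHAIN
import Pool.Agent.H87.NR.PAYS
import Pool.Agent.H87.NR.HEAVY
import Pool.Agent.H87.NR.HALF
import Pool.Agent.H87.NR.AMPL
import Pool.Agent.H87.NR.EXTW
import Pool.Agent.H87.NR.DISA

/-!
# [H87 NR PROPR] Proposition R

Constants: `Cs` (`amp_ex`), `ε₂, Cd` (`dist_ex`), `C₅ = max 1 (CG (Cd (3 * 2^n + 4)))`, `t₁` (`block_pay` with
`L₀ = L0 P`), `t₀ = min t₁ (r₁ / 2)`; for `Q`: `e₁, Cb` (`block_pay`), `e₀` (`exists_TW`),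
`C = CG (16 Cd + 2 Cb) + Cb`, `e₂ ≤ min e₀ e₁` so small that `CG (5 Cd + Cb) √e₂ ≤ r₁ / 2` and
`104 Cb e₂ ≤ 1`; `ε₁ = min (min ε₂ e₁) (e₂ / Cs)`.
Given `D`, `nd` with `D.Ds nd > 0`: `e = am D Cs nd ∈ (0, e₂]`, `T, W` (`exists_TW`), `x₀, Ke` (`heavy`),
`ι = chs P nd x₀ T Ke`, `c p = ch P nd x₀ T Ke p.1 p.2`: `ch_ok`, `nd.k < p.1 + T`, `ch_half`, `ch_Ds_sum`, `chs_sum`.
Given `ρ, U`: `U' j z = U ⟨j, z⟩` if `⟨j, z⟩ ∈ chs`, else `0`. `I = (Ke - nd.k - 4) / W - 1` (natural numbers);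
for `1 ≤ i ≤ I` apply `block_pay` with `s = nd.k + i W`, `ρ = 0`, `U'`: for the rings `j` of the block
`nd.k < j < Ke`, so `P.chd nd x₀ T j z = ch P nd x₀ T Ke j z` (`ch_eq_chd`); if its weight is nonzero
somewhere `Bd` follows from the hypothesis (`Bd_mono`), otherwise `Bd_zero`. Choose `mm i`, `Pt i`, and
`pay i =` the right side there. `chain` (with `ρ' = ρ + C √e`; `Bd_mono` not needed) and `pay_br`,
`pay_geo`, `pay_U` (with `a j = ∑_z U' j z`):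
`∑ pay ≤ Cb √e ∑ U + 100 Cb e^(Q+2) Ds + 2 Cb (1/2)^W Ds ≤ C √e ∑ U + 102 Cb e^(Q+2) Ds ≤ C √e ∑ U + e^Q Ds`.
`∑_{nd.k ≤ j ≤ Ke} ∑_z U' j z = ∑_{p ∈ chs} U p` (`Finset.sum_sigma`, `Finset.sum_filter`).
-/

set_option autoImplicit false

namespace H87NR

open H60NH H60NT MeasureTheory Metric Set Filter Topology
open scoped ENNReal NNReal ContDiff

open Classical in
/-- The weights `U`, extended by `0`. -/
private noncomputable def ext {n : ℕ} (s : Finset (Ix n)) (U : Ix n → ℝ) (j : ℕ)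
    (z : Fin n → ℤ) : ℝ :=
  if (⟨j, z⟩ : Ix n) ∈ s then U ⟨j, z⟩ else 0

private theorem ext_nonneg {n : ℕ} (s : Finset (Ix n)) (U : Ix n → ℝ) (h : ∀ p ∈ s, 0 ≤ U p)
    (j : ℕ) (z : Fin n → ℤ) : 0 ≤ ext s U j z := by
  unfold ext
  split_ifs with h1
  · exact h _ h1
  · exact le_rfl

private theorem mem_chs {n m : ℕ} (P : Par n m) (nd : Node n) (x₀ : E n) (T Ke j : ℕ)
    (z : Fin n → ℤ) : (⟨j, z⟩ : Ix n) ∈ chs P nd x₀ T Ke ↔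
      (nd.k ≤ j ∧ j ≤ Ke ∧ z ∈ box n (j + T + n)) ∧ ∃ x, (ch P nd x₀ T Ke j z).η x ≠ 0 := by
  classical
  unfold chs
  rw [Finset.mem_filter, Finset.mem_sigma, Finset.mem_Icc]
  tauto

private theorem ext_sum {n m : ℕ} (P : Par n m) (nd : Node n) (x₀ : E n) (T Ke : ℕ)
    (U : Ix n → ℝ) :
    ∑ j ∈ Finset.Ico nd.k (Ke + 1), ∑ z ∈ box n (j + T + n), ext (chs P nd x₀ T Ke) U j z =
      ∑ p ∈ chs P nd x₀ T Ke, U p := by
  classical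
  have h1 : Finset.Ico nd.k (Ke + 1) = Finset.Icc nd.k Ke := by
    ext j
    rw [Finset.mem_Ico, Finset.mem_Icc]
    omega
  have h2 : ∑ p ∈ chs P nd x₀ T Ke, U p =
      ∑ p ∈ (Finset.Icc nd.k Ke).sigma (fun j => box n (j + T + n)),
        if (∃ x, (ch P nd x₀ T Ke p.1 p.2).η x ≠ 0) then U p else 0 := by
    unfold chs
    rw [Finset.sum_filter]
  rw [h1, h2, Finset.sum_sigma]
  refine Finset.sum_congr rfl fun j hj => Finset.sum_congr rfl fun z hz => ?_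
  rw [Finset.mem_Icc] at hj
  unfold ext
  have h3 := mem_chs P nd x₀ T Ke j z
  by_cases h4 : ∃ x, (ch P nd x₀ T Ke j z).η x ≠ 0
  · rw [if_pos (h3.2 ⟨⟨hj.1, hj.2, hz⟩, h4⟩), if_pos h4]
  · rw [if_neg (fun h => h4 (h3.1 h).2), if_neg h4]

private theorem pr_p2 (k : ℕ) : 0 < p2 k := by
  unfold p2
  positivity

private theorem pr_ari (Cb e Ds w : ℝ) (Q : ℕ) (hCb : 1 ≤ Cb) (he0 : 0 < e) (he1 : e ≤ 1)
    (heb : e ≤ 1 / (104 * Cb)) (hDs : 0 ≤ Ds) (hw : w ≤ e ^ (Q + 2)) :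
    Cb * e ^ (Q + 2) * (100 * Ds) + Cb * (2 * w) * Ds ≤ e ^ Q * Ds := by
  have hCb0 : 0 < Cb := by linarith
  have h8 : Cb * (2 * w) * Ds ≤ Cb * (2 * e ^ (Q + 2)) * Ds := by
    refine mul_le_mul_of_nonneg_right (mul_le_mul_of_nonneg_left ?_ hCb0.le) hDs
    linarith
  have h9 : 104 * Cb * e ≤ 1 := by
    rw [le_div_iff₀ (by positivity)] at heb
    linarith
  have h12 : Cb * (e * e) * 102 ≤ 1 := by
    have h13 : Cb * e * e ≤ Cb * e * 1 := mul_le_mul_of_nonneg_left he1 (by positivity)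
    have h14 : 0 < Cb * e := by positivity
    calc Cb * (e * e) * 102 = 102 * (Cb * e * e) := by ring
      _ ≤ 102 * (Cb * e * 1) := by linarith
      _ ≤ 104 * Cb * e := by linarith
      _ ≤ 1 := h9
  have h10 : Cb * e ^ (Q + 2) * 102 ≤ e ^ Q := by
    have h13 : 0 ≤ e ^ Q := by positivity
    calc Cb * e ^ (Q + 2) * 102 = e ^ Q * (Cb * (e * e) * 102) := by ring
      _ ≤ e ^ Q * 1 := mul_le_mul_of_nonneg_left h12 h13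
      _ = e ^ Q := mul_one _
  calc Cb * e ^ (Q + 2) * (100 * Ds) + Cb * (2 * w) * Ds
      ≤ Cb * e ^ (Q + 2) * (100 * Ds) + Cb * (2 * e ^ (Q + 2)) * Ds := by linarith
    _ = Cb * e ^ (Q + 2) * 102 * Ds := by ring
    _ ≤ e ^ Q * Ds := mul_le_mul_of_nonneg_right h10 hDs

theorem prop_R {n m : ℕ} (P : Par n m) (hB : BPay P (L0 P)) : ∃ Cs Cd ε₂ C₅ t₀ : ℝ, 1 ≤ Cs ∧ 1 ≤ Cd ∧ 0 < ε₂ ∧
    1 ≤ C₅ ∧ 0 < t₀ ∧ (∀ D : Dyn P, D.ε ≤ ε₂ → Dist D Cd) ∧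
    ∀ Q : ℕ, ∃ ε₁ C : ℝ, 0 < ε₁ ∧ 1 ≤ C ∧ ∀ D : Dyn P, D.ε ≤ ε₁ → ∀ nd : Node n,
      nd.OK (L0 P) → 0 < D.Ds nd →
      ∃ (ι : Finset (Ix n)) (c : Ix n → Node n),
        (∀ i ∈ ι, (c i).OK (L0 P) ∧ nd.k < (c i).k ∧ D.Ds (c i) ≤ D.Ds nd / 2) ∧
        (∑ i ∈ ι, D.Ds (c i) ≤ C1 n * D.Ds nd) ∧
        (∀ x, ∑ i ∈ ι, (c i).η x = nd.η x) ∧
        ∀ (ρ : ℝ) (U : Ix n → ℝ), 0 ≤ ρ → ρ + C * Real.sqrt (am D Cs nd) ≤ P.ρ₀ →
          (∀ i ∈ ι, 0 ≤ U i ∧ D.Bd C₅ t₀ (c i) (ρ + C * Real.sqrt (am D Cs nd)) (U i)) →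
          D.Bd C₅ t₀ nd ρ ((1 + C * Real.sqrt (am D Cs nd)) * (∑ i ∈ ι, U i) +
            am D Cs nd ^ Q * D.Ds nd) := by
  classical
  have hn := P.hn
  have hCG : 1 ≤ P.CG := P.hG.one_le
  have hr₁ : 0 < P.r₁ := P.hG.r1_pos
  obtain ⟨Cs, hCs, hamp⟩ := amp_ex n P.hn
  obtain ⟨ε₂, Cd, hε₂, hCd, hdist⟩ := dist_ex P
  obtain ⟨t₁, ht₁, hbp⟩ := hB
  obtain ⟨C₅, hC₅⟩ : ∃ C₅ : ℝ, C₅ = max 1 (P.CG * (Cd * (3 * 2 ^ n + 4))) := ⟨_, rfl⟩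
  have hC₅1 : 1 ≤ C₅ := by
    rw [hC₅]
    exact le_max_left _ _
  have h5 : P.CG * (Cd * (3 * 2 ^ n + 4)) ≤ C₅ := by
    rw [hC₅]
    exact le_max_right _ _
  obtain ⟨t₀, ht₀⟩ : ∃ t₀ : ℝ, t₀ = min t₁ (P.r₁ / 2) := ⟨_, rfl⟩
  have ht₀0 : 0 < t₀ := by
    rw [ht₀]
    exact lt_min ht₁ (half_pos hr₁)
  have ht₀1 : t₀ ≤ t₁ := by
    rw [ht₀]
    exact min_le_left _ _
  have ht₀r : t₀ ≤ P.r₁ / 2 := by
    rw [ht₀]
    exact min_le_right _ _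
  refine ⟨Cs, Cd, ε₂, C₅, t₀, hCs, hCd, hε₂, hC₅1, ht₀0, hdist, fun Q => ?_⟩
  obtain ⟨e₁, Cb, he₁, he₁1, hCb, hblock⟩ := hbp Q C₅ t₀ hC₅1 ht₀0 ht₀1
  obtain ⟨e₀, he₀, he₀1, hTW⟩ := exists_TW Q
  have hCb0 : 0 < Cb := by linarith
  have hCd0 : 0 < Cd := by linarith
  have hCG0 : 0 < P.CG := by linarith
  obtain ⟨a, ha⟩ : ∃ a : ℝ, a = P.CG * (5 * Cd + Cb) := ⟨_, rfl⟩
  have ha0 : 0 < a := by
    rw [ha]
    positivity
  obtain ⟨e₂, he₂⟩ : ∃ e₂ : ℝ, e₂ = min (min e₀ e₁) (min ((P.r₁ / 2 / a) ^ 2) (1 / (104 * Cb))) :=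
    ⟨_, rfl⟩
  have he₂0 : 0 < e₂ := by
    rw [he₂]
    refine lt_min (lt_min he₀ he₁) (lt_min ?_ ?_) <;> positivity
  have he₂e₀ : e₂ ≤ e₀ := by
    rw [he₂]
    exact (min_le_left _ _).trans (min_le_left _ _)
  have he₂e₁ : e₂ ≤ e₁ := by
    rw [he₂]
    exact (min_le_left _ _).trans (min_le_right _ _)
  have he₂r : e₂ ≤ (P.r₁ / 2 / a) ^ 2 := by
    rw [he₂]
    exact (min_le_right _ _).trans (min_le_left _ _)
  have he₂b : e₂ ≤ 1 / (104 * Cb) := by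
    rw [he₂]
    exact (min_le_right _ _).trans (min_le_right _ _)
  obtain ⟨C, hC⟩ : ∃ C : ℝ, C = P.CG * (16 * Cd + 2 * Cb) + Cb := ⟨_, rfl⟩
  have hC1 : P.CG * (16 * Cd + 2 * Cb) ≤ C := by linarith
  have hC2 : Cb ≤ C := by
    have : 0 ≤ P.CG * (16 * Cd + 2 * Cb) := by positivity
    linarith
  have hC3 : 1 ≤ C := hCb.trans hC2
  refine ⟨min (min ε₂ e₁) (e₂ / Cs), C, ?_, hC3, ?_⟩
  · refine lt_min (lt_min hε₂ he₁) (div_pos he₂0 (by linarith))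
  intro D hD nd hnd hDs
  have hD2 : D.ε ≤ ε₂ := hD.trans ((min_le_left _ _).trans (min_le_left _ _))
  have hD1 : D.ε ≤ e₁ := hD.trans ((min_le_left _ _).trans (min_le_right _ _))
  have hDe : D.ε ≤ e₂ / Cs := hD.trans (min_le_right _ _)
  have hd := hdist D hD2
  have hCs0 : 0 < Cs := by linarith
  obtain ⟨e, he⟩ : ∃ e : ℝ, e = am D Cs nd := ⟨_, rfl⟩
  have hmin0 : 0 < min D.ε ((D.Ds nd) ^ (1 / (n : ℝ))) :=
    lt_min D.ε_pos (Real.rpow_pos_of_pos hDs _)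
  have he0 : 0 < e := by
    rw [he]
    exact mul_pos hCs0 hmin0
  have hele : e ≤ e₂ := by
    rw [he]
    unfold am
    calc Cs * min D.ε ((D.Ds nd) ^ (1 / (n : ℝ))) ≤ Cs * D.ε :=
          mul_le_mul_of_nonneg_left (min_le_left _ _) hCs0.le
      _ ≤ Cs * (e₂ / Cs) := mul_le_mul_of_nonneg_left hDe hCs0.le
      _ = e₂ := by field_simp
  have hmine : min D.ε ((D.Ds nd) ^ (1 / (n : ℝ))) ≤ e := by
    rw [he]
    unfold am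
    calc min D.ε ((D.Ds nd) ^ (1 / (n : ℝ))) = 1 * min D.ε ((D.Ds nd) ^ (1 / (n : ℝ))) :=
          (one_mul _).symm
      _ ≤ Cs * min D.ε ((D.Ds nd) ^ (1 / (n : ℝ))) := mul_le_mul_of_nonneg_right hCs hmin0.le
  have he1 : e ≤ 1 := hele.trans (he₂e₀.trans he₀1)
  have hamp' : Amp D nd e := by
    intro j hj x hx
    rw [he]
    exact hamp D.f D.ε D.hf nd.y nd.k j hj x hx
  obtain ⟨T, W, hT1, hT2, hT3, hW1, hW2, hW3, hW4⟩ := hTW e he0 (hele.trans he₂e₀)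
  obtain ⟨x₀, Ke, hx₀, hKe, hh1, hh2⟩ := heavy D nd hDs
  have hsq0 : 0 ≤ Real.sqrt e := Real.sqrt_nonneg e
  rw [← he]
  refine ⟨chs P nd x₀ T Ke, fun p => ch P nd x₀ T Ke p.1 p.2, ?_, ?_, ?_, ?_⟩
  · rintro ⟨j, z⟩ hp
    obtain ⟨⟨h1, h2, -⟩, h3⟩ := (mem_chs P nd x₀ T Ke j z).1 hp
    refine ⟨ch_ok P nd hnd x₀ T Ke j z hT3 h1 h3, ?_, ?_⟩
    · show nd.k < j + T
      omega
    · exact ch_half D nd hnd x₀ hx₀ T Ke hT3 hh1 hh2 j z h1 h2 h3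
  · exact ch_Ds_sum D nd hnd x₀ hx₀ T Ke hT3
  · exact chs_sum P nd hnd x₀ T Ke hKe
  intro ρ U hρ hρ₀ hU
  obtain ⟨U', hU'⟩ : ∃ U' : ℕ → (Fin n → ℤ) → ℝ, U' = ext (chs P nd x₀ T Ke) U := ⟨_, rfl⟩
  have hU'0 : ∀ j z, 0 ≤ U' j z := by
    intro j z
    rw [hU']
    exact ext_nonneg _ _ (fun p hp => (hU p hp).1) j z
  have hBd : ∀ j ∈ Finset.Ico nd.k (Ke + 1), ∀ z ∈ box n (j + T + n),
      (∃ x, (ch P nd x₀ T Ke j z).η x ≠ 0) →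
        D.Bd C₅ t₀ (ch P nd x₀ T Ke j z) (ρ + C * Real.sqrt e) (U' j z) := by
    intro j hj z hz hne
    rw [Finset.mem_Ico] at hj
    have hmem : (⟨j, z⟩ : Ix n) ∈ chs P nd x₀ T Ke :=
      (mem_chs P nd x₀ T Ke j z).2 ⟨⟨hj.1, by omega, hz⟩, hne⟩
    have h1 := (hU _ hmem).2
    rw [hU']
    unfold ext
    rw [if_pos hmem]
    exact h1
  obtain ⟨I, hI⟩ : ∃ I : ℕ, I = (Ke - nd.k - 4) / W - 1 := ⟨_, rfl⟩
  have hW0 : 0 < W := by omega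
  have hI1 : ∀ i, 1 ≤ i → i ≤ I → nd.k + i * W + W + 4 ≤ Ke := by
    intro i hi1 hi2
    have h1 : i + 1 ≤ (Ke - nd.k - 4) / W := by omega
    have h2 : (i + 1) * W ≤ Ke - nd.k - 4 := (Nat.le_div_iff_mul_le hW0).1 h1
    have h3 : (i + 1) * W = i * W + W := by ring
    have h4 : 0 < (i + 1) * W := by positivity
    omega
  have hI2 : Ke < nd.k + (I + 2) * W + 4 := by
    have h1 : (Ke - nd.k - 4) / W < I + 2 := by omega
    have h2 := (Nat.div_lt_iff_lt_mul hW0).1 h1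
    omega
  have hbl : ∀ i, ∃ (mm : ℕ) (Pt : E m) (pay : ℝ), 1 ≤ i → i ≤ I →
      (nd.k + i * W ≤ mm ∧ mm < nd.k + i * W + W) ∧
      (Pt ∈ P.N ∧ ‖Pt - P.π (D.ub (nd.k + i * W) x₀)‖ ≤ Cb * Real.sqrt e) ∧
      (pay = Cb * Real.sqrt e * (∑ j ∈ Finset.Ico (nd.k + i * W) (nd.k + i * W + W),
            ∑ z ∈ box n (j + T + n), U' j z)
          + Cb * e ^ (Q + 2) * (∑ j ∈ Finset.Icc (nd.k + i * W - 4) (nd.k + i * W + W + 4),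
            ∫ x in br x₀ j, D.f x ^ n)
          + Cb * (p2 nd.k / p2 mm) * D.Ds nd) ∧
      ∀ q ∈ P.N, P.r₁ < P.dd q Pt → P.dd q Pt ≤ P.r₁ + 2 * P.ρ₀ →
        ∃ q' ∈ P.N, P.dd q' Pt = P.r₁ ∧
          D.Phi (fun x => nd.η x * P.chi x₀ mm x) q' -
            D.Phi (fun x => nd.η x * P.chi x₀ mm x) q ≤ pay := by
    intro i
    by_cases hi : 1 ≤ i ∧ i ≤ I
    · obtain ⟨hi1, hi2⟩ := hi
      have h1 := hI1 i hi1 hi2
      have hiW : W ≤ i * W := Nat.le_mul_of_pos_left W hi1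
      obtain ⟨mm, hmm, Pt, hPt, hPt2, hq⟩ := hblock D nd x₀ T W (nd.k + i * W) e 0 U' hD1 he0
        (hele.trans he₂e₁) hnd hx₀ hamp' hmine hT1 hT2 hT3 hW1 hW2 (by omega) le_rfl
        P.hG.rho_pos.le (by
          intro j hj z hz
          refine ⟨hU'0 j z, fun _ => ?_⟩
          rw [Finset.mem_Ico] at hj
          have hj1 : nd.k < j := by omega
          have hj2 : j < Ke := by omega
          rw [← ch_eq_chd P nd x₀ T Ke j z hj1 hj2]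
          by_cases hne : ∃ x, (ch P nd x₀ T Ke j z).η x ≠ 0
          · refine Bd_mono D C₅ t₀ _ _ _ _ _
              (hBd j (Finset.mem_Ico.2 ⟨by omega, by omega⟩) z hz hne) ?_ le_rfl
            have : 0 ≤ C * Real.sqrt e := mul_nonneg (by linarith) hsq0
            linarith
          · push Not at hne
            exact Bd_zero D C₅ t₀ _ _ _ hne (hU'0 j z))
      rw [Finset.mem_Ico] at hmm
      exact ⟨mm, Pt, _, fun _ _ => ⟨hmm, ⟨hPt, hPt2⟩, rfl, hq⟩⟩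
    · exact ⟨0, 0, 0, fun h1 h2 => absurd ⟨h1, h2⟩ hi⟩
  choose mm Pt pay hblk using hbl
  have hDs0 : 0 ≤ D.Ds nd := hDs.le
  have hpay0 : ∀ i, 1 ≤ i → i ≤ I → 0 ≤ pay i := by
    intro i hi1 hi2
    rw [(hblk i hi1 hi2).2.2.1]
    have h1 : 0 ≤ ∑ j ∈ Finset.Ico (nd.k + i * W) (nd.k + i * W + W),
        ∑ z ∈ box n (j + T + n), U' j z :=
      Finset.sum_nonneg fun j _ => Finset.sum_nonneg fun z _ => hU'0 j z
    have h2 : 0 ≤ ∑ j ∈ Finset.Icc (nd.k + i * W - 4) (nd.k + i * W + W + 4),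
        ∫ x in br x₀ j, D.f x ^ n :=
      Finset.sum_nonneg fun j _ => integral_nonneg fun x => pow_nonneg (D.hf.nonneg x) n
    have h3 := pr_p2 nd.k
    have h4 := pr_p2 (mm i)
    positivity
  have hmain := chain hd h5 ht₀r nd hnd e he0 he1 hamp' x₀ hx₀ T W Ke I hT3 hT2 hW2 (by omega) hKe
    hI1 hI2 Cb hCb0.le ρ (ρ + C * Real.sqrt e) hρ
    (by
      have := mul_le_mul_of_nonneg_right hC1 hsq0
      linarith) hρ₀
    (by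
      rw [← ha]
      have h1 : Real.sqrt e ≤ P.r₁ / 2 / a := by
        refine (Real.sqrt_le_sqrt (hele.trans he₂r)).trans ?_
        rw [Real.sqrt_sq (by positivity)]
      calc a * Real.sqrt e ≤ a * (P.r₁ / 2 / a) := mul_le_mul_of_nonneg_left h1 ha0.le
        _ = P.r₁ / 2 := by field_simp)
    mm Pt pay (fun i h1 h2 => (hblk i h1 h2).1) (fun i h1 h2 => (hblk i h1 h2).2.1)
    (fun i h1 h2 => ⟨hpay0 i h1 h2, (hblk i h1 h2).2.2.2⟩) U' hU'0 hBd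
  refine Bd_mono D C₅ t₀ nd ρ ρ _ _ hmain le_rfl ?_
  -- the payments
  have hsumU : ∑ j ∈ Finset.Ico nd.k (Ke + 1), ∑ z ∈ box n (j + T + n), U' j z =
      ∑ p ∈ chs P nd x₀ T Ke, U p := by
    rw [hU']
    exact ext_sum P nd x₀ T Ke U
  have hpaysum : ∑ i ∈ Finset.Icc 1 I, pay i ≤
      Cb * Real.sqrt e * (∑ p ∈ chs P nd x₀ T Ke, U p) + Cb * e ^ (Q + 2) * (100 * D.Ds nd) +
        Cb * (2 * (1 / 2 : ℝ) ^ W) * D.Ds nd := by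
    have h1 : ∑ i ∈ Finset.Icc 1 I, pay i =
        Cb * Real.sqrt e * (∑ i ∈ Finset.Icc 1 I,
          ∑ j ∈ Finset.Ico (nd.k + i * W) (nd.k + i * W + W), ∑ z ∈ box n (j + T + n), U' j z)
        + Cb * e ^ (Q + 2) * (∑ i ∈ Finset.Icc 1 I,
          ∑ j ∈ Finset.Icc (nd.k + i * W - 4) (nd.k + i * W + W + 4), ∫ x in br x₀ j, D.f x ^ n)
        + Cb * (∑ i ∈ Finset.Icc 1 I, p2 nd.k / p2 (mm i)) * D.Ds nd := by
      rw [Finset.mul_sum, Finset.mul_sum, Finset.mul_sum, Finset.sum_mul,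
        ← Finset.sum_add_distrib, ← Finset.sum_add_distrib]
      refine Finset.sum_congr rfl fun i hi => ?_
      rw [Finset.mem_Icc] at hi
      exact (hblk i hi.1 hi.2).2.2.1
    rw [h1]
    have h2 := pay_U nd.k W I Ke hI1 (fun j => ∑ z ∈ box n (j + T + n), U' j z)
      (fun j => Finset.sum_nonneg fun z _ => hU'0 j z)
    rw [hsumU] at h2
    have h3 := pay_br D nd x₀ hx₀ W I hW4
    have h4 := pay_geo nd.k W I (by omega) mm (fun i h1 h2 => (hblk i h1 h2).1.1)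
    have h5 : 0 ≤ Cb * Real.sqrt e := by positivity
    have h6 : 0 ≤ Cb * e ^ (Q + 2) := by positivity
    refine add_le_add (add_le_add ?_ ?_) ?_
    · exact mul_le_mul_of_nonneg_left h2 h5
    · exact mul_le_mul_of_nonneg_left h3 h6
    · exact mul_le_mul_of_nonneg_right (mul_le_mul_of_nonneg_left h4 hCb0.le) hDs0
  have hUs : 0 ≤ ∑ p ∈ chs P nd x₀ T Ke, U p := Finset.sum_nonneg fun p hp => (hU p hp).1
  have h7 : Cb * e ^ (Q + 2) * (100 * D.Ds nd) + Cb * (2 * (1 / 2 : ℝ) ^ W) * D.Ds nd ≤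
      e ^ Q * D.Ds nd :=
    pr_ari Cb e (D.Ds nd) _ Q hCb he0 he1 (hele.trans he₂b) hDs0 hW3
  rw [hsumU]
  have h15 : Cb * Real.sqrt e * (∑ p ∈ chs P nd x₀ T Ke, U p) ≤
      C * Real.sqrt e * (∑ p ∈ chs P nd x₀ T Ke, U p) :=
    mul_le_mul_of_nonneg_right (mul_le_mul_of_nonneg_right hC2 hsq0) hUs
  linarith

end H87NR
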