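import Pool.Agent.H87.NR.PROPR
import Pool.Agent.H87.NR.LEAF
import Pool.Agent.H87.NR.ARI

/-!
# [H87 NR RECU] The recursion (Section 8)

Constants: `Cs, Cd, ε₂, C₅, t₀` from `prop_R`; `c` from `leaf` (with `Cd`); `γ` with `4 C1 n ≤ 2^γ`;
`Q = n + n γ`; `ε', C` from `prop_R` for this `Q`; `A` from `ari_exp`; `B = 2 Cs^Q`;
`ε₁ = min ε₂ ε'` made so small that `C √(Cs ε) ≤ 1` for `ε ≤ ε₁` (so `C √(am) ≤ 1`).
`recu`: induction on `d` (for all `nd`, `ρ`).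
`Ds = 0`: `Bd_null` (the right side is `≥ 0`: `0 ≤ nd.η`, `0 ≤ f^n`, `0 ≤ P.CG`).
`d = 0`: `leaf` (`ρ ≤ ρ₀` since `Ex ≥ 0`) and `1 ≤ exp (Ex ..)`, `Bd_mono`.
`d → d + 1`, `Ds > 0`: `prop_R` gives `ι`, `c i`. `D.Ds (c i) ≤ Ds / 2 ≤ 1`. For every child
`(ρ + C √am) + Ex (D.Ds (c i)) ≤ ρ + Ex Ds ≤ ρ₀` (`ari_exp`), so the induction hypothesis applies with
`ρ + C √am`: `Bd (c i) (ρ + C √am) (U i)`,
`U i = exp (Ex (D.Ds (c i))) (CG ∫_{bad ((c i).k + d)} (c i).η f^n) + B ε^n (D.Ds (c i))^(γ+1) ≥ 0`.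
(`ρ + C √am ≤ ρ₀` by `ari_exp`, also if `ι` is empty: take `d = 0` there.) Then `Bd nd ρ (..)` with
`(1 + C √am) ∑ U i + am^Q Ds`, and `Bd_mono`:
`(1 + C √am) exp (Ex (D.Ds (c i))) ≤ exp (C √am + Ex ..) ≤ exp (Ex Ds)` (`Real.add_one_le_exp`),
`∑_i ∫_{bad ((c i).k + d)} (c i).η f^n ≤ ∑_i ∫_{bad (nd.k + (d+1))} (c i).η f^n = ∫_{bad (nd.k+(d+1))} nd.η f^n`
(`bad_anti`, `(c i).k ≥ nd.k + 1`), and
`(1 + C √am) B ε^n ∑ (D.Ds (c i))^(γ+1) + am^Q Ds ≤ 2 B ε^n Ds^(γ+1) / 4 + Cs^Q ε^n Ds^γ Ds = B ε^n Ds^(γ+1)`.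
-/

set_option autoImplicit false

namespace H87NR

open H60NH H60NT MeasureTheory Metric Set Filter Topology
open scoped ENNReal NNReal ContDiff

private theorem recu_int {n m : ℕ} {P : Par n m} (D : Dyn P) {L : ℝ} (nd : Node n)
    (hnd : nd.OK L) : Integrable (fun x => nd.η x * D.f x ^ n) := by
  refine (D.hf.intn).bdd_mul (c := 1) hnd.smooth.continuous.aestronglyMeasurable ?_
  refine Eventually.of_forall fun x => ?_
  rw [Real.norm_eq_abs, abs_of_nonneg (hnd.nonneg x)]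
  exact hnd.le_one x

private theorem recu_nn {n m : ℕ} {P : Par n m} (D : Dyn P) {L : ℝ} (nd : Node n)
    (hnd : nd.OK L) (S : Set (E n)) : 0 ≤ ∫ x in S, nd.η x * D.f x ^ n :=
  integral_nonneg fun x => mul_nonneg (hnd.nonneg x) (pow_nonneg (D.hf.nonneg x) n)

private theorem recu_mono {n m : ℕ} {P : Par n m} (D : Dyn P) {L : ℝ} (nd : Node n)
    (hnd : nd.OK L) (S S' : Set (E n)) (h : S ⊆ S') :
    ∫ x in S, nd.η x * D.f x ^ n ≤ ∫ x in S', nd.η x * D.f x ^ n :=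
  setIntegral_mono_set (recu_int D nd hnd).integrableOn
    (Eventually.of_forall fun x => mul_nonneg (hnd.nonneg x) (pow_nonneg (D.hf.nonneg x) n))
    (Eventually.of_forall h)

theorem recu {n m : ℕ} (P : Par n m) (hB : BPay P (L0 P)) : ∃ (Cd C₅ t₀ ε₁ c A B : ℝ) (γ : ℕ), 1 ≤ Cd ∧ 1 ≤ C₅ ∧
    0 < t₀ ∧ 0 < ε₁ ∧ 0 < c ∧ 1 ≤ A ∧ 1 ≤ B ∧ (∀ D : Dyn P, D.ε ≤ ε₁ → Dist D Cd) ∧
    ∀ D : Dyn P, D.ε ≤ ε₁ → ∀ (d : ℕ) (nd : Node n), nd.OK (L0 P) → D.Ds nd ≤ 1 →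
      ∀ ρ : ℝ, 0 ≤ ρ → ρ + Ex n A D.ε (D.Ds nd) ≤ P.ρ₀ →
        D.Bd C₅ t₀ nd ρ
          (Real.exp (Ex n A D.ε (D.Ds nd)) *
              (P.CG * ∫ x in bad D c (nd.k + d), nd.η x * D.f x ^ n) +
            B * D.ε ^ n * (D.Ds nd) ^ (γ + 1)) := by
  obtain ⟨Cs, Cd, ε₂, C₅, t₀, hCs, hCd, hε₂, hC₅, ht₀, hdist, hR⟩ := prop_R P hB
  obtain ⟨c, hc, hleaf⟩ := leaf P Cd hCd
  obtain ⟨γ, hγ⟩ : ∃ γ : ℕ, 4 * C1 n < 2 ^ γ := pow_unbounded_of_one_lt _ (by norm_num)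
  obtain ⟨ε', C, hε', hC, hR'⟩ := hR (n + n * γ)
  obtain ⟨A, hA, hexp⟩ := ari_exp P Cs C hCs hC
  have hCs0 : 0 < Cs := by linarith
  have hC0 : 0 < C := by linarith
  have hCG0 : 0 ≤ P.CG := by linarith [P.hG.one_le]
  have hCsQ : 1 ≤ Cs ^ (n + n * γ) := one_le_pow₀ hCs
  refine ⟨Cd, C₅, t₀, min (min ε₂ ε') (1 / (C ^ 2 * Cs)), c, A, 2 * Cs ^ (n + n * γ), γ, hCd, hC₅,
    ht₀, lt_min (lt_min hε₂ hε') (by positivity), hc, hA, by linarith,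
    fun D hD => hdist D (hD.trans ((min_le_left _ _).trans (min_le_left _ _))), ?_⟩
  intro D hD
  have hD2 : D.ε ≤ ε₂ := hD.trans ((min_le_left _ _).trans (min_le_left _ _))
  have hD' : D.ε ≤ ε' := hD.trans ((min_le_left _ _).trans (min_le_right _ _))
  have hD3 : D.ε ≤ 1 / (C ^ 2 * Cs) := hD.trans (min_le_right _ _)
  have hε0 : 0 < D.ε := D.ε_pos
  have hDs0 : ∀ nd : Node n, 0 ≤ D.Ds nd := fun nd =>
    integral_nonneg fun x => pow_nonneg (D.hf.nonneg x) n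
  have hEx0 : ∀ d : ℝ, 0 ≤ d → 0 ≤ Ex n A D.ε d := by
    intro d hd
    unfold Ex
    have h1 : 0 ≤ D.ε ^ (1 / 4 : ℝ) := Real.rpow_nonneg hε0.le _
    have h2 : 0 ≤ d ^ (1 / (4 * n) : ℝ) := Real.rpow_nonneg hd _
    exact mul_nonneg (mul_nonneg (by linarith) h1) h2
  have ham0 : ∀ nd : Node n, 0 ≤ am D Cs nd := by
    intro nd
    unfold am
    exact mul_nonneg hCs0.le (le_min hε0.le (Real.rpow_nonneg (hDs0 nd) _))
  have hs1 : ∀ nd : Node n, C * Real.sqrt (am D Cs nd) ≤ 1 := by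
    intro nd
    have h1 : am D Cs nd ≤ Cs * D.ε := by
      unfold am
      exact mul_le_mul_of_nonneg_left (min_le_left _ _) hCs0.le
    have h2 : am D Cs nd ≤ 1 / C ^ 2 := by
      refine h1.trans ?_
      calc Cs * D.ε ≤ Cs * (1 / (C ^ 2 * Cs)) := mul_le_mul_of_nonneg_left hD3 hCs0.le
        _ = 1 / C ^ 2 := by field_simp
    have h3 : Real.sqrt (am D Cs nd) ≤ 1 / C := by
      rw [Real.sqrt_le_left (by positivity)]
      rw [div_pow, one_pow]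
      exact h2
    calc C * Real.sqrt (am D Cs nd) ≤ C * (1 / C) := mul_le_mul_of_nonneg_left h3 hC0.le
      _ = 1 := by field_simp
  intro d
  induction d with
  | zero =>
    intro nd hnd _ ρ hρ hρ'
    rw [Nat.add_zero]
    have hE := hEx0 _ (hDs0 nd)
    have h1 := hleaf D (hdist D hD2) C₅ t₀ nd hnd ρ (by linarith)
    refine Bd_mono D C₅ t₀ nd ρ ρ _ _ h1 le_rfl ?_
    have h2 : 0 ≤ P.CG * ∫ x in bad D c nd.k, nd.η x * D.f x ^ n :=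
      mul_nonneg hCG0 (recu_nn D nd hnd _)
    have h3 : 1 ≤ Real.exp (Ex n A D.ε (D.Ds nd)) := Real.one_le_exp hE
    have h4 : 0 ≤ 2 * Cs ^ (n + n * γ) * D.ε ^ n * (D.Ds nd) ^ (γ + 1) := by
      have := hDs0 nd
      positivity
    nlinarith [mul_le_mul_of_nonneg_right h3 h2]
  | succ d ih =>
    intro nd hnd hDs1 ρ hρ hρ'
    have hE := hEx0 _ (hDs0 nd)
    have hpos : 0 ≤ Real.exp (Ex n A D.ε (D.Ds nd)) *
        (P.CG * ∫ x in bad D c (nd.k + (d + 1)), nd.η x * D.f x ^ n) :=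
      mul_nonneg (Real.exp_pos _).le (mul_nonneg hCG0 (recu_nn D nd hnd _))
    have hpos2 : 0 ≤ 2 * Cs ^ (n + n * γ) * D.ε ^ n * (D.Ds nd) ^ (γ + 1) := by
      have := hDs0 nd
      positivity
    rcases (hDs0 nd).lt_or_eq with hDs | hDs
    swap
    · exact Bd_null D C₅ t₀ nd hnd ρ _ hDs.symm (by linarith)
    obtain ⟨ι, cc, hch, hsum, hη, hBd⟩ := hR' D hD' nd hnd hDs
    have hexp' : ∀ i ∈ ι, C * Real.sqrt (am D Cs nd) + Ex n A D.ε (D.Ds (cc i)) ≤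
        Ex n A D.ε (D.Ds nd) := fun i hi => hexp D nd _ (hDs0 _) (hch i hi).2.2
    obtain ⟨σ, hσ⟩ : ∃ σ, σ = C * Real.sqrt (am D Cs nd) := ⟨_, rfl⟩
    have hσ0 : 0 ≤ σ := by rw [hσ]; positivity
    have hσ1 : σ ≤ 1 := by rw [hσ]; exact hs1 nd
    have h0 := hexp D nd 0 le_rfl (by linarith)
    have h00 := hEx0 0 le_rfl
    rw [← hσ] at h0 hexp' hBd
    obtain ⟨U, hU⟩ : ∃ U : Ix n → ℝ, U = fun i => Real.exp (Ex n A D.ε (D.Ds (cc i))) *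
        (P.CG * ∫ x in bad D c ((cc i).k + d), (cc i).η x * D.f x ^ n) +
        2 * Cs ^ (n + n * γ) * D.ε ^ n * (D.Ds (cc i)) ^ (γ + 1) := ⟨_, rfl⟩
    have h1 := hBd ρ U hρ (by linarith) (by
      intro i hi
      have h2 := hch i hi
      have h3 := hexp' i hi
      rw [hU]
      constructor
      · have h4 : 0 ≤ D.Ds (cc i) := hDs0 _
        have h5 := recu_nn D (cc i) h2.1 (bad D c ((cc i).k + d))
        have h6 : 0 ≤ Real.exp (Ex n A D.ε (D.Ds (cc i))) := (Real.exp_pos _).le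
        have h7 : 0 ≤ 2 * Cs ^ (n + n * γ) * D.ε ^ n * (D.Ds (cc i)) ^ (γ + 1) := by positivity
        exact add_nonneg (mul_nonneg h6 (mul_nonneg hCG0 h5)) h7
      · exact ih (cc i) h2.1 (by linarith) (ρ + σ) (by linarith) (by linarith))
    refine Bd_mono D C₅ t₀ nd ρ ρ _ _ h1 le_rfl ?_
    -- the first sum
    obtain ⟨J, hJ⟩ : ∃ J, J = ∫ x in bad D c (nd.k + (d + 1)), nd.η x * D.f x ^ n := ⟨_, rfl⟩
    rw [← hJ] at hpos ⊢
    have hJsum : J = ∑ i ∈ ι, ∫ x in bad D c (nd.k + (d + 1)), (cc i).η x * D.f x ^ n := by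
      rw [hJ, ← integral_finset_sum ι (fun i hi => (recu_int D (cc i) (hch i hi).1).integrableOn)]
      congr 1
      funext x
      rw [← Finset.sum_mul, hη x]
    have hfirst : ∀ i ∈ ι, (1 + σ) * (Real.exp (Ex n A D.ε (D.Ds (cc i))) *
        (P.CG * ∫ x in bad D c ((cc i).k + d), (cc i).η x * D.f x ^ n)) ≤
        Real.exp (Ex n A D.ε (D.Ds nd)) *
          (P.CG * ∫ x in bad D c (nd.k + (d + 1)), (cc i).η x * D.f x ^ n) := by
      intro i hi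
      have h2 := hch i hi
      have h3 : (1 + σ) * Real.exp (Ex n A D.ε (D.Ds (cc i))) ≤
          Real.exp (Ex n A D.ε (D.Ds nd)) := by
        calc (1 + σ) * Real.exp (Ex n A D.ε (D.Ds (cc i)))
            ≤ Real.exp σ * Real.exp (Ex n A D.ε (D.Ds (cc i))) := by
              refine mul_le_mul_of_nonneg_right ?_ (Real.exp_pos _).le
              linarith [Real.add_one_le_exp σ]
          _ = Real.exp (σ + Ex n A D.ε (D.Ds (cc i))) := (Real.exp_add _ _).symm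
          _ ≤ _ := Real.exp_le_exp.2 (hexp' i hi)
      have h4 : ∫ x in bad D c ((cc i).k + d), (cc i).η x * D.f x ^ n ≤
          ∫ x in bad D c (nd.k + (d + 1)), (cc i).η x * D.f x ^ n :=
        recu_mono D (cc i) h2.1 _ _ (bad_anti D c _ _ (by have := h2.2.1; omega))
      have h5 := recu_nn D (cc i) h2.1 (bad D c ((cc i).k + d))
      rw [← mul_assoc (1 + σ)]
      exact mul_le_mul h3 (mul_le_mul_of_nonneg_left h4 hCG0) (mul_nonneg hCG0 h5)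
        (Real.exp_pos _).le
    have hfirst' := Finset.sum_le_sum hfirst
    rw [← Finset.mul_sum, ← Finset.mul_sum, ← Finset.mul_sum, ← hJsum] at hfirst'
    -- the second sum
    have hloss := ari_loss n γ hγ.le ι (fun i => D.Ds (cc i)) (D.Ds nd) (fun i _ => hDs0 _)
      (fun i hi => (hch i hi).2.2) hsum
    have ham := am_pow D Cs hCs nd γ
    have hUsum : ∑ i ∈ ι, U i = (∑ i ∈ ι, Real.exp (Ex n A D.ε (D.Ds (cc i))) *
        (P.CG * ∫ x in bad D c ((cc i).k + d), (cc i).η x * D.f x ^ n)) +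
        2 * Cs ^ (n + n * γ) * D.ε ^ n * ∑ i ∈ ι, (D.Ds (cc i)) ^ (γ + 1) := by
      rw [hU, Finset.sum_add_distrib, ← Finset.mul_sum]
    rw [hUsum, mul_add]
    have hS0 : 0 ≤ ∑ i ∈ ι, (D.Ds (cc i)) ^ (γ + 1) :=
      Finset.sum_nonneg fun i _ => pow_nonneg (hDs0 _) _
    have hK0 : 0 ≤ 2 * Cs ^ (n + n * γ) * D.ε ^ n := by positivity
    have hA1 : (1 + σ) * (2 * Cs ^ (n + n * γ) * D.ε ^ n * ∑ i ∈ ι, (D.Ds (cc i)) ^ (γ + 1)) ≤
        2 * (2 * Cs ^ (n + n * γ) * D.ε ^ n * ((D.Ds nd) ^ (γ + 1) / 4)) := by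
      refine mul_le_mul (by linarith) (mul_le_mul_of_nonneg_left hloss hK0)
        (mul_nonneg hK0 hS0) (by norm_num)
    have hA2 : am D Cs nd ^ (n + n * γ) * D.Ds nd ≤
        Cs ^ (n + n * γ) * D.ε ^ n * (D.Ds nd) ^ (γ + 1) := by
      calc am D Cs nd ^ (n + n * γ) * D.Ds nd ≤
          (Cs ^ (n + n * γ) * D.ε ^ n * (D.Ds nd) ^ γ) * D.Ds nd :=
            mul_le_mul_of_nonneg_right ham (hDs0 nd)
        _ = _ := by rw [pow_succ]; ring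
    have hA3 : 2 * (2 * Cs ^ (n + n * γ) * D.ε ^ n * ((D.Ds nd) ^ (γ + 1) / 4)) +
        Cs ^ (n + n * γ) * D.ε ^ n * (D.Ds nd) ^ (γ + 1) =
        2 * Cs ^ (n + n * γ) * D.ε ^ n * (D.Ds nd) ^ (γ + 1) := by ring
    linarith

end H87NR
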