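import Pool.Agent.H87.NR.CHI
import Pool.Agent.H87.NR.PSI

/-!
# [H87 NR SUMC] The weights of the children add up

Proof. If `nd.η x = 0` both sides are zero. Otherwise `‖x‖ < 1` (`supp1`), `psi_one` gives
`∑_z ψ = 1` for every ring, and `∑_{a ≤ j < b} (tp j x - tp (j+1) x)` telescopes
(`Finset.sum_range_succ` / `Finset.sum_Ico_eq_sum_range`). Second statement: `a = nd.k`,
`b = Ke + 1`, `tp nd.k = 1`, `tp (Ke+1) = 0` (as `nd.k ≤ Ke`), the children that are left out in
`chs` have weight `0` everywhere (`Finset.sum_filter_of_ne`, `Finset.sum_sigma`).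
-/

set_option autoImplicit false

namespace H87NR

open H60NH H60NT MeasureTheory Metric Set Filter Topology
open scoped ENNReal NNReal ContDiff

theorem ch_sum {n m : ℕ} (P : Par n m) (nd : Node n) (hnd : nd.OK (L0 P)) (x₀ : E n)
    (T Ke a b : ℕ) (hab : a ≤ b) (x : E n) :
    ∑ j ∈ Finset.Ico a b, ∑ z ∈ box n (j + T + n), (ch P nd x₀ T Ke j z).η x =
      nd.η x * (tp P x₀ nd.k Ke a x - tp P x₀ nd.k Ke b x) := by
  have hη : ∀ j z, (ch P nd x₀ T Ke j z).η x = nd.η x * (tp P x₀ nd.k Ke j x -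
      tp P x₀ nd.k Ke (j + 1) x) * P.psi (j + T + n) z x := fun j z => rfl
  by_cases h0 : nd.η x = 0
  · rw [h0, zero_mul]
    apply Finset.sum_eq_zero
    intro j _
    apply Finset.sum_eq_zero
    intro z _
    rw [hη, h0, zero_mul, zero_mul]
  · have hx := hnd.supp1 x h0
    rw [mem_ball_zero_iff] at hx
    have hin : ∀ j, ∑ z ∈ box n (j + T + n), (ch P nd x₀ T Ke j z).η x =
        nd.η x * (tp P x₀ nd.k Ke j x - tp P x₀ nd.k Ke (j + 1) x) := by
      intro j
      simp only [hη]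
      rw [← Finset.mul_sum, psi_one P (j + T + n) x (by linarith), mul_one]
    simp only [hin]
    induction b, hab using Nat.le_induction with
    | base => simp
    | succ b hb ih =>
      rw [Finset.sum_Ico_succ_top hb, ih]
      ring

theorem chs_sum {n m : ℕ} (P : Par n m) (nd : Node n) (hnd : nd.OK (L0 P)) (x₀ : E n)
    (T Ke : ℕ) (hKe : nd.k ≤ Ke) (x : E n) :
    ∑ p ∈ chs P nd x₀ T Ke, (ch P nd x₀ T Ke p.1 p.2).η x = nd.η x := by
  classical
  unfold chs
  rw [Finset.sum_filter_of_ne]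
  · rw [Finset.sum_sigma]
    have e : Finset.Icc nd.k Ke = Finset.Ico nd.k (Ke + 1) := by
      ext j
      rw [Finset.mem_Icc, Finset.mem_Ico]
      omega
    rw [e, ch_sum P nd hnd x₀ T Ke nd.k (Ke + 1) (by omega) x]
    have e1 : tp P x₀ nd.k Ke nd.k x = 1 := by
      unfold tp
      rw [if_pos le_rfl]
    have e2 : tp P x₀ nd.k Ke (Ke + 1) x = 0 := by
      unfold tp
      rw [if_neg (by omega), if_neg (by omega)]
    rw [e1, e2, sub_zero, mul_one]
  · intro p _ hp
    exact ⟨x, hp⟩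

end H87NR
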