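import Pool.Agent.H87.NR.CHOK
import Pool.Agent.H87.NR.SUMC
import Pool.Agent.H87.NR.LOCC
import Pool.Agent.H87.NR.PASS
import Pool.Agent.H87.NR.GQI

/-!
# [H87 NR RINGS] The rings `a ≤ j < b` with one centre `q`

Proof. By `ch_sum` the weight `nd.η * (tp a - tp b)` is the sum of the weights of the children of the
rings `a ≤ j < b`, so both integrals are sums over these children (`integral_finset_sum`,
integrability: `mul_int`, the weights are continuous with values in `[0, 1]`; `chi_f`/`tp_facts`,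
`psi_f`; for a child with nonzero weight also `ch_ok`). A child with weight `0` contributes
`0 ≤ U j z`. For a child `c` with a nonzero weight apply `hU` (that is `Bd` with `q` and `S'`): the
condition on `x ∈ S'` with `c.η x ≠ 0` follows from `hS` (`tp_ne`, `a ≤ j`) and `pass` (`ch_loc` gives
`x ∈ ball nd.y (1 / p2 nd.k)` and `x ∈ ball c.y (1 / p2 c.k)`, `ch_ok` gives `c.OK`, `nd.k < j + T`).
-/

set_option autoImplicit false

namespace H87NR

open H60NH H60NT MeasureTheory Metric Set Filter Topology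
open scoped ENNReal NNReal ContDiff

private theorem ri_cont {n m : ℕ} (P : Par n m) (nd : Node n) (hnd : nd.OK (L0 P)) (x₀ : E n)
    (T Ke j : ℕ) (z : Fin n → ℤ) (hj : nd.k ≤ j) :
    Measurable (ch P nd x₀ T Ke j z).η ∧ ∀ x, |(ch P nd x₀ T Ke j z).η x| ≤ 1 := by
  obtain ⟨a1, a2, a3, a4, -⟩ := tp_facts P x₀ nd.k Ke j
  obtain ⟨b1, b2, b3, -⟩ := tp_facts P x₀ nd.k Ke (j + 1)
  obtain ⟨c1, c2, c3, -⟩ := psi_f P (j + T + n) z
  constructor
  · have h1 : Continuous (ch P nd x₀ T Ke j z).η := by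
      show Continuous (fun x => nd.η x * (tp P x₀ nd.k Ke j x - tp P x₀ nd.k Ke (j + 1) x) *
        P.psi (j + T + n) z x)
      exact (hnd.smooth.continuous.mul (a1.continuous.sub b1.continuous)).mul c1.continuous
    exact h1.measurable
  · intro x
    show |nd.η x * (tp P x₀ nd.k Ke j x - tp P x₀ nd.k Ke (j + 1) x) * P.psi (j + T + n) z x| ≤ 1
    have h1 := hnd.nonneg x
    have h2 := hnd.le_one x
    have h3 : 0 ≤ tp P x₀ nd.k Ke j x - tp P x₀ nd.k Ke (j + 1) x := by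
      have := a4 x
      linarith
    have h4 : tp P x₀ nd.k Ke j x - tp P x₀ nd.k Ke (j + 1) x ≤ 1 := by
      have h5 := a3 x
      have h6 := b2 x
      linarith
    rw [abs_of_nonneg (mul_nonneg (mul_nonneg h1 h3) (c2 x))]
    exact mul_le_one₀ (mul_le_one₀ h2 h3 h4) (c2 x) (c3 x)

theorem rings_le {n m : ℕ} {P : Par n m} {D : Dyn P} {Cd C₅ t₀ : ℝ} (hd : Dist D Cd)
    (h5 : P.CG * (Cd * (3 * 2 ^ n + 4)) ≤ C₅) (nd : Node n) (hnd : nd.OK (L0 P)) (x₀ : E n)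
    (hx₀ : ‖x₀ - nd.y‖ ≤ 2 / p2 nd.k) (T Ke a b : ℕ) (hT : 20 ≤ T) (ha : nd.k ≤ a) (hab : a ≤ b)
    (q : E m) (hq : q ∈ P.N) (ρ' : ℝ) (U : ℕ → (Fin n → ℤ) → ℝ)
    (hU0 : ∀ j z, 0 ≤ U j z)
    (hU : ∀ j ∈ Finset.Ico a b, ∀ z ∈ box n (j + T + n),
      (∃ x, (ch P nd x₀ T Ke j z).η x ≠ 0) →
        P.dd q (D.base (ch P nd x₀ T Ke j z)) ≤ P.r₁ + ρ' ∧
        D.Bd C₅ t₀ (ch P nd x₀ T Ke j z) ρ' (U j z))
    (S' : Set (E n)) (hS' : MeasurableSet S')
    (hS : ∀ x ∈ S', nd.η x * tp P x₀ nd.k Ke a x ≠ 0 → ∀ K : ℕ,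
      P.dd q (D.base nd) + C₅ * NN D.f K nd.k x ≤ t₀) :
    (∫ x in S', nd.η x * (tp P x₀ nd.k Ke a x - tp P x₀ nd.k Ke b x) * D.gq q x) -
      D.Phi (fun x => nd.η x * (tp P x₀ nd.k Ke a x - tp P x₀ nd.k Ke b x)) q ≤
      ∑ j ∈ Finset.Ico a b, ∑ z ∈ box n (j + T + n), U j z := by
  have hint : ∀ j ∈ Finset.Ico a b, ∀ z,
      Integrable (fun x => (ch P nd x₀ T Ke j z).η x * D.gq q x) := by
    intro j hj z
    rw [Finset.mem_Ico] at hj
    obtain ⟨h1, h2⟩ := ri_cont P nd hnd x₀ T Ke j z (ha.trans hj.1)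
    exact mul_int D q _ h1 1 h2
  have hpt : ∀ x, nd.η x * (tp P x₀ nd.k Ke a x - tp P x₀ nd.k Ke b x) * D.gq q x =
      ∑ j ∈ Finset.Ico a b, ∑ z ∈ box n (j + T + n),
        (ch P nd x₀ T Ke j z).η x * D.gq q x := by
    intro x
    rw [← ch_sum P nd hnd x₀ T Ke a b hab x, Finset.sum_mul]
    exact Finset.sum_congr rfl fun j _ => Finset.sum_mul _ _ _
  have h1 : ∫ x in S', nd.η x * (tp P x₀ nd.k Ke a x - tp P x₀ nd.k Ke b x) * D.gq q x =
      ∑ j ∈ Finset.Ico a b, ∑ z ∈ box n (j + T + n),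
        ∫ x in S', (ch P nd x₀ T Ke j z).η x * D.gq q x := by
    simp only [hpt]
    rw [integral_finsetSum _ fun j hj => integrable_finsetSum _ fun z _ =>
      (hint j hj z).integrableOn]
    exact Finset.sum_congr rfl fun j hj => integral_finsetSum _ fun z _ =>
      (hint j hj z).integrableOn
  have h2 : D.Phi (fun x => nd.η x * (tp P x₀ nd.k Ke a x - tp P x₀ nd.k Ke b x)) q =
      ∑ j ∈ Finset.Ico a b, ∑ z ∈ box n (j + T + n), D.Phi (ch P nd x₀ T Ke j z).η q := by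
    unfold Dyn.Phi
    simp only [hpt]
    rw [integral_finsetSum _ fun j hj => integrable_finsetSum _ fun z _ => hint j hj z]
    exact Finset.sum_congr rfl fun j hj => integral_finsetSum _ fun z _ => hint j hj z
  rw [h1, h2, ← Finset.sum_sub_distrib]
  refine Finset.sum_le_sum fun j hj => ?_
  rw [← Finset.sum_sub_distrib]
  refine Finset.sum_le_sum fun z hz => ?_
  have hj' := Finset.mem_Ico.1 hj
  by_cases hne : ∃ x, (ch P nd x₀ T Ke j z).η x ≠ 0
  · obtain ⟨h3, h4⟩ := hU j hj z hz hne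
    refine h4 q hq h3 S' hS' ?_
    intro x hx hηx
    obtain ⟨c1, c2, -⟩ := ch_loc P nd hnd x₀ hx₀ T Ke j z (ha.trans hj'.1) x hηx
    have h6 := hS x hx (tp_ne P nd x₀ T Ke a j z hj'.1 x hηx)
    intro K
    refine pass hd h5 nd (ch P nd x₀ T Ke j z) hnd
      (ch_ok P nd hnd x₀ T Ke j z hT (ha.trans hj'.1) hne) ?_ x c1 c2 q hq h6 K
    show nd.k < j + T
    omega
  · push Not at hne
    have h3 := Bd_zero D C₅ t₀ (ch P nd x₀ T Ke j z) 0 (U j z) hne (hU0 j z)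
    have h7 : ∀ x, (ch P nd x₀ T Ke j z).η x * D.gq q x = 0 := fun x => by rw [hne x, zero_mul]
    unfold Dyn.Phi
    simp only [h7, integral_zero, sub_zero]
    exact hU0 j z

end H87NR
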