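import Pool.Agent.H87.NR.RINGS

/-!
# [H87 NR STEP] One step of the chain (7b)

Proof of `tail_step`. Let `q`, `S'` be given. `nd.η tp_a = nd.η (tp_a - tp_b) + nd.η tp_b`, both
integrals split (`mul_int`). The first part is at most `∑ U` by `rings_le` (`hdist`, `hBd`).
Second part: `∫_{S'} nd.η tp_b g_q - Phi(nd.η tp_b, q)`.
Case `P.dd q Pb ≤ r₁`: at most `V` by `htail` with `q`, `S'` (if `nd.η x * tp_b x ≠ 0` then
`nd.η x * tp_a x ≠ 0`, as `0 < tp_b x ≤ tp_a x`: `tp_anti`); and `0 ≤ pay`.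
Case `r₁ < P.dd q Pb`: then `nd.η x * tp_b x = 0` for all `x ∈ S'` (otherwise `hS` and `hempty` give
`P.dd q Pb ≤ r₁`), so the integral over `S'` is `0`; take `q'` from `hpay` (`hclose`), `htail` with `q'`
and the empty set gives `0 - Phi(nd.η tp_b, q') ≤ V`, and
`- Phi(.., q) = - Phi(.., q') + (Phi(.., q') - Phi(.., q)) ≤ V + pay`.
`tail_last`: `b = Ke + 1`, `tp (Ke+1) = 0` (`nd.k ≤ Ke`): `rings_le` alone.
`Bd_of_tail`: `tp nd.k = 1`.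
-/

set_option autoImplicit false

namespace H87NR

open H60NH H60NT MeasureTheory Metric Set Filter Topology
open scoped ENNReal NNReal ContDiff

private theorem st_int {n m : ℕ} {P : Par n m} (D : Dyn P) (nd : Node n) (hnd : nd.OK (L0 P))
    (x₀ : E n) (Ke a : ℕ) (q : E m) :
    Integrable (fun x => nd.η x * tp P x₀ nd.k Ke a x * D.gq q x) := by
  obtain ⟨a1, a2, a3, -⟩ := tp_facts P x₀ nd.k Ke a
  refine mul_int D q (fun x => nd.η x * tp P x₀ nd.k Ke a x)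
    ((hnd.smooth.continuous.mul a1.continuous).measurable) 1 fun x => ?_
  rw [abs_of_nonneg (mul_nonneg (hnd.nonneg x) (a2 x))]
  exact mul_le_one₀ (hnd.le_one x) (a2 x) (a3 x)

theorem tail_step {n m : ℕ} {P : Par n m} {D : Dyn P} {Cd C₅ t₀ : ℝ} (hd : Dist D Cd)
    (h5 : P.CG * (Cd * (3 * 2 ^ n + 4)) ≤ C₅) (nd : Node n) (hnd : nd.OK (L0 P)) (x₀ : E n)
    (hx₀ : ‖x₀ - nd.y‖ ≤ 2 / p2 nd.k) (T Ke a b : ℕ) (hT : 20 ≤ T) (ha : nd.k ≤ a) (hab : a ≤ b)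
    (Pa Pb : E m) (ra ρ' V pay : ℝ) (U : ℕ → (Fin n → ℤ) → ℝ)
    (hU0 : ∀ j z, 0 ≤ U j z)
    (hdist : ∀ q ∈ P.N, P.dd q Pa ≤ ra → ∀ j ∈ Finset.Ico a b, ∀ z ∈ box n (j + T + n),
      (∃ x, (ch P nd x₀ T Ke j z).η x ≠ 0) →
        P.dd q (D.base (ch P nd x₀ T Ke j z)) ≤ P.r₁ + ρ')
    (hBd : ∀ j ∈ Finset.Ico a b, ∀ z ∈ box n (j + T + n),
      (∃ x, (ch P nd x₀ T Ke j z).η x ≠ 0) → D.Bd C₅ t₀ (ch P nd x₀ T Ke j z) ρ' (U j z))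
    (htail : Tail D C₅ t₀ nd x₀ Ke b Pb P.r₁ V)
    (hclose : ∀ q ∈ P.N, P.dd q Pa ≤ ra → P.dd q Pb ≤ P.r₁ + 2 * P.ρ₀)
    (hpay : ∀ q ∈ P.N, P.r₁ < P.dd q Pb → P.dd q Pb ≤ P.r₁ + 2 * P.ρ₀ →
      ∃ q' ∈ P.N, P.dd q' Pb = P.r₁ ∧
        D.Phi (fun x => nd.η x * tp P x₀ nd.k Ke b x) q' -
          D.Phi (fun x => nd.η x * tp P x₀ nd.k Ke b x) q ≤ pay)
    (hpay0 : 0 ≤ pay)
    (hempty : ∀ q ∈ P.N, ∀ x, nd.η x * tp P x₀ nd.k Ke b x ≠ 0 →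
      (∀ K : ℕ, P.dd q (D.base nd) + C₅ * NN D.f K nd.k x ≤ t₀) → P.dd q Pb ≤ P.r₁) :
    Tail D C₅ t₀ nd x₀ Ke a Pa ra
      ((∑ j ∈ Finset.Ico a b, ∑ z ∈ box n (j + T + n), U j z) + V + pay) := by
  have hρ₀ := P.hG.rho_pos
  intro q hq hqa S' hS' hS
  have hia := st_int D nd hnd x₀ Ke a q
  have hib := st_int D nd hnd x₀ Ke b q
  have hsub : ∀ x, nd.η x * (tp P x₀ nd.k Ke a x - tp P x₀ nd.k Ke b x) * D.gq q x =
      nd.η x * tp P x₀ nd.k Ke a x * D.gq q x - nd.η x * tp P x₀ nd.k Ke b x * D.gq q x := by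
    intro x
    ring
  have hr := rings_le hd h5 nd hnd x₀ hx₀ T Ke a b hT ha hab q hq ρ' U hU0
    (fun j hj z hz hne => ⟨hdist q hq hqa j hj z hz hne, hBd j hj z hz hne⟩) S' hS' hS
  unfold Dyn.Phi at hr
  simp only [hsub] at hr
  rw [integral_sub hia.integrableOn hib.integrableOn, integral_sub hia hib] at hr
  have hne : ∀ x, nd.η x * tp P x₀ nd.k Ke b x ≠ 0 → nd.η x * tp P x₀ nd.k Ke a x ≠ 0 := by
    intro x hx
    have h1 : nd.η x ≠ 0 := left_ne_zero_of_mul hx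
    have h2 : tp P x₀ nd.k Ke b x ≠ 0 := right_ne_zero_of_mul hx
    have h3 : 0 < tp P x₀ nd.k Ke b x := lt_of_le_of_ne ((tp_facts P x₀ nd.k Ke b).2.1 x) h2.symm
    exact mul_ne_zero h1 (h3.trans_le (tp_anti P x₀ nd.k Ke a b hab x)).ne'
  have hkey : (∫ x in S', nd.η x * tp P x₀ nd.k Ke b x * D.gq q x) -
      (∫ x, nd.η x * tp P x₀ nd.k Ke b x * D.gq q x) ≤ V + pay := by
    by_cases hc : P.dd q Pb ≤ P.r₁
    · have h1 := htail q hq hc S' hS' (fun x hx hηx => hS x hx (hne x hηx))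
      unfold Dyn.Phi at h1
      linarith
    · rw [not_le] at hc
      obtain ⟨q', hq', hq'd, hq'p⟩ := hpay q hq hc (hclose q hq hqa)
      have h1 := htail q' hq' hq'd.le ∅ MeasurableSet.empty (fun x hx => absurd hx (notMem_empty x))
      have h2 : ∫ x in S', nd.η x * tp P x₀ nd.k Ke b x * D.gq q x = 0 := by
        refine setIntegral_eq_zero_of_forall_eq_zero fun x hx => ?_
        by_contra h3
        have h4 : nd.η x * tp P x₀ nd.k Ke b x ≠ 0 := left_ne_zero_of_mul h3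
        exact absurd (hempty q hq x h4 (hS x hx (hne x h4))) (not_le.2 hc)
      unfold Dyn.Phi at h1 hq'p
      rw [h2]
      rw [setIntegral_empty] at h1
      linarith
  unfold Dyn.Phi
  linarith

theorem tail_last {n m : ℕ} {P : Par n m} {D : Dyn P} {Cd C₅ t₀ : ℝ} (hd : Dist D Cd)
    (h5 : P.CG * (Cd * (3 * 2 ^ n + 4)) ≤ C₅) (nd : Node n) (hnd : nd.OK (L0 P)) (x₀ : E n)
    (hx₀ : ‖x₀ - nd.y‖ ≤ 2 / p2 nd.k) (T Ke a : ℕ) (hT : 20 ≤ T) (ha : nd.k ≤ a)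
    (hKe : nd.k ≤ Ke) (haK : a ≤ Ke + 1)
    (Pa : E m) (ra ρ' : ℝ) (U : ℕ → (Fin n → ℤ) → ℝ)
    (hU0 : ∀ j z, 0 ≤ U j z)
    (hdist : ∀ q ∈ P.N, P.dd q Pa ≤ ra → ∀ j ∈ Finset.Ico a (Ke + 1), ∀ z ∈ box n (j + T + n),
      (∃ x, (ch P nd x₀ T Ke j z).η x ≠ 0) →
        P.dd q (D.base (ch P nd x₀ T Ke j z)) ≤ P.r₁ + ρ')
    (hBd : ∀ j ∈ Finset.Ico a (Ke + 1), ∀ z ∈ box n (j + T + n),
      (∃ x, (ch P nd x₀ T Ke j z).η x ≠ 0) → D.Bd C₅ t₀ (ch P nd x₀ T Ke j z) ρ' (U j z)) :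
    Tail D C₅ t₀ nd x₀ Ke a Pa ra
      (∑ j ∈ Finset.Ico a (Ke + 1), ∑ z ∈ box n (j + T + n), U j z) := by
  intro q hq hqa S' hS' hS
  have hr := rings_le hd h5 nd hnd x₀ hx₀ T Ke a (Ke + 1) hT ha haK q hq ρ' U hU0
    (fun j hj z hz hne => ⟨hdist q hq hqa j hj z hz hne, hBd j hj z hz hne⟩) S' hS' hS
  have h0 : ∀ x, tp P x₀ nd.k Ke (Ke + 1) x = 0 := by
    intro x
    have h1 : ¬ (Ke + 1 ≤ nd.k) := by omega
    have h2 : ¬ (Ke + 1 ≤ Ke) := by omega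
    simp only [tp, if_neg h1, if_neg h2]
  simp only [h0, sub_zero] at hr
  exact hr

theorem Bd_of_tail {n m : ℕ} {P : Par n m} (D : Dyn P) (C₅ t₀ : ℝ) (nd : Node n) (x₀ : E n)
    (Ke : ℕ) (ρ V : ℝ) (h : Tail D C₅ t₀ nd x₀ Ke nd.k (D.base nd) (P.r₁ + ρ) V) :
    D.Bd C₅ t₀ nd ρ V := by
  intro q hq hqd S' hS' hS
  have h0 : ∀ x, tp P x₀ nd.k Ke nd.k x = 1 := by
    intro x
    simp only [tp, le_refl, if_true]
  have h1 := h q hq hqd S' hS' (fun x hx hηx K => hS x hx (left_ne_zero_of_mul hηx) K)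
  simp only [h0, mul_one] at h1
  exact h1

end H87NR
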